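import Pool.Agent.V8H47.LB.Cnt
import Pool.Agent.V8H47.MH.Content

/-!
# The dichotomy for the contents of the store of a linear space machine
-/

namespace Pool.Agent.V8H47.LB

open Relation Pool.Agent.V8H47.MH

section conv

variable {α Γ : Type}

/-- the generic form of the steps of a machine -/
def gs (M : LP α Γ) : M.Q → Sym α × M.B → Option Γ → Set (M.Q × (M.B × Dir) × Op Γ) :=
  fun q a g => {t | (t.1, t.2.1.1, t.2.1.2, t.2.2) ∈ M.step q a.1 a.2 g}

theorem det_gs {M : LP α Γ} (h : M.Det) (q : M.Q) (a : Sym α × M.B) (g : Option Γ) :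
    (gs M q a g).Subsingleton := by
  rintro ⟨x1, ⟨x2, x3⟩, x4⟩ hx ⟨y1, ⟨y2, y3⟩, y4⟩ hy
  have := h q a.1 a.2 g hx hy
  simp only [Prod.mk.injEq] at this
  obtain ⟨rfl, rfl, rfl, rfl⟩ := this
  rfl

/-- the initial tape -/
def tp0 (n : ℕ) {B : Type} (b : B) : Tape n B := ⟨⟨0, by omega⟩, fun _ => b⟩

theorem reach_gs {M : LP α Γ} {w : List α} {c : Cf w.length M.Q M.B Γ} :
    M.Reach w c ↔ gReach M.init (gs M) (ob w) ac (tp0 w.length M.blank) (c.q, c.tape, c.st) := by
  constructor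
  · intro h
    induction h with
    | refl => exact .refl
    | tail _ hs ih =>
      obtain ⟨t, ht, rfl⟩ := hs
      exact ReflTransGen.tail ih ⟨(t.1, (t.2.1, t.2.2.1), t.2.2.2), ht, rfl⟩
  · intro h
    have key : ∀ x, gReach M.init (gs M) (ob w) ac (tp0 w.length M.blank) x →
        M.Reach w ⟨x.1, x.2.1, x.2.2⟩ := by
      intro x hx
      induction hx with
      | refl => exact .refl
      | tail _ hs ih =>
        obtain ⟨t, ht, rfl⟩ := hs
        exact ReflTransGen.tail ih ⟨(t.1, t.2.1.1, t.2.1.2, t.2.2), ht, rfl⟩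
    exact key _ h

theorem lang_gs {M : LP α Γ} {w : List α} : w ∈ M.lang ↔
    ∃ c, gReach M.init (gs M) (ob w) ac (tp0 w.length M.blank) c ∧ c.1 ∈ M.acc := by
  constructor
  · rintro ⟨c, hc, h⟩
    exact ⟨_, reach_gs.1 hc, h⟩
  · rintro ⟨c, hc, h⟩
    exact ⟨⟨c.1, c.2.1, c.2.2⟩, reach_gs.2 hc, h⟩

/-- The machine for steps given in the generic form, restricted to a finite set of states. -/
def mkLP {K B : Type} (F : Set K) (hF : F.Finite) (hB : Finite B) (blank : B) (init : K)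
    (hi : init ∈ F) (acc : Set K)
    (stp : K → Sym α × B → Option Γ → Set (K × (B × Dir) × Op Γ)) : LP α Γ where
  Q := {q // q ∈ F}
  finQ := hF.to_subtype
  B := B
  finB := hB
  blank := blank
  init := ⟨init, hi⟩
  acc := {q | q.1 ∈ acc}
  step q s b g := {t | (t.1.1, (t.2.1, t.2.2.1), t.2.2.2) ∈ stp q.1 (s, b) g}

variable {K B : Type} {F : Set K} {hF : F.Finite} {hB : Finite B} {blank : B} {init : K}
    {hi : init ∈ F} {acc : Set K}
    {stp : K → Sym α × B → Option Γ → Set (K × (B × Dir) × Op Γ)}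

theorem det_mkLP (h : ∀ q a g, (stp q a g).Subsingleton) :
    (mkLP F hF hB blank init hi acc stp).Det := by
  rintro q s b g ⟨⟨x1, x1'⟩, x2, x3, x4⟩ hx ⟨⟨y1, y1'⟩, y2, y3, y4⟩ hy
  have := h q.1 (s, b) g hx hy
  simp only [Prod.mk.injEq] at this
  obtain ⟨rfl, ⟨rfl, rfl⟩, rfl⟩ := this
  rfl

theorem mkLP_to {w : List α} {c : Cf w.length {q // q ∈ F} B Γ}
    (h : (mkLP F hF hB blank init hi acc stp).Reach w c) :
    gReach init stp (ob w) ac (tp0 w.length blank) (c.q.1, c.tape, c.st) := by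
  induction h with
  | refl => exact .refl
  | tail _ hs ih =>
    obtain ⟨t, ht, rfl⟩ := hs
    exact ReflTransGen.tail ih ⟨_, ht, rfl⟩

theorem mkLP_from {w : List α} (hcl : ∀ q ∈ F, ∀ a g, ∀ t ∈ stp q a g, t.1 ∈ F)
    {x : K × Tape w.length B × List Γ}
    (h : gReach init stp (ob w) ac (tp0 w.length blank) x) :
    ∃ hq : x.1 ∈ F, (mkLP F hF hB blank init hi acc stp).Reach w ⟨⟨x.1, hq⟩, x.2.1, x.2.2⟩ := by
  induction h with
  | refl => exact ⟨hi, .refl⟩
  | tail _ hs ih =>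
    obtain ⟨hq, ih⟩ := ih
    obtain ⟨t, ht, rfl⟩ := hs
    have h1 := hcl _ hq _ _ t ht
    exact ⟨h1, ReflTransGen.tail ih ⟨(⟨t.1, h1⟩, t.2.1.1, t.2.1.2, t.2.2), ht, rfl⟩⟩

end conv

variable {α Γ σ : Type}

/-- Thick contents: no loss of generality. -/
theorem lp_thick [Finite Γ] {R : Set (List Γ)} (h : Thick R) {Δ : Type} [Finite Δ]
    (M : LP α Δ) :
    ∃ M' : LP α Γ, (M.Det → M'.Det) ∧ M'.lang = M.lang ∧ M'.ContentsIn R := by
  obtain ⟨u, N, e, he, hN, hR⟩ := exists_code (D := Δ × Bool) h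
  have := M.finQ
  have hB := M.finB
  set b := max u.length N with hb
  have hi : (TQ.pre u : TQ M.Q Δ Γ) ∈ {q : TQ M.Q Δ Γ | q.len ≤ b} :=
    show u.length ≤ max u.length N from le_max_left _ _
  let nop : Sym α × M.B → M.B × Dir := fun a => (a.2, Dir.S)
  have hnop : ∀ (w : List α) (T : Tape w.length M.B), ac (nop (ob w T)) T = T := by
    intro w T
    simp only [nop, ob, ac]
    obtain ⟨p, C⟩ := T
    rw [act_self]
    rfl
  have hcl : ∀ q ∈ {q : TQ M.Q Δ Γ | q.len ≤ b}, ∀ a g,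
      ∀ t ∈ gStp M.init (gs M) nop N e q a g, t.1 ∈ {q : TQ M.Q Δ Γ | q.len ≤ b} :=
    fun q hq a g t ht => closed_gStp M.init (gs M) nop N e b (le_max_right _ _) hN q hq a g t ht
  let M' : LP α Γ := mkLP {q : TQ M.Q Δ Γ | q.len ≤ b} (TQ.finite b) hB M.blank (TQ.pre u) hi
    {q | ∃ s ∈ M.acc, ∃ c, q = TQ.run s c} (gStp M.init (gs M) nop N e)
  refine ⟨M', fun h => det_mkLP (det_gStp _ _ _ N e (det_gs h) he), ?_, ?_⟩
  · ext w
    have h1 := (gthick (init := M.init) (stp := gs M) (s0 := tp0 w.length M.blank) u N e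
      (hnop w) he hN R hR M.acc).1
    constructor
    · rintro ⟨c, hc, s, hs, c1, hq⟩
      rw [lang_gs, ← h1]
      exact ⟨_, mkLP_to hc, s, hs, c1, hq⟩
    · intro hw
      rw [lang_gs, ← h1] at hw
      obtain ⟨x, hx, s, hs, c1, hq⟩ := hw
      obtain ⟨h2, h3⟩ := mkLP_from (hF := TQ.finite b) (hB := hB) (hi := hi)
        (acc := {q | ∃ s ∈ M.acc, ∃ c, q = TQ.run s c}) hcl hx
      exact ⟨_, h3, s, hs, c1, hq⟩
  · intro w c hc
    exact (gthick (init := M.init) (stp := gs M) (s0 := tp0 w.length M.blank) u N e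
      (hnop w) he hN R hR M.acc).2 _ (mkLP_to hc)

/-- every suffix of a reached store content is itself reached -/
theorem suffix_lp {M : LP α Γ} {w : List α} {c : Cf w.length M.Q M.B Γ} (h : M.Reach w c) :
    ∀ st, st <:+ c.st → ∃ c', M.Reach w c' ∧ c'.st = st := by
  induction h with
  | refl =>
    intro st hst
    have : st = [] := List.suffix_nil.1 hst
    subst this
    exact ⟨_, .refl, rfl⟩
  | @tail b c hb hs ih =>
    intro st hst
    have hc : M.Reach w c := hb.tail hs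
    obtain ⟨t, ht, rfl⟩ := hs
    cases hop : t.2.2.2 with
    | keep =>
      rw [hop] at hst
      exact ih st hst
    | push g =>
      rw [hop] at hst
      rcases List.suffix_cons_iff.1 hst with h | h
      · exact ⟨_, hc, by rw [hop]; exact h.symm⟩
      · exact ih st h
    | pop =>
      rw [hop] at hst
      exact ih st (hst.trans (List.tail_suffix _))

theorem good_lp {A : DFA Γ σ} {M : LP α Γ}
    (hM : M.ContentsIn (A.accepts : Set (List Γ))) (w : List α)
    (c : M.Q × Tape w.length M.B × List Γ)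
    (h : gReach M.init (gs M) (ob w) ac (tp0 w.length M.blank) c) : Good A c.2.2 := by
  intro st hst
  obtain ⟨c', h1, h2⟩ := suffix_lp (M := M) (c := ⟨c.1, c.2.1, c.2.2⟩) (reach_gs.2 h) st hst
  rw [← h2]
  exact hM w c' h1

theorem card_tape (n : ℕ) (B : Type) : Nat.card (Tape n B) = (n + 2) * Nat.card B ^ (n + 2) := by
  have e : Tape n B ≃ Fin (n + 2) × (Fin (n + 2) → B) :=
    { toFun := fun T => (T.pos, T.cell)
      invFun := fun x => ⟨x.1, x.2⟩
      left_inv := fun T => rfl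
      right_inv := fun x => rfl }
  rw [Nat.card_congr e, Nat.card_prod, Nat.card_fun, Nat.card_fin]

instance {n : ℕ} {B : Type} [Finite B] : Finite (Tape n B) := by
  have e : Tape n B ≃ Fin (n + 2) × (Fin (n + 2) → B) :=
    { toFun := fun T => (T.pos, T.cell)
      invFun := fun x => ⟨x.1, x.2⟩
      left_inv := fun T => rfl
      right_inv := fun x => rfl }
  exact Finite.of_equiv _ e.symm

theorem bound_card (G q b m : ℕ) (hG : 0 < G) (hq : 0 < q) (hb : 0 < b) (hm : 0 < m) :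
    G * (q * (m * b ^ m)) + G * (q * (m * b ^ m)) * (q * (m * b ^ m)) <
      (4 * G * (2 * q * b) ^ 2 + 2) ^ m := by
  set V := q * (m * b ^ m) with hV
  set W := (2 * q * b) ^ m with hW
  have h1 : V ≤ W := by
    have h2 : m ≤ 2 ^ m := Nat.lt_two_pow_self.le
    have h3 : q ≤ q ^ m := Nat.le_self_pow hm.ne' q
    calc V = q * (m * b ^ m) := rfl
      _ ≤ q ^ m * (2 ^ m * b ^ m) := Nat.mul_le_mul h3 (Nat.mul_le_mul_right _ h2)
      _ = W := by rw [hW, mul_pow, mul_pow]; ring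
  have hW1 : 1 ≤ W := Nat.one_le_iff_ne_zero.2 (by positivity)
  have h4 : G ≤ G ^ m := Nat.le_self_pow hm.ne' G
  have h5 : (2 : ℕ) ≤ 4 ^ m := by
    calc 2 ≤ 4 ^ 1 := by norm_num
      _ ≤ 4 ^ m := Nat.pow_le_pow_right (by norm_num) hm
  calc G * V + G * V * V ≤ G * W + G * W * W :=
        Nat.add_le_add (Nat.mul_le_mul_left _ h1) (Nat.mul_le_mul (Nat.mul_le_mul_left _ h1) h1)
    _ ≤ G * W * W + G * W * W := Nat.add_le_add_right (Nat.le_mul_of_pos_right _ hW1) _
    _ = 2 * (G * (W * W)) := by ring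
    _ ≤ 4 ^ m * (G ^ m * (W * W)) :=
        Nat.mul_le_mul h5 (Nat.mul_le_mul_right _ h4)
    _ = (4 * G * (2 * q * b) ^ 2) ^ m := by
        rw [hW, mul_pow (4 * G), mul_pow 4 G, ← pow_mul, ← pow_add]
        ring
    _ < (4 * G * (2 * q * b) ^ 2 + 2) ^ m := Nat.pow_lt_pow_left (by omega) hm.ne'

/-- Thin contents: no store. -/
theorem lp_thin [Finite Γ] [Finite σ] {A : DFA Γ σ} (hT : ThinA A)
    (M : LP α Γ) (hM : M.ContentsIn (A.accepts : Set (List Γ))) :
    ∃ M' : LP α Empty, (M.Det → M'.Det) ∧ M'.lang = M.lang := by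
  have := M.finQ
  have hB := M.finB
  have hfs := finite_shp (Γ := Γ) (σ := σ) (Nat.card σ)
  have hK : Finite (M.Q × BS Γ σ) := by
    have : Finite (BS Γ σ) := hfs
    infer_instance
  set k := 4 * Nat.card (Option Γ) * (2 * Nat.card M.Q * Nat.card M.B) ^ 2 with hk
  refine ⟨cntLP (J := Fin (Nat.card σ)) k hK hB M.blank (M.init, sh0 A) {q | q.1 ∈ M.acc}
    (thinStp A (gs M)), fun h => det_cntLP (det_thinStp A (gs M) (det_gs h)), ?_⟩
  ext w
  have : Nonempty M.Q := ⟨M.init⟩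
  have : Nonempty M.B := ⟨M.blank⟩
  have hb := bound_card (Nat.card (Option Γ)) (Nat.card M.Q) (Nat.card M.B) (w.length + 2)
    Nat.card_pos Nat.card_pos Nat.card_pos (by omega)
  have h1 := gthin (D := A) (init := M.init) (stp := gs M) (obs := ob w) (app := ac)
    (s0 := tp0 w.length M.blank) hT (good_lp hM w) (N := (k + 2) ^ (w.length + 2)) (by
      simp only [Nat.card_prod, card_tape]
      refine lt_of_eq_of_lt ?_ hb
      ring) M.acc
  rw [lang_cntLP, lang_gs, ← h1]
  rfl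

/-- a machine without a store as a machine with an empty store -/
def LP.toSt (M : LP α Empty) (Γ : Type) : LP α Γ where
  Q := M.Q
  finQ := M.finQ
  B := M.B
  finB := M.finB
  blank := M.blank
  init := M.init
  acc := M.acc
  step q s b _ := {t | ∃ t' ∈ M.step q s b none, t = (t'.1, t'.2.1, t'.2.2.1, Op.keep)}

theorem det_toSt {M : LP α Empty} (h : M.Det) : (M.toSt Γ).Det := by
  rintro q s b g _ ⟨t, ht, rfl⟩ _ ⟨t', ht', rfl⟩
  rw [h q s b none ht ht']

theorem toSt_reach {M : LP α Empty} {w : List α} {c : Cf w.length M.Q M.B Γ}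
    (h : (M.toSt Γ).Reach w c) : c.st = [] ∧ M.Reach w ⟨c.q, c.tape, []⟩ := by
  induction h with
  | refl => exact ⟨rfl, .refl⟩
  | tail _ hs ih =>
    obtain ⟨ih1, ih2⟩ := ih
    obtain ⟨t, ⟨t', ht', rfl⟩, rfl⟩ := hs
    refine ⟨by simpa [Op.apply] using ih1, ReflTransGen.tail ih2 ⟨t', ht', ?_⟩⟩
    simp only [Cf.mk.injEq, true_and]
    rcases t' with ⟨t1, t2, t3, t4⟩
    cases t4 with
    | keep => exact ⟨rfl, rfl⟩
    | push g => exact g.elim
    | pop => exact ⟨rfl, rfl⟩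

theorem toSt_lang {M : LP α Empty} : (M.toSt Γ).lang = M.lang := by
  ext w
  constructor
  · rintro ⟨c, hc, h⟩
    exact ⟨_, (toSt_reach hc).2, h⟩
  · rintro ⟨c, hc, h⟩
    have key : ∀ c, M.Reach w c → (M.toSt Γ).Reach w ⟨c.q, c.tape, []⟩ := by
      intro c hc
      induction hc with
      | refl => exact .refl
      | @tail c c' _ hs ih =>
        obtain ⟨t, ht, rfl⟩ := hs
        have h0 : c.st = [] := by
          cases h : c.st with
          | nil => rfl
          | cons g _ => exact g.elim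
        rw [h0] at ht
        exact ReflTransGen.tail ih ⟨(t.1, t.2.1, t.2.2.1, Op.keep), ⟨t, ht, rfl⟩, rfl⟩
    exact ⟨_, key c hc, h⟩

theorem toSt_contents {M : LP α Empty} {R : Set (List Γ)} (h0 : [] ∈ R) :
    (M.toSt Γ).ContentsIn R := by
  intro w c hc
  rw [(toSt_reach hc).1]
  exact h0

/-- **The dichotomy for store contents.** -/
theorem lp_dichotomy [Finite Γ] {R : Language Γ} (hreg : R.IsRegular) (h0 : [] ∈ R) :
    (¬ PolyGrowth (R : Set (List Γ)) → ∀ (α Δ : Type) [Finite Δ] (M : LP α Δ),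
      ∃ M' : LP α Γ, (M.Det → M'.Det) ∧ M'.lang = M.lang ∧
        M'.ContentsIn (R : Set (List Γ))) ∧
    (PolyGrowth (R : Set (List Γ)) → ∀ (α : Type) (M : LP α Γ),
      M.ContentsIn (R : Set (List Γ)) →
      ∃ M' : LP α Empty, (M.Det → M'.Det) ∧ M'.lang = M.lang) := by
  obtain ⟨σ, _, A, rfl⟩ := hreg
  have hst : A.start ∈ A.accept := h0
  constructor
  · intro hp α Δ _ M
    have hth : Thick (A.accepts : Set (List Γ)) := by
      by_contra hcon
      exact hp (polyGrowth_of_thin (thinA_of_not_thick hst hcon))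
    exact lp_thick hth M
  · intro hp α M hM
    have hth : ¬ Thick (A.accepts : Set (List Γ)) := fun h => not_polyGrowth_of_thick h hp
    exact lp_thin (thinA_of_not_thick hst hth) M hM

end Pool.Agent.V8H47.LB
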