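import Pool.Agent.V8H47.MH.Defs

/-!
# Linear space machines with an auxiliary pushdown store

The input word `w` of length `n` is written between two endmarkers, at the positions `1, …, n`;
the endmarkers are at the positions `0` and `n + 1`. Each of these `n + 2` cells also carries a
letter of a finite work alphabet, which the machine can rewrite. A step depends on the state, the
symbol of the input and the letter of the work alphabet at the position of the head, and the top
symbol of the pushdown store (`none` if the store is empty). The letter is rewritten, the head
moves by at most one cell (it stays where it is if it is told to leave the tape), and a symbol may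
be pushed or popped (popping from the empty store leaves it empty). The top of the store is the
first element of the list. A machine with the empty pushdown alphabet is a linear space machine
without a store.
-/

namespace Pool.Agent.V8H47.LB

open Pool.Agent.V8H47.MH

/-- A tape with `n + 2` cells and a head. -/
@[ext] structure Tape (n : ℕ) (B : Type) where
  /-- the position of the head -/
  pos : Fin (n + 2)
  /-- the letters in the cells -/
  cell : Fin (n + 2) → B

/-- Writing a letter and moving the head. -/
def Tape.act {n : ℕ} {B : Type} (T : Tape n B) (b : B) (d : Dir) : Tape n B :=
  ⟨⟨d.move n T.pos, by have := T.pos.2; cases d <;> simp only [Dir.move] <;> omega⟩,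
    Function.update T.cell T.pos b⟩

/-- A (nondeterministic) linear space machine with an auxiliary pushdown store; the input alphabet
is `α`, the pushdown alphabet is `Γ`. -/
structure LP (α Γ : Type) where
  /-- the states -/
  Q : Type
  finQ : Finite Q
  /-- the work alphabet -/
  B : Type
  finB : Finite B
  /-- the letter written in all the cells at the beginning -/
  blank : B
  /-- the initial state -/
  init : Q
  /-- the accepting states -/
  acc : Set Q
  /-- the possible actions -/
  step : Q → Sym α → B → Option Γ → Set (Q × B × Dir × Op Γ)

/-- The configurations: state, tape, content of the store. -/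
@[ext] structure Cf (n : ℕ) (Q B Γ : Type) where
  q : Q
  tape : Tape n B
  st : List Γ

namespace LP

variable {α Γ : Type} (M : LP α Γ)

/-- One step of the machine on the input word `w`. -/
def Step (w : List α) (c c' : Cf w.length M.Q M.B Γ) : Prop :=
  ∃ t ∈ M.step c.q (symAt w c.tape.pos) (c.tape.cell c.tape.pos) c.st.head?,
    c' = ⟨t.1, c.tape.act t.2.1 t.2.2.1, t.2.2.2.apply c.st⟩

/-- The initial configuration. -/
def start (n : ℕ) : Cf n M.Q M.B Γ := ⟨M.init, ⟨⟨0, by omega⟩, fun _ => M.blank⟩, []⟩

/-- `c` can be reached from the initial configuration. -/
def Reach (w : List α) (c : Cf w.length M.Q M.B Γ) : Prop :=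
  Relation.ReflTransGen (M.Step w) (M.start w.length) c

/-- The language accepted by the machine. -/
def lang : Language α := {w | ∃ c, M.Reach w c ∧ c.q ∈ M.acc}

/-- A deterministic machine has at most one action in each situation. -/
def Det : Prop := ∀ q s b g, (M.step q s b g).Subsingleton

/-- In every configuration that the machine reaches (on any input), the content of the store,
read from the bottom to the top, belongs to `R`. -/
def ContentsIn (R : Set (List Γ)) : Prop :=
  ∀ (w : List α) (c : Cf w.length M.Q M.B Γ), M.Reach w c → c.st.reverse ∈ R

end LP

/-- The languages accepted by deterministic linear space machines, `DSPACE(n)`. -/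
def dlba (α : Type) : Set (Language α) := {L | ∃ M : LP α Empty, M.Det ∧ M.lang = L}

/-- The languages accepted by nondeterministic linear space machines, `NSPACE(n)`. -/
def lba (α : Type) : Set (Language α) := {L | ∃ M : LP α Empty, M.lang = L}

/-- The languages accepted by deterministic linear space machines with an auxiliary pushdown
store. -/
def dAux (α : Type) : Set (Language α) :=
  {L | ∃ (Γ : Type) (_ : Finite Γ) (M : LP α Γ), M.Det ∧ M.lang = L}

/-- The languages accepted by nondeterministic linear space machines with an auxiliary pushdown
store. -/
def nAux (α : Type) : Set (Language α) :=
  {L | ∃ (Γ : Type) (_ : Finite Γ) (M : LP α Γ), M.lang = L}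

/-- The same for deterministic machines with contents of the store in `R`. -/
def dAuxIn {Γ : Type} (R : Set (List Γ)) (α : Type) : Set (Language α) :=
  {L | ∃ M : LP α Γ, M.Det ∧ M.ContentsIn R ∧ M.lang = L}

/-- The same for nondeterministic machines with contents of the store in `R`. -/
def nAuxIn {Γ : Type} (R : Set (List Γ)) (α : Type) : Set (Language α) :=
  {L | ∃ M : LP α Γ, M.ContentsIn R ∧ M.lang = L}

end Pool.Agent.V8H47.LB
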