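import Pool.Agent.V8H47.MH.ThickSim

/-!
# Pushdown machines over arbitrary devices; contents in a thick language
-/

namespace Pool.Agent.V8H47.LB

open Relation Pool.Agent.V8H47.MH

/-- steps of a pushdown machine over a device with configurations `S` -/
def gstep {Q O A Γ S : Type} (obs : S → O) (app : A → S → S)
    (step : Q → O → Option Γ → Set (Q × A × Op Γ)) (c c' : Q × S × List Γ) : Prop :=
  ∃ t ∈ step c.1 (obs c.2.1) c.2.2.head?, c' = (t.1, app t.2.1 c.2.1, t.2.2.apply c.2.2)

section thick

variable {O A Γ Δ K : Type} (init : K) (stp : K → O → Option Δ → Set (K × A × Op Δ))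
  (nop : O → A) (u : List Γ) (N : ℕ) (e : Δ × Bool → List Γ)

/-- the action in a main state, for a given action of the simulated automaton -/
def gAct (q : K) (d : A) : Op Δ → Option (Δ × Bool) → TQ K Δ Γ × A × Op Γ
  | Op.keep, c => (.run q c, d, Op.keep)
  | Op.push g, none => (.run q (some (g, true)), d, Op.keep)
  | Op.push g, some x => (.psh q (e x) (g, false), d, Op.keep)
  | Op.pop, none => (.run q none, d, Op.keep)
  | Op.pop, some (_, true) => (.run q none, d, Op.keep)
  | Op.pop, some (_, false) => (.pp q [], d, Op.keep)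

/-- the steps -/
def gStp : TQ K Δ Γ → O → Option Γ → Set (TQ K Δ Γ × A × Op Γ)
  | .pre [], a, _ => {(.run init none, nop a, Op.keep)}
  | .pre (x :: l), a, _ => {(.pre l, nop a, Op.push x)}
  | .run q c, a, _ => {x | ∃ t ∈ stp q a (c.map Prod.fst), x = gAct e t.1 t.2.1 t.2.2 c}
  | .psh q [] d, a, _ => {(.run q (some d), nop a, Op.keep)}
  | .psh q (x :: l) d, a, _ => {(.psh q l d, nop a, Op.push x)}
  | .pp q l, a, g => {y | (l.length < N ∧ ∃ x, g = some x ∧ y = (.pp q (x :: l), nop a, Op.pop)) ∨
      (¬ l.length < N ∧ ∃ d, e d = l ∧ y = (.run q (some d), nop a, Op.keep))}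

theorem det_gStp (hM : ∀ q a g, (stp q a g).Subsingleton) (he : Function.Injective e)
    (q : TQ K Δ Γ) (a : O) (g : Option Γ) : (gStp init stp nop N e q a g).Subsingleton := by
  intro x hx y hy
  cases q with
  | pre l => cases l <;> (rw [gStp] at hx hy; rw [hx, hy])
  | run q c =>
    obtain ⟨t, ht, rfl⟩ := hx
    obtain ⟨t', ht', rfl⟩ := hy
    rw [hM q a _ ht ht']
  | psh q l d => cases l <;> (rw [gStp] at hx hy; rw [hx, hy])
  | pp q l =>
    rcases hx with ⟨h1, x1, h2, rfl⟩ | ⟨h1, x1, h2, rfl⟩ <;>
    rcases hy with ⟨h3, x3, h4, rfl⟩ | ⟨h3, x3, h4, rfl⟩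
    · rw [h2] at h4
      simp only [Option.some.injEq] at h4
      rw [h4]
    · exact absurd h1 h3
    · exact absurd h3 h1
    · rw [he (h2.trans h4.symm)]

theorem closed_gStp (B : ℕ) (hB : N ≤ B) (he : ∀ d, (e d).length = N) (q : TQ K Δ Γ)
    (hq : q.len ≤ B) (a : O) (g : Option Γ) (t) (ht : t ∈ gStp init stp nop N e q a g) :
    t.1.len ≤ B := by
  cases q with
  | pre l =>
    cases l with
    | nil => rw [gStp] at ht; rw [ht]; exact Nat.zero_le _
    | cons x l =>
      rw [gStp] at ht; rw [ht]
      simp only [TQ.len, List.length_cons] at hq ⊢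
      omega
  | run q c =>
    obtain ⟨t, _, rfl⟩ := ht
    rcases t with ⟨q', d, op⟩
    cases op with
    | keep => exact Nat.zero_le _
    | push g' =>
      cases c with
      | none => exact Nat.zero_le _
      | some x => simp only [gAct, TQ.len, he]; exact hB
    | pop =>
      rcases c with _ | ⟨x, _ | _⟩ <;> exact Nat.zero_le _
  | psh q l d =>
    cases l with
    | nil => rw [gStp] at ht; rw [ht]; exact Nat.zero_le _
    | cons x l =>
      rw [gStp] at ht; rw [ht]
      simp only [TQ.len, List.length_cons] at hq ⊢
      omega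
  | pp q l =>
    rcases ht with ⟨h1, x, _, rfl⟩ | ⟨_, d, _, rfl⟩
    · simp only [TQ.len, List.length_cons] at hq ⊢
      omega
    · exact Nat.zero_le _

section device

variable {S : Type} (obs : S → O) (app : A → S → S) (s0 : S)

/-- main configurations -/
noncomputable def grep (c : K × S × List Δ) : TQ K Δ Γ × S × List Γ :=
  (.run c.1 (flg c.2.2).head?, c.2.1, code u e (flg c.2.2).tail)

/-- reachable configurations of the given machine -/
def gReach (c : K × S × List Δ) : Prop :=
  ReflTransGen (gstep obs app stp) (init, s0, []) c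

/-- The invariant. -/
def GInv (x : TQ K Δ Γ × S × List Γ) : Prop :=
  match x.1 with
  | .pre l => x.2.1 = s0 ∧ ∃ p, u = p ++ l ∧ x.2.2 = p.reverse
  | .run _ _ => ∃ c, gReach init stp obs app s0 c ∧ x = grep u e c
  | .psh q l d => ∃ c, gReach init stp obs app s0 c ∧ c.1 = q ∧ c.2.1 = x.2.1 ∧
      ∃ d' p rest, e d' = p ++ l ∧ flg c.2.2 = d :: d' :: rest ∧ x.2.2 = p.reverse ++ code u e rest
  | .pp q l => ∃ c, gReach init stp obs app s0 c ∧ c.1 = q ∧ c.2.1 = x.2.1 ∧
      ∃ d p rest, e d = p ++ l ∧ flg c.2.2 = d :: rest ∧ x.2.2 = p.reverse ++ code u e rest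

variable {init stp nop obs app s0}

theorem gInv_step (he : Function.Injective e) (hN : ∀ d, (e d).length = N)
    (hnop : ∀ s, app (nop (obs s)) s = s)
    (x x' : TQ K Δ Γ × S × List Γ) (h : GInv init stp u e obs app s0 x)
    (hs : gstep obs app (gStp init stp nop N e) x x') :
    GInv init stp u e obs app s0 x' := by
  obtain ⟨xq, s, st⟩ := x
  obtain ⟨t, ht, rfl⟩ := hs
  simp only at ht
  cases xq with
  | pre l =>
    obtain ⟨h1, p, h2, h3⟩ := h
    simp only at h1 h3
    subst h1 h3
    cases l with
    | nil =>
      rw [gStp] at ht; rw [ht]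
      refine ⟨(init, s, []), .refl, ?_⟩
      simp only [grep, flg, List.head?_nil, List.tail_nil, code, List.flatMap_nil,
        List.nil_append, Op.apply, hnop]
      rw [h2, List.append_nil]
    | cons a l =>
      rw [gStp] at ht; rw [ht]
      refine ⟨hnop _, p ++ [a], by simp [h2], by simp [Op.apply]⟩
  | run q c =>
    obtain ⟨c0, hr, hx⟩ := h
    obtain ⟨q0, s0', st0⟩ := c0
    simp only [grep, Prod.mk.injEq, TQ.run.injEq] at hx
    obtain ⟨⟨rfl, rfl⟩, rfl, rfl⟩ := hx
    obtain ⟨t, ht, rfl⟩ := ht
    rw [flg_head] at ht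
    have hs : gstep obs app stp (q, s, st0) (t.1, app t.2.1 s, t.2.2.apply st0) :=
      ⟨t, ht, rfl⟩
    have hr' := ReflTransGen.tail hr hs
    obtain ⟨q', d, op⟩ := t
    simp only at hr' ⊢
    cases op with
    | keep => exact ⟨_, hr', rfl⟩
    | push g' =>
      cases st0 with
      | nil =>
        refine ⟨_, hr', ?_⟩
        simp [grep, gAct, flg, Op.apply]
      | cons g st0 =>
        simp only [flg, List.head?_cons, gAct]
        refine ⟨_, hr', rfl, rfl, (g, decide (st0 = [])), [], flg st0, rfl, ?_, ?_⟩
        · simp [Op.apply, flg]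
        · simp [Op.apply]
    | pop =>
      cases st0 with
      | nil =>
        refine ⟨_, hr', ?_⟩
        simp [grep, gAct, flg, Op.apply]
      | cons g st0 =>
        cases st0 with
        | nil =>
          refine ⟨_, hr', ?_⟩
          simp [grep, gAct, flg, Op.apply]
        | cons g' st0 =>
          have e1 : decide (g' :: st0 = []) = false := by simp
          simp only [flg, List.head?_cons, e1, gAct]
          refine ⟨_, hr', rfl, rfl, (g', decide (st0 = [])), e (g', decide (st0 = [])), flg st0,
            by simp, ?_, ?_⟩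
          · simp [Op.apply, flg]
          · simp [Op.apply, code_cons]
  | psh q l d =>
    obtain ⟨⟨q0, s0', st0⟩, hr, h1, h2, d', p, rest, h3, h4, h5⟩ := h
    simp only at h1 h2 h4 h5
    subst h1 h2 h5
    cases l with
    | nil =>
      rw [gStp] at ht; rw [ht]
      refine ⟨_, hr, ?_⟩
      simp only [grep, h4, List.head?_cons, List.tail_cons, code_cons, Op.apply, hnop]
      rw [h3, List.append_nil]
    | cons a l =>
      rw [gStp] at ht; rw [ht]
      exact ⟨_, hr, rfl, (hnop _).symm, d', p ++ [a], rest, by simp [h3], h4, by simp [Op.apply]⟩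
  | pp q l =>
    obtain ⟨⟨q0, s0', st0⟩, hr, h1, h2, d, p, rest, h3, h4, h5⟩ := h
    simp only at h1 h2 h4 h5
    subst h1 h2 h5
    have hlen : p.length + l.length = N := by rw [← hN d, h3]; simp
    rcases ht with ⟨hl, a, ha, rfl⟩ | ⟨hl, d', hd', rfl⟩
    · rcases List.eq_nil_or_concat p with rfl | ⟨p', b, rfl⟩
      · simp only [List.length_nil] at hlen; omega
      · simp only [List.concat_eq_append, List.reverse_append, List.reverse_cons,
          List.reverse_nil, List.nil_append, List.cons_append, List.head?_cons,
          Option.some.injEq] at ha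
        subst ha
        refine ⟨_, hr, rfl, (hnop _).symm, d, p', rest, by simp [h3], h4, by simp [Op.apply]⟩
    · have : p = [] := by
        apply List.eq_nil_of_length_eq_zero; omega
      subst this
      simp only [List.nil_append] at h3
      have : d' = d := he (hd'.trans h3.symm)
      subst this
      refine ⟨_, hr, ?_⟩
      simp [grep, h4, Op.apply, hnop]

theorem gInv_content (x : TQ K Δ Γ × S × List Γ) (h : GInv init stp u e obs app s0 x) :
    ∃ L, x.2.2 <:+ code u e L := by
  obtain ⟨xq, s, st⟩ := x
  cases xq with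
  | pre l =>
    obtain ⟨_, p, h2, h3⟩ := h
    simp only at h3
    subst h3
    refine ⟨[], ?_⟩
    simp only [code, List.flatMap_nil, List.nil_append, h2, List.reverse_append]
    exact List.suffix_append _ _
  | run q c =>
    obtain ⟨c0, _, hx⟩ := h
    rw [hx]
    exact ⟨_, List.suffix_rfl⟩
  | psh q l d =>
    obtain ⟨c0, _, _, _, d', p, rest, h3, _, h5⟩ := h
    simp only at h5
    subst h5
    refine ⟨d' :: rest, ?_⟩
    rw [code_cons, h3, List.reverse_append, List.append_assoc]
    exact List.suffix_append _ _
  | pp q l =>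
    obtain ⟨c0, _, _, _, d', p, rest, h3, _, h5⟩ := h
    simp only at h5
    subst h5
    refine ⟨d' :: rest, ?_⟩
    rw [code_cons, h3, List.reverse_append, List.append_assoc]
    exact List.suffix_append _ _

theorem grun_pre (hnop : ∀ s, app (nop (obs s)) s = s) (s : S) (l p : List Γ) (hp : u = p ++ l) :
    ReflTransGen (gstep obs app (gStp init stp nop N e)) (.pre l, s, p.reverse)
      (.run init none, s, u.reverse) := by
  induction l generalizing p with
  | nil =>
    refine ReflTransGen.single ⟨(.run init none, nop (obs s), Op.keep), ?_, ?_⟩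
    · simp only [gStp]; rfl
    · simp [Op.apply, hnop, hp]
  | cons a l ih =>
    refine ReflTransGen.head ⟨(.pre l, nop (obs s), Op.push a), ?_, rfl⟩ ?_
    · simp only [gStp]; rfl
    · have := ih (p ++ [a]) (by simp [hp])
      simpa [Op.apply, hnop] using this

theorem grun_psh (hnop : ∀ s, app (nop (obs s)) s = s) (q : K) (d : Δ × Bool) (s : S)
    (l st : List Γ) :
    ReflTransGen (gstep obs app (gStp init stp nop N e)) (.psh q l d, s, st)
      (.run q (some d), s, l.reverse ++ st) := by
  induction l generalizing st with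
  | nil =>
    refine ReflTransGen.single ⟨(.run q (some d), nop (obs s), Op.keep), ?_, ?_⟩
    · simp only [gStp]; rfl
    · simp [Op.apply, hnop]
  | cons a l ih =>
    refine ReflTransGen.head ⟨(.psh q l d, nop (obs s), Op.push a), ?_, rfl⟩ ?_
    · simp only [gStp]; rfl
    · have := ih (a :: st)
      simpa [Op.apply, hnop] using this

theorem grun_pp (hnop : ∀ s, app (nop (obs s)) s = s) (hN : ∀ d, (e d).length = N) (q : K)
    (d : Δ × Bool) (s : S) (p l st : List Γ) (h : e d = p.reverse ++ l) :
    ReflTransGen (gstep obs app (gStp init stp nop N e)) (.pp q l, s, p ++ st)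
      (.run q (some d), s, st) := by
  have hlen : p.length + l.length = N := by rw [← hN d, h]; simp
  induction p generalizing l with
  | nil =>
    refine ReflTransGen.single ⟨(.run q (some d), nop (obs s), Op.keep), ?_, ?_⟩
    · refine Or.inr ⟨?_, d, by simpa using h, rfl⟩
      simp only [List.length_nil] at hlen; omega
    · simp [Op.apply, hnop]
  | cons a p ih =>
    refine ReflTransGen.head ⟨(.pp q (a :: l), nop (obs s), Op.pop), ?_, rfl⟩ ?_
    · refine Or.inl ⟨?_, a, rfl, rfl⟩
      simp only [List.length_cons] at hlen; omega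
    · have := ih (a :: l) (by simp [h]) (by simp only [List.length_cons] at hlen ⊢; omega)
      simpa [Op.apply, hnop] using this

theorem grep_step (hnop : ∀ s, app (nop (obs s)) s = s) (hN : ∀ d, (e d).length = N)
    (c c' : K × S × List Δ) (hs : gstep obs app stp c c') :
    ReflTransGen (gstep obs app (gStp init stp nop N e)) (grep u e c) (grep u e c') := by
  obtain ⟨q0, pos0, st0⟩ := c
  obtain ⟨⟨q', d, op⟩, ht, rfl⟩ := hs
  simp only at ht
  have hfirst : ∀ y, y = gAct e q' d op (flg st0).head? →
      gstep obs app (gStp init stp nop N e) (grep u e (q0, pos0, st0))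
      (y.1, app y.2.1 pos0, y.2.2.apply (code u e (flg st0).tail)) := by
    rintro y rfl
    refine ⟨_, ⟨(q', d, op), ?_, rfl⟩, rfl⟩
    rw [flg_head]; exact ht
  cases op with
  | keep =>
    exact ReflTransGen.single (hfirst _ rfl)
  | push g' =>
    cases st0 with
    | nil =>
      have := hfirst _ rfl
      refine ReflTransGen.single ?_
      simpa [gAct, flg, Op.apply, grep] using this
    | cons g st0 =>
      have := hfirst _ rfl
      simp only [flg, List.head?_cons, gAct, Op.apply, List.tail_cons] at this
      refine ReflTransGen.head this ?_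
      have h2 := grun_psh (init := init) (stp := stp) (N := N) (e := e) hnop q' (g', false)
        (app d pos0) (e (g, decide (st0 = []))) (code u e (flg st0))
      simpa [grep, flg, Op.apply, code_cons] using h2
  | pop =>
    cases st0 with
    | nil =>
      have := hfirst _ rfl
      refine ReflTransGen.single ?_
      simpa [gAct, flg, Op.apply, grep] using this
    | cons g st0 =>
      cases st0 with
      | nil =>
        have := hfirst _ rfl
        refine ReflTransGen.single ?_
        simpa [gAct, flg, Op.apply, grep] using this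
      | cons g' st0 =>
        have := hfirst _ rfl
        have e1 : decide (g' :: st0 = []) = false := by simp
        simp only [flg, List.head?_cons, e1, gAct, Op.apply, List.tail_cons, code_cons] at this
        refine ReflTransGen.head this ?_
        have h2 := grun_pp (init := init) (stp := stp) (N := N) (e := e) hnop hN q'
          (g', decide (st0 = [])) (app d pos0)
          (e (g', decide (st0 = []))).reverse [] (code u e (flg st0)) (by simp)
        simpa [grep, flg, Op.apply] using h2

/-- **Thick contents**, for one device. -/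
theorem gthick (hnop : ∀ s, app (nop (obs s)) s = s) (he : Function.Injective e)
    (hN : ∀ d, (e d).length = N) (R : Set (List Γ))
    (hR : ∀ L : List (Δ × Bool), ∀ p, p <+: u ++ L.flatMap e → p ∈ R) (acc : Set K) :
    ((∃ x, ReflTransGen (gstep obs app (gStp init stp nop N e)) (.pre u, s0, []) x ∧
      ∃ s ∈ acc, ∃ c, x.1 = TQ.run s c) ↔
      ∃ c, gReach init stp obs app s0 c ∧ c.1 ∈ acc) ∧
    ∀ x, ReflTransGen (gstep obs app (gStp init stp nop N e)) (.pre u, s0, []) x →
      x.2.2.reverse ∈ R := by
  have hinv : ∀ x : TQ K Δ Γ × S × List Γ,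
      ReflTransGen (gstep obs app (gStp init stp nop N e)) (.pre u, s0, []) x →
        GInv init stp u e obs app s0 x := by
    intro x hx
    induction hx with
    | refl => exact ⟨rfl, [], rfl, rfl⟩
    | tail _ hs ih => exact gInv_step u N e he hN hnop _ _ ih hs
  refine ⟨⟨?_, ?_⟩, ?_⟩
  · rintro ⟨x, hx, s, hs, c1, hq⟩
    have h1 := hinv x hx
    unfold GInv at h1
    simp only [hq] at h1
    obtain ⟨c0, hc0, hx⟩ := h1
    refine ⟨c0, hc0, ?_⟩
    have h2 := congrArg Prod.fst hx
    rw [hq] at h2
    simp only [grep, TQ.run.injEq] at h2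
    rw [← h2.1]; exact hs
  · rintro ⟨c, hc, hacc⟩
    obtain ⟨x, hx, hP⟩ := simulates (s := gstep obs app (gStp init stp nop N e))
      (fun c x => x = grep u e c)
      (by
        rintro c x c' rfl hs
        exact ⟨_, grep_step u N e hnop hN c c' hs, rfl⟩)
      (b0 := grep u e (init, s0, [])) rfl hc
    have h0 : ReflTransGen (gstep obs app (gStp init stp nop N e)) (.pre u, s0, [])
        (grep u e (init, s0, [])) := by
      have := grun_pre (init := init) (stp := stp) (u := u) (N := N) (e := e) hnop s0 u [] rfl
      simpa [grep, flg, code] using this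
    exact ⟨x, h0.trans hx, c.1, hacc, (flg c.2.2).head?, by rw [hP]; rfl⟩
  · intro x hx
    obtain ⟨L, hL⟩ := gInv_content u e _ (hinv x hx)
    have h2 : (code u e L).reverse = u ++ L.reverse.flatMap e := by
      clear hL
      induction L with
      | nil => simp [code]
      | cons d L ih =>
        rw [code_cons, List.reverse_append, ih]
        simp
    refine hR L.reverse _ ?_
    rw [← h2]
    exact List.reverse_prefix.2 hL

end device

end thick

end Pool.Agent.V8H47.LB
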