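import Pool.Agent.V8H47.LB.IsLS

/-!
# Counters of exponential size
-/

namespace Pool.Agent.V8H47.LB

open Relation Pool.Agent.V8H47.MH

variable {α X : Type}

theorem symAt_left {w : List α} {p : ℕ} : symAt w p = Sym.left ↔ p = 0 := by
  cases p with
  | zero => simp [symAt]
  | succ n =>
    simp only [symAt, Nat.add_eq_zero_iff, one_ne_zero, and_false, iff_false]
    cases w[n]? <;> simp

theorem symAt_right {w : List α} {p : ℕ} : symAt w p = Sym.right ↔ w.length + 1 ≤ p := by
  cases p with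
  | zero => simp [symAt]
  | succ n =>
    simp only [symAt]
    cases h : w[n]? with
    | none => rw [List.getElem?_eq_none_iff] at h; simp; omega
    | some a =>
      have := (List.getElem?_eq_some_iff.1 h).1
      simp; omega

/-- the value of a number with digits below `k + 2` (least digit first) -/
def val {k n : ℕ} (x : Fin n → Fin (k + 2)) : ℕ := finFunctionFinEquiv x

/-- the digits of a number -/
def dig (k n m : ℕ) (i : Fin n) : Fin (k + 2) := ⟨m / (k + 2) ^ (i : ℕ) % (k + 2),
  Nat.mod_lt _ (by omega)⟩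

theorem val_lt {k n : ℕ} (x : Fin n → Fin (k + 2)) : val x < (k + 2) ^ n :=
  (finFunctionFinEquiv x).2

theorem dig_val {k n : ℕ} (x : Fin n → Fin (k + 2)) : dig k n (val x) = x := by
  funext i
  have h := congrFun (finFunctionFinEquiv.symm_apply_apply x) i
  rw [← h]
  apply Fin.ext
  rfl

theorem val_dig {k n m : ℕ} (h : m < (k + 2) ^ n) : val (dig k n m) = m := by
  have h1 := finFunctionFinEquiv.apply_symm_apply (⟨m, h⟩ : Fin ((k + 2) ^ n))
  have h2 : finFunctionFinEquiv.symm (⟨m, h⟩ : Fin ((k + 2) ^ n)) = dig k n m := by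
    funext i
    apply Fin.ext
    rfl
  rw [h2] at h1
  exact congrArg Fin.val h1

theorem val_inj {k n : ℕ} {x y : Fin n → Fin (k + 2)} (h : val x = val y) : x = y := by
  rw [← dig_val x, ← dig_val y, h]

theorem dig_zero (k n : ℕ) : dig k n 0 = fun _ => 0 := by
  funext i
  apply Fin.ext
  simp [dig]

theorem val_zero (k n : ℕ) : val (fun _ : Fin n => (0 : Fin (k + 2))) = 0 := by
  rw [← dig_zero, val_dig (Nat.pow_pos (by omega))]

theorem dvd_succ_pow {k i m : ℕ} : (k + 2) ^ (i + 1) ∣ m + 1 ↔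
    (k + 2) ^ i ∣ m + 1 ∧ m / (k + 2) ^ i % (k + 2) = k + 1 := by
  have hp : 0 < (k + 2) ^ i := Nat.pow_pos (by omega)
  constructor
  · intro h
    have h1 : (k + 2) ^ i ∣ m + 1 := (pow_dvd_pow _ (Nat.le_succ i)).trans h
    refine ⟨h1, ?_⟩
    have h2 : (k + 2) ∣ (m + 1) / (k + 2) ^ i := by
      obtain ⟨c, hc⟩ := h
      rw [hc, pow_succ, mul_assoc, Nat.mul_div_cancel_left _ hp]
      exact Nat.dvd_mul_right _ _
    rw [Nat.succ_div, if_pos h1] at h2
    obtain ⟨c, hc⟩ := h2
    have h3 : m / (k + 2) ^ i = (k + 2) * (c - 1) + (k + 1) := by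
      cases c with
      | zero => rw [mul_zero] at hc; exact absurd hc (Nat.succ_ne_zero _)
      | succ c => simp only [Nat.add_sub_cancel]; rw [mul_add] at hc; omega
    rw [h3, Nat.mul_add_mod]
    exact Nat.mod_eq_of_lt (by omega)
  · rintro ⟨h1, h2⟩
    have h3 : (m + 1) / (k + 2) ^ i = m / (k + 2) ^ i + 1 := by
      rw [Nat.succ_div, if_pos h1]
    have h4 : (k + 2) ∣ (m + 1) / (k + 2) ^ i := by
      rw [h3]
      have := Nat.div_add_mod (m / (k + 2) ^ i) (k + 2)
      refine ⟨m / (k + 2) ^ i / (k + 2) + 1, ?_⟩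
      rw [h2] at this
      rw [mul_add]
      linarith
    obtain ⟨c, hc⟩ := h4
    refine ⟨c, ?_⟩
    rw [pow_succ, mul_assoc, ← hc, Nat.mul_div_cancel' h1]

theorem digit_succ {k i m : ℕ} : (m + 1) / (k + 2) ^ i % (k + 2) =
    if (k + 2) ^ i ∣ m + 1 then (if m / (k + 2) ^ i % (k + 2) = k + 1 then 0
      else m / (k + 2) ^ i % (k + 2) + 1) else m / (k + 2) ^ i % (k + 2) := by
  rw [Nat.succ_div]
  split_ifs with h1 h2
  · rw [Nat.add_mod, h2, Nat.mod_eq_of_lt (by omega : 1 < k + 2)]
    simp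
  · rw [Nat.add_mod, Nat.mod_eq_of_lt (by omega : 1 < k + 2)]
    have := Nat.mod_lt (m / (k + 2) ^ i) (by omega : 0 < k + 2)
    exact Nat.mod_eq_of_lt (by omega)
  · rfl

theorem not_dvd_iff {k n m : ℕ} (h : m < (k + 2) ^ n) :
    ¬ (k + 2) ^ n ∣ m + 1 ↔ m + 1 < (k + 2) ^ n := by
  constructor
  · intro h1
    by_contra h2
    exact h1 ⟨1, by omega⟩
  · intro h1 h2
    exact absurd (Nat.le_of_dvd (by omega) h2) (by omega)

/-- the local condition for the successor: carry, argument, value -/
def SE (k : ℕ) (s : Sym α) (p q : (Fin (k + 2) × Fin (k + 2)) × Bool) : Prop :=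
  (s = Sym.left → q.2 = true) ∧
  (s ≠ Sym.left → (q.2 = true ↔ p.2 = true ∧ (p.1.1 : ℕ) = k + 1)) ∧
  (s = Sym.right → ¬ (q.2 = true ∧ (q.1.1 : ℕ) = k + 1)) ∧
  (q.1.2 : ℕ) = if q.2 = true then (if (q.1.1 : ℕ) = k + 1 then 0 else (q.1.1 : ℕ) + 1)
    else (q.1.1 : ℕ)

/-- the successor relation is verified in linear space -/
theorem IsLS.succ (k : ℕ) : IsLS (fun (w : List α) (x : Tp w (Fin (k + 2) × Fin (k + 2))) =>
    val (fun i => (x i).2) = val (fun i => (x i).1) + 1) := by
  refine (IsLS.ex (Z := Bool) (IsLS.loc (α := α) (SE k))).congr (fun w x => ?_)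
  set m := val (fun i => (x i).1) with hm
  have hlt : m < (k + 2) ^ (w.length + 2) := val_lt _
  have hx : ∀ i, ((x i).1 : ℕ) = m / (k + 2) ^ (i : ℕ) % (k + 2) := by
    intro i
    have := congrFun (dig_val (fun i => (x i).1)) i
    rw [← this]
    rfl
  constructor
  · rintro ⟨c, hc⟩
    have h1 : ∀ (j : ℕ) (hj : j < w.length + 2), c ⟨j, hj⟩ = true ↔ (k + 2) ^ j ∣ m + 1 := by
      intro j
      induction j with
      | zero =>
        intro hj
        have := (hc ⟨0, hj⟩).1 (symAt_left.2 rfl)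
        simp only at this
        simp only [pow_zero, one_dvd, iff_true]
        exact this
      | succ j ih =>
        intro hj
        have h2 := (hc ⟨j + 1, hj⟩).2.1 (by rw [Ne, symAt_left]; simp)
        simp only [pv, Nat.add_sub_cancel] at h2
        rw [h2, dvd_succ_pow, ih (by omega), hx]
    have h2 : m + 1 < (k + 2) ^ (w.length + 2) := by
      rw [← not_dvd_iff hlt, dvd_succ_pow]
      have h3 := (hc ⟨w.length + 1, by omega⟩).2.2.1 (symAt_right.2 le_rfl)
      simp only at h3
      rw [h1, hx] at h3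
      exact h3
    have h3 : (fun i => (x i).2) = dig k (w.length + 2) (m + 1) := by
      funext i
      apply Fin.ext
      have h4 := (hc i).2.2.2
      simp only at h4
      rw [h4, hx]
      simp only [dig, digit_succ]
      have h5 := h1 i i.2
      simp only [Fin.eta] at h5
      by_cases h6 : (k + 2) ^ (i : ℕ) ∣ m + 1
      · rw [if_pos (h5.2 h6), if_pos h6]
      · rw [if_neg (fun h => h6 (h5.1 h)), if_neg h6]
    rw [h3, val_dig h2]
  · intro h
    have h2 : m + 1 < (k + 2) ^ (w.length + 2) := by rw [← h]; exact val_lt _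
    have hy : ∀ i, ((x i).2 : ℕ) = (m + 1) / (k + 2) ^ (i : ℕ) % (k + 2) := by
      intro i
      have := congrFun (dig_val (fun i => (x i).2)) i
      rw [← this, h]
      rfl
    refine ⟨fun i => decide ((k + 2) ^ (i : ℕ) ∣ m + 1), fun i => ⟨?_, ?_, ?_, ?_⟩⟩
    · intro hs
      have := symAt_left.1 hs
      simp [this]
    · intro hs
      rw [Ne, symAt_left] at hs
      simp only [decide_eq_true_eq, hx, pv]
      obtain ⟨j, hj⟩ : ∃ j, (i : ℕ) = j + 1 := ⟨i - 1, by omega⟩
      rw [hj, dvd_succ_pow, Nat.add_sub_cancel]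
    · intro hs
      have h3 : (i : ℕ) = w.length + 1 := by
        have := symAt_right.1 hs
        have := i.2
        omega
      simp only [decide_eq_true_eq, hx]
      rw [← dvd_succ_pow, h3]
      exact (not_dvd_iff hlt).2 h2
    · simp only [decide_eq_true_eq, hx, hy]
      exact digit_succ

/-- the zero test -/
theorem IsLS.zero (k : ℕ) : IsLS (fun (w : List α) (x : Tp w (Fin (k + 2))) => val x = 0) := by
  refine (IsLS.letter (fun _ (a : Fin (k + 2)) => a = 0)).congr (fun w x => ?_)
  constructor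
  · intro h
    have : x = fun _ => 0 := funext h
    rw [this, val_zero]
  · intro h i
    have h1 := dig_val x
    rw [h, dig_zero] at h1
    exact (congrFun h1 i).symm

/-- equality of tracks -/
theorem IsLS.eq {Y : Type} (f g : X → Y) : IsLS (fun (w : List α) (x : Tp w X) =>
    (fun i => f (x i)) = fun i => g (x i)) := by
  refine (IsLS.letter (fun _ a => f a = g a)).congr (fun w x => ?_)
  exact ⟨fun h => funext h, fun h i => congrFun h i⟩

end Pool.Agent.V8H47.LB
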