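import Pool.Agent.V8H47.MH.ThinSim
import Pool.Agent.V8H47.LB.GThick

/-!
# Pushdown machines over arbitrary devices; contents in a thin language
-/

namespace Pool.Agent.V8H47.LB

open Relation Pool.Agent.V8H47.MH

/-- a step of a counter machine over a device, with all the counters remaining below `N` -/
def cstep {Q O A J S : Type} (obs : S → O) (app : A → S → S)
    (step : Q → O → (J → Prop) → Set (Q × A × (J → Dir))) (N : ℕ)
    (c c' : Q × S × (J → ℕ)) : Prop :=
  ∃ t ∈ step c.1 (obs c.2.1) (fun j => c.2.2 j = 0), (∀ j, t.2.2 j = Dir.R → c.2.2 j + 1 < N) ∧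
    c' = (t.1, app t.2.1 c.2.1, fun j => (t.2.2 j).cmove (c.2.2 j))

section thin

variable {O A Γ K σ : Type} [Finite σ] [Finite Γ] (D : DFA Γ σ) (init : K)
  (stp : K → O → Option Γ → Set (K × A × Op Γ))

/-- shapes of bounded length -/
abbrev BS (Γ σ : Type) [Finite σ] : Type := {E : Shp Γ σ // E.2.length < Nat.card σ}

/-- the steps of the counter machine -/
noncomputable def thinStp : K × BS Γ σ → O → (Fin (Nat.card σ) → Prop) →
    Set ((K × BS Γ σ) × A × (Fin (Nat.card σ) → Dir)) := fun q a z =>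
  {x | ∃ t ∈ stp q.1 a (shTop D (z ⟨q.2.1.2.length, q.2.2⟩) q.2.1),
    x.1.1 = t.1 ∧ x.1.2.1 = (shOp D (z ⟨q.2.1.2.length, q.2.2⟩) q.2.1 t.2.2).1 ∧
    x.2 = (t.2.1, fun j : Fin (Nat.card σ) => if (j : ℕ) = q.2.1.2.length then
      (shOp D (z ⟨q.2.1.2.length, q.2.2⟩) q.2.1 t.2.2).2 else Dir.S)}

theorem det_thinStp (h : ∀ q a g, (stp q a g).Subsingleton) (q : K × BS Γ σ) (a : O)
    (z : Fin (Nat.card σ) → Prop) : (thinStp D stp q a z).Subsingleton := by
  rintro ⟨⟨x1, x2⟩, x3⟩ ⟨t, ht, h1, h2, h3⟩ ⟨⟨y1, y2⟩, y3⟩ ⟨t', ht', h1', h2', h3'⟩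
  have : t = t' := h _ _ _ ht ht'
  subst this
  simp only at h1 h2 h3 h1' h2' h3'
  subst h1
  subst h1'
  subst h3
  subst h3'
  have : x2 = y2 := Subtype.ext (h2.trans h2'.symm)
  rw [this]

/-- the initial shape -/
def sh0 : BS Γ σ := ⟨((none, D.start), []), by
  have : Nonempty σ := ⟨D.start⟩
  exact Nat.card_pos⟩

variable {S : Type} (obs : S → O) (app : A → S → S) (s0 : S)

/-- The simulation relation. -/
def GThinRel (c : K × S × List Γ) (x : (K × BS Γ σ) × S × (Fin (Nat.card σ) → ℕ)) : Prop :=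
  gReach init stp obs app s0 c ∧ x.1.1 = c.1 ∧ x.1.2.1 = forget (enc D c.2.2) ∧ x.2.1 = c.2.1 ∧
    x.2.2 = fun j : Fin (Nat.card σ) => cnts D c.2.2 j

variable {D init stp obs app s0}

theorem gthin_sim (hT : ThinA D) (hG : ∀ c, gReach init stp obs app s0 c → Good D c.2.2) {N : ℕ}
    {c c' : K × S × List Γ} {x : (K × BS Γ σ) × S × (Fin (Nat.card σ) → ℕ)}
    (hP : GThinRel D init stp obs app s0 c x) (hs : gstep obs app stp c c')
    (hN : c'.2.2.length < N) :
    ∃ x', cstep obs app (thinStp D stp) N x x' ∧ GThinRel D init stp obs app s0 c' x' := by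
  obtain ⟨⟨q, E, hE⟩, s, cn⟩ := x
  obtain ⟨hr, h1, h2, h3, h4⟩ := hP
  simp only at h1 h2 h3 h4
  subst h1 h2 h3 h4
  have hr' : gReach init stp obs app s0 c' := ReflTransGen.tail hr hs
  have hg := hG c hr
  have hg' := hG c' hr'
  obtain ⟨t, ht, rfl⟩ := hs
  simp only at hg' hN
  have hlen := enc_length_lt hg'
  have hz : (cnts D c.2.2 ((⟨(forget (enc D c.2.2)).2.length, hE⟩ : Fin (Nat.card σ)) : ℕ) = 0) =
      ((enc D c.2.2).1.2.2 = 0) := by
    simp only [forget_length, cnts_top]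
  have hsp := shOp_spec hT t.2.2 hg
  refine ⟨((t.1, ⟨forget (enc D (t.2.2.apply c.2.2)), by rw [forget_length]; exact hlen⟩),
    app t.2.1 c.2.1, fun j => cnts D (t.2.2.apply c.2.2) j),
    ⟨((t.1, ⟨forget (enc D (t.2.2.apply c.2.2)), by rw [forget_length]; exact hlen⟩), t.2.1,
      fun j => if (j : ℕ) = (forget (enc D c.2.2)).2.length then
      (shOp D ((enc D c.2.2).1.2.2 = 0) (forget (enc D c.2.2)) t.2.2).2 else Dir.S),
      ⟨t, ?_, rfl, ?_, ?_⟩, ?_, ?_⟩, hr', rfl, rfl, rfl, rfl⟩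
  · simp only
    rw [hz, shTop_spec hT hg]
    exact ht
  · simp only
    rw [hz]
    exact hsp.1.symm
  · simp only
    rw [hz]
  · intro j hj
    simp only at hj ⊢
    have h5 := hsp.2 j
    rw [← forget_length, hj] at h5
    simp only [Dir.cmove] at h5
    rw [h5]
    exact lt_of_le_of_lt (cnts_le _ _) hN
  · simp only [Prod.mk.injEq, true_and]
    funext j
    have h5 := hsp.2 j
    rw [← forget_length] at h5
    exact h5.symm

theorem gthin_sim' (hT : ThinA D) (hG : ∀ c, gReach init stp obs app s0 c → Good D c.2.2) {N : ℕ}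
    {c : K × S × List Γ} {x x' : (K × BS Γ σ) × S × (Fin (Nat.card σ) → ℕ)}
    (hP : GThinRel D init stp obs app s0 c x) (hs : cstep obs app (thinStp D stp) N x x') :
    ∃ c', gstep obs app stp c c' ∧ GThinRel D init stp obs app s0 c' x' := by
  obtain ⟨⟨q, E, hE⟩, s, cn⟩ := x
  obtain ⟨hr, h1, h2, h3, h4⟩ := hP
  simp only at h1 h2 h3 h4
  subst h1 h2 h3 h4
  have hg := hG c hr
  obtain ⟨⟨⟨q', E'⟩, d⟩, ⟨t, ht, h5, h6, h7⟩, hR, rfl⟩ := hs
  simp only at h5 h6 h7
  subst h5 h7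
  have hz : (cnts D c.2.2 ((⟨(forget (enc D c.2.2)).2.length, hE⟩ : Fin (Nat.card σ)) : ℕ) = 0) =
      ((enc D c.2.2).1.2.2 = 0) := by
    simp only [forget_length, cnts_top]
  have hsp := shOp_spec hT t.2.2 hg
  simp only at ht
  rw [hz, shTop_spec hT hg] at ht
  rw [hz] at h6
  have hs : gstep obs app stp c (t.1, app t.2.1 c.2.1, t.2.2.apply c.2.2) := ⟨t, ht, rfl⟩
  refine ⟨_, hs, ReflTransGen.tail hr hs, rfl, ?_, rfl, ?_⟩
  · simp only
    rw [h6]
    exact hsp.1
  · simp only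
    funext j
    have h5 := hsp.2 j
    rw [← forget_length] at h5
    rw [hz]
    exact h5

variable (stp obs app) in
/-- the pushdown system -/
def gpds : PDS (K × S) Γ where
  E op g v v' := ∃ t ∈ stp v.1 (obs v.2) g, t.2.2 = op ∧ v' = (t.1, app t.2.1 v.2)

theorem gpds_of_step {c c' : K × S × List Γ} (hs : gstep obs app stp c c') :
    (gpds stp obs app).Step ((c.1, c.2.1), c.2.2) ((c'.1, c'.2.1), c'.2.2) := by
  obtain ⟨t, ht, rfl⟩ := hs
  exact ⟨t.2.2, ⟨t, ht, rfl, rfl⟩, rfl⟩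

theorem gstep_of_pds {v v' : K × S} {st st' : List Γ}
    (hs : (gpds stp obs app).Step (v, st) (v', st')) :
    gstep obs app stp (v.1, v.2, st) (v'.1, v'.2, st') := by
  obtain ⟨op, ⟨t, ht, rfl, h1⟩, h3⟩ := hs
  simp only at h1 h3
  subst h1 h3
  exact ⟨t, ht, rfl⟩

theorem gbounded_run [Finite K] [Finite S] {b : ℕ} {acc : Set K}
    (hw : ∃ c, gReach init stp obs app s0 c ∧ c.1 ∈ acc)
    (hb : Nat.card (Option Γ × (K × S)) + Nat.card (Option Γ × (K × S) × (K × S)) ≤ b) :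
    ∃ c, ReflTransGen (fun c c' => gstep obs app stp c c' ∧ c'.2.2.length ≤ b) (init, s0, []) c ∧
      c.1 ∈ acc := by
  obtain ⟨c, hc, hacc⟩ := hw
  obtain ⟨v, hv, hP⟩ := simulate (s := (gpds stp obs app).Step)
    (fun (c : K × S × List Γ) (v : (K × S) × List Γ) => v = ((c.1, c.2.1), c.2.2))
    (by
      rintro c _ c' rfl hs
      exact ⟨_, gpds_of_step hs, rfl⟩)
    (b0 := ((init, s0), [])) rfl hc
  subst hP
  obtain ⟨y, hy, st', hst'⟩ := (gpds stp obs app).exists_small {v | v.1 ∈ acc} hv hacc hb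
  obtain ⟨c, hc, hP⟩ := simulate (s := fun c c' => gstep obs app stp c c' ∧ c'.2.2.length ≤ b)
    (fun (v : (K × S) × List Γ) (c : K × S × List Γ) => c = (v.1.1, v.1.2, v.2))
    (by
      rintro ⟨v, st⟩ c ⟨v', st'⟩ rfl hs
      exact ⟨_, ⟨gstep_of_pds hs.1, hs.2.2⟩, rfl⟩)
    (b0 := (init, s0, [])) rfl hst'
  refine ⟨c, hc, ?_⟩
  rw [hP]
  exact hy

/-- **Thin contents**, for one device. -/
theorem gthin [Finite K] [Finite S] (hT : ThinA D)
    (hG : ∀ c, gReach init stp obs app s0 c → Good D c.2.2) {N : ℕ}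
    (hN : Nat.card (Option Γ × (K × S)) + Nat.card (Option Γ × (K × S) × (K × S)) < N)
    (acc : Set K) :
    (∃ x, ReflTransGen (cstep obs app (thinStp D stp) N) ((init, sh0 D), s0, fun _ => 0) x ∧
      x.1.1 ∈ acc) ↔ ∃ c, gReach init stp obs app s0 c ∧ c.1 ∈ acc := by
  have hstart : GThinRel D init stp obs app s0 (init, s0, []) ((init, sh0 D), s0, fun _ => 0) := by
    refine ⟨.refl, rfl, rfl, rfl, ?_⟩
    funext j
    have := cnts_le (A := D) ([] : List Γ) j
    simp only [List.length_nil, Nat.le_zero] at this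
    exact this.symm
  constructor
  · rintro ⟨x, hx, hacc⟩
    obtain ⟨c, hc, hP⟩ := simulate (s := gstep obs app stp)
      (fun x c => GThinRel D init stp obs app s0 c x)
      (by
        intro x c x' hP hs
        exact gthin_sim' hT hG hP hs) hstart hx
    refine ⟨c, hc, ?_⟩
    rw [← hP.2.1]
    exact hacc
  · intro hw
    obtain ⟨c, hc, hacc⟩ := gbounded_run hw le_rfl
    obtain ⟨x, hx, hP⟩ := simulate (s := cstep obs app (thinStp D stp) N)
      (fun c x => GThinRel D init stp obs app s0 c x)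
      (by
        intro c x c' hP hs
        exact gthin_sim hT hG hP hs.1 (lt_of_le_of_lt hs.2 hN)) hstart hc
    refine ⟨x, hx, ?_⟩
    rw [hP.2.1]
    exact hacc

end thin

end Pool.Agent.V8H47.LB
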