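import Pool.Agent.V8H47.LB.PDefs
import Pool.Agent.V8H47.LB.Counter
import Pool.Agent.V8H47.LB.GThin
import Pool.Agent.V8H47.MH.Univ

/-!
# Counters of exponential size on the tape of a linear space machine
-/

namespace Pool.Agent.V8H47.LB

open Relation Pool.Agent.V8H47.MH

/-! ### Digits -/

theorem dvd_pow_succ {k i v : ℕ} : (k + 2) ^ (i + 1) ∣ v ↔
    (k + 2) ^ i ∣ v ∧ v / (k + 2) ^ i % (k + 2) = 0 := by
  have hp : 0 < (k + 2) ^ i := Nat.pow_pos (by omega)
  constructor
  · rintro ⟨c, rfl⟩
    refine ⟨⟨(k + 2) * c, by ring⟩, ?_⟩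
    rw [pow_succ, mul_assoc, Nat.mul_div_cancel_left _ hp]
    exact Nat.mul_mod_right _ _
  · rintro ⟨h1, h2⟩
    obtain ⟨c, hc⟩ := Nat.dvd_of_mod_eq_zero h2
    refine ⟨c, ?_⟩
    rw [pow_succ, mul_assoc, ← hc, Nat.mul_div_cancel' h1]

/-- the carry at digit `i` for an action on a counter with the value `v` -/
def car (k : ℕ) (o : Dir) (v i : ℕ) : Dir := match o with
  | Dir.S => Dir.S
  | Dir.R => if (k + 2) ^ i ∣ v + 1 then Dir.R else Dir.S
  | Dir.L => if (k + 2) ^ i ∣ v then Dir.L else Dir.S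

theorem car_zero (k : ℕ) (o : Dir) (v : ℕ) : car k o v 0 = o := by
  cases o <;> simp [car]

/-- the action on a digit -/
def upd {k : ℕ} (o : Dir) (d : Fin (k + 2)) : Fin (k + 2) × Dir := match o with
  | Dir.S => (d, Dir.S)
  | Dir.R => if h : (d : ℕ) = k + 1 then (0, Dir.R) else (⟨d + 1, by omega⟩, Dir.S)
  | Dir.L => if (d : ℕ) = 0 then (⟨k + 1, by omega⟩, Dir.L) else (⟨d - 1, by omega⟩, Dir.S)

theorem upd_spec {k n : ℕ} (o : Dir) (v : ℕ) (hv : o = Dir.L → 0 < v) (i : Fin n) :
    upd (car k o v i) (dig k n v i) = (dig k n (o.cmove v) i, car k o v (i + 1)) := by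
  cases o with
  | S => simp [car, upd, Dir.cmove]
  | R =>
    simp only [car, Dir.cmove]
    rw [Prod.ext_iff, Fin.ext_iff]
    simp only [dig]
    rw [digit_succ]
    simp only [dvd_succ_pow]
    by_cases h1 : (k + 2) ^ (i : ℕ) ∣ v + 1
    · simp only [h1, if_true, true_and, upd]
      by_cases h2 : v / (k + 2) ^ (i : ℕ) % (k + 2) = k + 1
      · simp [h2]
      · simp [h2]
    · simp only [h1, if_false, false_and, upd]
      simp
  | L =>
    obtain ⟨u, rfl⟩ : ∃ u, v = u + 1 := ⟨v - 1, by have := hv rfl; omega⟩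
    simp only [car, Dir.cmove, Nat.add_sub_cancel]
    rw [Prod.ext_iff, Fin.ext_iff]
    simp only [dig]
    simp only [dvd_succ_pow]
    by_cases h1 : (k + 2) ^ (i : ℕ) ∣ u + 1
    · have e1 : (u + 1) / (k + 2) ^ (i : ℕ) % (k + 2) =
          if u / (k + 2) ^ (i : ℕ) % (k + 2) = k + 1 then 0
          else u / (k + 2) ^ (i : ℕ) % (k + 2) + 1 := by rw [digit_succ, if_pos h1]
      simp only [h1, if_true, true_and, upd]
      by_cases h2 : u / (k + 2) ^ (i : ℕ) % (k + 2) = k + 1
      · simp only [e1, h2, if_true]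
        simp
      · simp only [e1, h2, if_false]
        simp
    · have e1 : (u + 1) / (k + 2) ^ (i : ℕ) % (k + 2) = u / (k + 2) ^ (i : ℕ) % (k + 2) := by
        rw [digit_succ, if_neg h1]
      simp only [h1, if_false, false_and, upd, e1, and_self]

/-- the effective action on a counter -/
def eff : Bool → Dir → Dir
  | true, Dir.L => Dir.S
  | _, o => o

theorem eff_cmove {z : Bool} {o : Dir} {v : ℕ} (hz : z = decide (v = 0)) :
    (eff z o).cmove v = o.cmove v ∧ (eff z o = Dir.L → 0 < v) ∧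
      (eff z o = Dir.R ↔ o = Dir.R) := by
  subst hz
  by_cases h : v = 0
  · subst h
    cases o <;> simp [eff, Dir.cmove]
  · have h1 : decide (v = 0) = false := by simp [h]
    rw [h1]
    cases o <;> simp [eff, Dir.cmove]
    omega

/-- moving the head -/
def mvv {n : ℕ} (d : Dir) (p : Fin (n + 2)) : Fin (n + 2) :=
  ⟨d.move n p, by have := p.2; cases d <;> simp only [Dir.move] <;> omega⟩

/-! ### The machine -/

section machine

variable {α B K J : Type} (k : ℕ)
  (stp : K → Sym α × B → (J → Prop) → Set (K × (B × Dir) × (J → Dir)))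

/-- the states -/
inductive SQ (K J : Type)
  | main : K → (J → Bool) → SQ K J
  | mk : K → (J → Dir) → SQ K J
  | gl : K → (J → Dir) → SQ K J
  | sw : K → (J → Dir) → (J → Bool) → SQ K J
  | gr : K → (J → Bool) → SQ K J

theorem finite_sq [Finite K] [Finite J] : Finite (SQ K J) := by
  let f : SQ K J → (K × (J → Bool)) ⊕ (K × (J → Dir)) ⊕ (K × (J → Dir)) ⊕
      (K × (J → Dir) × (J → Bool)) ⊕ (K × (J → Bool)) := fun q => match q with
    | .main q z => .inl (q, z)
    | .mk q o => .inr (.inl (q, o))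
    | .gl q o => .inr (.inr (.inl (q, o)))
    | .sw q c z => .inr (.inr (.inr (.inl (q, c, z))))
    | .gr q z => .inr (.inr (.inr (.inr (q, z))))
  refine Finite.of_injective f ?_
  intro a b h
  cases a <;> cases b <;> simp_all [f]

/-- the work alphabet -/
abbrev CB (B J : Type) (k : ℕ) : Type := B × Bool × (J → Fin (k + 2))

/-- the steps -/
def pS : SQ K J → Sym α → CB B J k → Set (SQ K J × CB B J k × Dir)
  | .main q z, s, y => {x | ∃ t ∈ stp q (s, y.1) (fun j => z j = true),
      x = (.mk t.1 (fun j => eff (z j) (t.2.2 j)), (t.2.1.1, y.2.1, y.2.2), t.2.1.2)}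
  | .mk q o, _, y => {(.gl q o, (y.1, true, y.2.2), Dir.S)}
  | .gl q o, s, y => {x | (s ≠ Sym.left ∧ x = (.gl q o, y, Dir.L)) ∨
      (s = Sym.left ∧ x = (.sw q o (fun _ => true), y, Dir.S))}
  | .sw q c z, s, y => {x |
      (s ≠ Sym.right ∧ x = (.sw q (fun j => (upd (c j) (y.2.2 j)).2)
        (fun j => z j && decide ((upd (c j) (y.2.2 j)).1 = 0)),
        (y.1, y.2.1, fun j => (upd (c j) (y.2.2 j)).1), Dir.R)) ∨
      (s = Sym.right ∧ (∀ j, (upd (c j) (y.2.2 j)).2 ≠ Dir.R) ∧
        x = (.gr q (fun j => z j && decide ((upd (c j) (y.2.2 j)).1 = 0)),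
        (y.1, y.2.1, fun j => (upd (c j) (y.2.2 j)).1), Dir.S))}
  | .gr q z, _, y => {x | (y.2.1 = false ∧ x = (.gr q z, y, Dir.L)) ∨
      (y.2.1 = true ∧ x = (.main q z, (y.1, false, y.2.2), Dir.S))}

/-- steps of machines without a store -/
def pstep {Q B : Type} (step : Q → Sym α → B → Set (Q × B × Dir)) (w : List α)
    (c c' : Q × Tape w.length B) : Prop :=
  ∃ t ∈ step c.1 (symAt w c.2.pos) (c.2.cell c.2.pos), c' = (t.1, c.2.act t.2.1 t.2.2)

variable {k stp}

theorem det_other {q : SQ K J} (hq : ∀ q' z, q ≠ .main q' z) (s : Sym α) (y : CB B J k) :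
    (pS k stp q s y).Subsingleton := by
  intro x hx x' hx'
  cases q with
  | main q z => exact absurd rfl (hq q z)
  | mk q o => rw [pS] at hx hx'; rw [hx, hx']
  | gl q o =>
    rcases hx with ⟨h1, rfl⟩ | ⟨h1, rfl⟩ <;> rcases hx' with ⟨h2, rfl⟩ | ⟨h2, rfl⟩
    · rfl
    · exact absurd h2 h1
    · exact absurd h1 h2
    · rfl
  | sw q c z =>
    rcases hx with ⟨h1, rfl⟩ | ⟨h1, _, rfl⟩ <;> rcases hx' with ⟨h2, rfl⟩ | ⟨h2, _, rfl⟩
    · rfl
    · exact absurd h2 h1
    · exact absurd h1 h2
    · rfl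
  | gr q z =>
    rcases hx with ⟨h1, rfl⟩ | ⟨h1, rfl⟩ <;> rcases hx' with ⟨h2, rfl⟩ | ⟨h2, rfl⟩
    · rfl
    · rw [h1] at h2; exact absurd h2 (by simp)
    · rw [h1] at h2; exact absurd h2 (by simp)
    · rfl

theorem det_pS (h : ∀ q a z, (stp q a z).Subsingleton) (q : SQ K J) (s : Sym α)
    (y : CB B J k) : (pS k stp q s y).Subsingleton := by
  cases q with
  | main q z =>
    rintro x ⟨t, ht, rfl⟩ x' ⟨t', ht', rfl⟩
    rw [h _ _ _ ht ht']
  | mk q o => exact det_other (by simp) s y
  | gl q o => exact det_other (by simp) s y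
  | sw q c z => exact det_other (by simp) s y
  | gr q z => exact det_other (by simp) s y

variable (acc : Set K)

/-- acceptance -/
def SF {n : ℕ} (x : SQ K J × Tape n (CB B J k)) : Prop := ∃ q ∈ acc, ∃ z, x.1 = .main q z

variable {acc}

theorem ds_of {w : List α} {x y : SQ K J × Tape w.length (CB B J k)}
    (hx : ∀ q' z, x.1 ≠ .main q' z) (h : pstep (pS k stp) w x y) :
    DS (pstep (pS k stp) w) (SF acc) x y := by
  refine ⟨?_, h, ?_⟩
  · rintro ⟨q, _, z, hz⟩
    exact hx _ _ hz
  · rintro z ⟨t', ht', rfl⟩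
    obtain ⟨t, ht, rfl⟩ := h
    rw [det_other hx _ _ ht' ht]

theorem act_self {n : ℕ} {B : Type} (p : Fin (n + 2)) (C : Fin (n + 2) → B) (d : Dir) :
    (⟨p, C⟩ : Tape n B).act (C p) d = ⟨mvv d p, C⟩ := by
  simp only [Tape.act, mvv, Function.update_eq_self]

theorem run_gl {w : List α} (q : K) (o : J → Dir) (C : Fin (w.length + 2) → CB B J k) :
    ∀ (p : ℕ) (hp : p < w.length + 2), DT (pstep (pS k stp) w) (SF acc)
      (SQ.gl q o, (⟨⟨p, hp⟩, C⟩ : Tape w.length (CB B J k)))
      (SQ.sw q o (fun _ => true), ⟨⟨0, by omega⟩, C⟩) := by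
  intro p
  induction p with
  | zero =>
    intro hp
    refine ReflTransGen.single (ds_of (by simp) ⟨(SQ.sw q o (fun _ => true), C ⟨0, hp⟩, Dir.S),
      Or.inr ⟨symAt_left.2 rfl, rfl⟩, ?_⟩)
    rw [act_self]
    rfl
  | succ p ih =>
    intro hp
    refine ReflTransGen.head (ds_of (by simp) ⟨(SQ.gl q o, C ⟨p + 1, hp⟩, Dir.L),
      Or.inl ⟨?_, rfl⟩, ?_⟩) (ih (by omega))
    · rw [Ne, symAt_left]; simp
    · rw [act_self]; rfl

theorem run_gr {w : List α} (q : K) (z : J → Bool) (T : Fin (w.length + 2) → B)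
    (G : Fin (w.length + 2) → J → Fin (k + 2)) (p0 : Fin (w.length + 2)) :
    ∀ (p : ℕ) (hp : p < w.length + 2), (p0 : ℕ) ≤ p → DT (pstep (pS k stp) w) (SF acc)
      (SQ.gr q z, (⟨⟨p, hp⟩, fun i => (T i, decide (i = p0), G i)⟩ : Tape w.length (CB B J k)))
      (SQ.main q z, ⟨p0, fun i => (T i, false, G i)⟩) := by
  intro p
  induction p with
  | zero =>
    intro hp h
    have hp0 : p0 = ⟨0, hp⟩ := Fin.ext (by simp only; omega)
    subst hp0
    refine ReflTransGen.single (ds_of (by simp) ⟨(SQ.main q z, (T ⟨0, hp⟩, false, G ⟨0, hp⟩),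
      Dir.S), Or.inr ⟨by simp, rfl⟩, ?_⟩)
    simp only [Tape.act, Dir.move, Prod.mk.injEq, true_and, Tape.mk.injEq]
    funext i
    by_cases hi : i = ⟨0, hp⟩
    · subst hi; simp
    · rw [Function.update_of_ne hi, decide_eq_false hi]
  | succ p ih =>
    intro hp h
    by_cases h0 : (p0 : ℕ) = p + 1
    · have hp0 : p0 = ⟨p + 1, hp⟩ := Fin.ext h0
      subst hp0
      refine ReflTransGen.single (ds_of (by simp) ⟨(SQ.main q z,
        (T ⟨p + 1, hp⟩, false, G ⟨p + 1, hp⟩), Dir.S), Or.inr ⟨by simp, rfl⟩, ?_⟩)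
      simp only [Tape.act, Dir.move, Prod.mk.injEq, true_and, Tape.mk.injEq]
      funext i
      by_cases hi : i = ⟨p + 1, hp⟩
      · subst hi; simp
      · rw [Function.update_of_ne hi]; simp [hi]
    · refine ReflTransGen.head (ds_of (by simp) ⟨(SQ.gr q z,
        (T ⟨p + 1, hp⟩, decide (⟨p + 1, hp⟩ = p0), G ⟨p + 1, hp⟩), Dir.L),
        Or.inl ⟨?_, rfl⟩, ?_⟩) (ih (by omega) (by omega))
      · simp only [decide_eq_false_iff_not]
        intro hc
        exact h0 (by rw [← hc])
      · have := act_self (⟨p + 1, hp⟩ : Fin (w.length + 2))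
          (fun i => ((T i, decide (i = p0), G i) : CB B J k)) Dir.L
        rw [this]
        rfl

/-- the contents of the tape during the sweep, before cell `i` is treated -/
def Gi (n : ℕ) (o : J → Dir) (v : J → ℕ) (i : ℕ) (i' : Fin (n + 2)) (j : J) : Fin (k + 2) :=
  if (i' : ℕ) < i then dig k (n + 2) ((o j).cmove (v j)) i' else dig k (n + 2) (v j) i'

/-- the flags during the sweep -/
def Zi (k : ℕ) (o : J → Dir) (v : J → ℕ) (i : ℕ) (j : J) : Bool :=
  decide ((k + 2) ^ i ∣ (o j).cmove (v j))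

/-- one cell of the sweep -/
theorem sweep_cell {w : List α} (o : J → Dir) (v : J → ℕ) (hv : ∀ j, o j = Dir.L → 0 < v j)
    (i : ℕ) (hi : i < w.length + 2) :
    (fun j => (upd (car k (o j) (v j) i) (Gi (k := k) w.length o v i ⟨i, hi⟩ j)).2) =
      (fun j => car k (o j) (v j) (i + 1)) ∧
    (fun j => (upd (car k (o j) (v j) i) (Gi (k := k) w.length o v i ⟨i, hi⟩ j)).1) =
      (fun j => Gi (k := k) w.length o v (i + 1) ⟨i, hi⟩ j) ∧
    (fun j => Zi k o v i j &&
      decide ((upd (car k (o j) (v j) i) (Gi (k := k) w.length o v i ⟨i, hi⟩ j)).1 = 0)) =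
      Zi k o v (i + 1) := by
  have e : ∀ j, upd (car k (o j) (v j) i) (Gi (k := k) w.length o v i ⟨i, hi⟩ j) =
      (dig k (w.length + 2) ((o j).cmove (v j)) ⟨i, hi⟩, car k (o j) (v j) (i + 1)) := by
    intro j
    simp only [Gi, lt_irrefl, if_false]
    exact upd_spec (o j) (v j) (hv j) (⟨i, hi⟩ : Fin (w.length + 2))
  refine ⟨?_, ?_, ?_⟩
  · funext j; rw [e]
  · funext j; rw [e]; simp [Gi]
  · funext j
    rw [e, Zi, Zi, Bool.eq_iff_iff]
    simp only [Bool.and_eq_true, decide_eq_true_eq]
    rw [dvd_pow_succ]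
    refine and_congr Iff.rfl ?_
    rw [Fin.ext_iff]
    rfl

theorem run_sw {w : List α} (q : K) (T : Fin (w.length + 2) → B)
    (M : Fin (w.length + 2) → Bool) (o : J → Dir) (v : J → ℕ)
    (hv : ∀ j, o j = Dir.L → 0 < v j) :
    ∀ (i : ℕ) (hi : i < w.length + 2), DT (pstep (pS k stp) w) (SF acc)
      (SQ.sw q o (fun _ => true), (⟨⟨0, by omega⟩, fun i' => (T i', M i',
        fun j => dig k (w.length + 2) (v j) i')⟩ : Tape w.length (CB B J k)))
      (SQ.sw q (fun j => car k (o j) (v j) i) (Zi k o v i),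
        ⟨⟨i, hi⟩, fun i' => (T i', M i', Gi w.length o v i i')⟩) := by
  intro i
  induction i with
  | zero =>
    intro hi
    have e1 : (fun j => car k (o j) (v j) 0) = o := funext fun j => car_zero k _ _
    have e2 : Zi k o v 0 = fun _ => true := by
      funext j; simp [Zi]
    have e3 : (fun i' : Fin (w.length + 2) => ((T i', M i', Gi w.length o v 0 i') : CB B J k)) =
        fun i' => (T i', M i', fun j => dig k (w.length + 2) (v j) i') := by
      funext i'
      refine Prod.ext rfl (Prod.ext rfl (funext fun j => ?_))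
      simp only [Gi, Nat.not_lt_zero, if_false]
    rw [e1, e2, e3]
    exact .refl
  | succ i ih =>
    intro hi
    refine ReflTransGen.tail (ih (by omega)) (ds_of (by simp) ?_)
    obtain ⟨c1, c2, c3⟩ := sweep_cell (k := k) (w := w) o v hv i (by omega)
    refine ⟨(SQ.sw q (fun j => car k (o j) (v j) (i + 1)) (Zi k o v (i + 1)),
      (T ⟨i, by omega⟩, M ⟨i, by omega⟩, fun j => Gi w.length o v (i + 1) ⟨i, by omega⟩ j), Dir.R),
      Or.inl ⟨?_, ?_⟩, ?_⟩
    · rw [Ne, symAt_right]
      change ¬ (w.length + 1 ≤ i)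
      omega
    · rw [← c1, ← c2, ← c3]
    · simp only [Tape.act, Dir.move, Prod.mk.injEq, true_and, Tape.mk.injEq]
      constructor
      · apply Fin.ext; simp only; omega
      · funext i'
        by_cases h : i' = ⟨i, by omega⟩
        · subst h; rw [Function.update_self]
        · rw [Function.update_of_ne h]
          have h7 : (i' : ℕ) ≠ i := fun h' => h (Fin.ext h')
          simp only [Prod.mk.injEq, true_and]
          funext j
          unfold Gi
          by_cases h8 : (i' : ℕ) < i
          · rw [if_pos h8, if_pos (by omega)]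
          · rw [if_neg h8, if_neg (by omega)]

/-- the encoded configuration -/
def cenc {n : ℕ} (x : K × Tape n B × (J → ℕ)) : SQ K J × Tape n (CB B J k) :=
  (.main x.1 (fun j => decide (x.2.2 j = 0)),
    ⟨x.2.1.pos, fun i => (x.2.1.cell i, false, fun j => dig k (n + 2) (x.2.2 j) i)⟩)

/-- after the first step -/
theorem run_mid {w : List α} (q : K) (T : Tape w.length B) (o : J → Dir) (v : J → ℕ)
    (hv : ∀ j, o j = Dir.L → 0 < v j) :
    DT (pstep (pS k stp) w) (SF acc)
      (SQ.mk q o, (⟨T.pos, fun i' => (T.cell i', false,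
        fun j => dig k (w.length + 2) (v j) i')⟩ : Tape w.length (CB B J k)))
      (SQ.sw q (fun j => car k (o j) (v j) (w.length + 1)) (Zi k o v (w.length + 1)),
        ⟨⟨w.length + 1, by omega⟩, fun i' => (T.cell i', decide (i' = T.pos),
          Gi w.length o v (w.length + 1) i')⟩) := by
  refine ReflTransGen.head (b := (SQ.gl q o, ⟨T.pos, fun i' => (T.cell i', decide (i' = T.pos),
    fun j => dig k (w.length + 2) (v j) i')⟩)) (ds_of (by simp) ⟨(SQ.gl q o,
      (T.cell T.pos, true, fun j => dig k (w.length + 2) (v j) T.pos), Dir.S), ?_, ?_⟩) ?_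
  · simp only [pS]; rfl
  · simp only [Tape.act, Dir.move, Prod.mk.injEq, true_and, Tape.mk.injEq]
    funext i
    by_cases hi : i = T.pos
    · subst hi; simp
    · rw [Function.update_of_ne hi]; simp [hi]
  · exact ReflTransGen.trans (run_gl (acc := acc) (stp := stp) q o _ T.pos T.pos.2)
      (run_sw (acc := acc) (stp := stp) q T.cell _ o v hv (w.length + 1) (by omega))

/-- the last cell of the sweep, without overflow -/
theorem run_end {w : List α} (q : K) (T : Tape w.length B) (o : J → Dir) (v : J → ℕ)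
    (hv : ∀ j, o j = Dir.L → 0 < v j) (hN : ∀ j, (o j).cmove (v j) < (k + 2) ^ (w.length + 2)) :
    DT (pstep (pS k stp) w) (SF acc)
      (SQ.sw q (fun j => car k (o j) (v j) (w.length + 1)) (Zi k o v (w.length + 1)),
        (⟨⟨w.length + 1, by omega⟩, fun i' => (T.cell i', decide (i' = T.pos),
          Gi w.length o v (w.length + 1) i')⟩ : Tape w.length (CB B J k)))
      (cenc (k := k) (q, T, fun j => (o j).cmove (v j))) := by
  obtain ⟨c1, c2, c3⟩ := sweep_cell (k := k) (w := w) o v hv (w.length + 1) (by omega)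
  have e1 : Zi k o v (w.length + 1 + 1) = fun j => decide ((o j).cmove (v j) = 0) := by
    funext j
    rw [Zi, decide_eq_decide]
    constructor
    · intro h
      by_contra h0
      have h7 := Nat.le_of_dvd (Nat.pos_of_ne_zero h0) h
      have h8 : (o j).cmove (v j) < (k + 2) ^ (w.length + 1 + 1) := hN j
      omega
    · intro h
      rw [h]
      exact Nat.dvd_zero _
  have e2 : ∀ i' : Fin (w.length + 2), Gi (k := k) w.length o v (w.length + 1 + 1) i' =
      fun j => dig k (w.length + 2) ((o j).cmove (v j)) i' := by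
    intro i'
    funext j
    unfold Gi
    rw [if_pos (by have := i'.2; omega)]
  have hR : ∀ j, car k (o j) (v j) (w.length + 1 + 1) ≠ Dir.R := by
    intro j
    cases ho : o j with
    | S => simp [car]
    | L => simp only [car]; split_ifs <;> simp
    | R =>
      have h1 := hN j
      rw [ho] at h1
      simp only [Dir.cmove] at h1
      simp only [car]
      rw [if_neg]
      · simp
      · intro h
        have := Nat.le_of_dvd (Nat.succ_pos _) h
        have e : w.length + 1 + 1 = w.length + 2 := rfl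
        rw [e] at this
        omega
  refine ReflTransGen.head (b := (SQ.gr q (fun j => decide ((o j).cmove (v j) = 0)),
    ⟨⟨w.length + 1, by omega⟩, fun i' => (T.cell i', decide (i' = T.pos),
      fun j => dig k (w.length + 2) ((o j).cmove (v j)) i')⟩)) (ds_of (by simp)
    ⟨(SQ.gr q (fun j => decide ((o j).cmove (v j) = 0)),
      (T.cell ⟨w.length + 1, by omega⟩, decide (⟨w.length + 1, by omega⟩ = T.pos),
      fun j => Gi w.length o v (w.length + 1 + 1) ⟨w.length + 1, by omega⟩ j), Dir.S),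
      Or.inr ⟨symAt_right.2 le_rfl, ?_, ?_⟩, ?_⟩) ?_
  · intro j
    have := congrFun c1 j
    simp only at this ⊢
    rw [this]
    exact hR j
  · rw [← c2, ← e1, ← c3]
  · simp only [Tape.act, Dir.move, Prod.mk.injEq, true_and, Tape.mk.injEq]
    funext i'
    by_cases h : i' = ⟨w.length + 1, by omega⟩
    · subst h; rw [Function.update_self, e2]
    · rw [Function.update_of_ne h]
      simp only [Prod.mk.injEq, true_and]
      rw [← e2]
      have h7 : (i' : ℕ) ≠ w.length + 1 := fun h' => h (Fin.ext h')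
      funext j
      unfold Gi
      by_cases h8 : (i' : ℕ) < w.length + 1
      · rw [if_pos h8, if_pos (by omega)]
      · have := i'.2
        omega
  · exact run_gr (acc := acc) (stp := stp) q _ T.cell _ T.pos (w.length + 1) (by omega)
      (by have := T.pos.2; omega)

/-- the last cell of the sweep, with overflow -/
theorem stuck_end {w : List α} (q : K) (T : Tape w.length B) (o : J → Dir) (v : J → ℕ)
    (hv : ∀ j, o j = Dir.L → 0 < v j) {j : J} (hj : o j = Dir.R)
    (hN : v j + 1 = (k + 2) ^ (w.length + 2)) {m : ℕ}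
    (h : AccN (pstep (pS k stp) w) (SF acc) m
      (SQ.sw q (fun j => car k (o j) (v j) (w.length + 1)) (Zi k o v (w.length + 1)),
        (⟨⟨w.length + 1, by omega⟩, fun i' => (T.cell i', decide (i' = T.pos),
          Gi w.length o v (w.length + 1) i')⟩ : Tape w.length (CB B J k)))) : False := by
  obtain ⟨c1, _, _⟩ := sweep_cell (k := k) (w := w) o v hv (w.length + 1) (by omega)
  have key : ∀ y, ¬ pstep (pS k stp) w
      (SQ.sw q (fun j => car k (o j) (v j) (w.length + 1)) (Zi k o v (w.length + 1)),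
        (⟨⟨w.length + 1, by omega⟩, fun i' => (T.cell i', decide (i' = T.pos),
          Gi w.length o v (w.length + 1) i')⟩ : Tape w.length (CB B J k))) y := by
    rintro y ⟨t, ⟨h1, _⟩ | ⟨_, h1, _⟩, _⟩
    · exact h1 (symAt_right.2 le_rfl)
    · have h2 := congrFun c1 j
      have h3 := h1 j
      simp only at h2 h3
      apply h3
      rw [h2, hj]
      simp only [car]
      rw [if_pos]
      rw [hN]
  cases m with
  | zero =>
    obtain ⟨q', _, z, hz⟩ := h
    simp at hz
  | succ m =>
    rcases h with ⟨q', _, z, hz⟩ | ⟨y, hy, _⟩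
    · simp at hz
    · exact key y hy

end machine

section main

variable {α B K J : Type} {k : ℕ}
  {stp : K → Sym α × B → (J → Prop) → Set (K × (B × Dir) × (J → Dir))} {acc : Set K}

/-- the observation -/
def ob {B : Type} (w : List α) (T : Tape w.length B) : Sym α × B := (symAt w T.pos, T.cell T.pos)

/-- the action -/
def ac {n : ℕ} {B : Type} (a : B × Dir) (T : Tape n B) : Tape n B := T.act a.1 a.2

theorem first_step {w : List α} {x : K × Tape w.length B × (J → ℕ)}
    {t : K × (B × Dir) × (J → Dir)} :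
    (⟨x.2.1.pos, fun i => ((x.2.1.cell i, false, fun j => dig k (w.length + 2) (x.2.2 j) i) :
      CB B J k)⟩ : Tape w.length (CB B J k)).act (t.2.1.1, false,
        fun j => dig k (w.length + 2) (x.2.2 j) x.2.1.pos) t.2.1.2 =
      ⟨(ac t.2.1 x.2.1).pos, fun i' => ((ac t.2.1 x.2.1).cell i', false,
        fun j => dig k (w.length + 2) (x.2.2 j) i')⟩ := by
  simp only [Tape.act, ac, Tape.mk.injEq, true_and]
  funext i
  by_cases hi : i = x.2.1.pos
  · subst hi; simp
  · rw [Function.update_of_ne hi, Function.update_of_ne hi]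

theorem flags_eq (v : J → ℕ) : (fun j => decide (v j = 0) = true) = fun j => v j = 0 := by
  funext j
  simp

theorem cmove_lt {o : Dir} {v N : ℕ} (hv : v < N) (h : o = Dir.R → v + 1 < N) :
    o.cmove v < N := by
  cases o with
  | L => simp only [Dir.cmove]; omega
  | S => exact hv
  | R => exact h rfl

/-- The simulation. -/
theorem acc_iff {w : List α} : ∀ (m : ℕ) (x : K × Tape w.length B × (J → ℕ)),
    (∀ j, x.2.2 j < (k + 2) ^ (w.length + 2)) →
    AccN (pstep (pS k stp) w) (SF acc) m (cenc (k := k) x) →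
    ∃ y, ReflTransGen (cstep (ob w) ac stp ((k + 2) ^ (w.length + 2))) x y ∧ y.1 ∈ acc := by
  intro m
  induction m using Nat.strong_induction_on with
  | _ m ih =>
    intro x hx h
    by_cases hF : x.1 ∈ acc
    · exact ⟨x, .refl, hF⟩
    · have hF' : ¬ SF acc (cenc (k := k) x) := by
        rintro ⟨q, hq, z, hz⟩
        simp only [cenc, SQ.main.injEq] at hz
        exact hF (hz.1 ▸ hq)
      cases m with
      | zero => exact absurd h hF'
      | succ m =>
        rcases h with h | ⟨y, hy, h⟩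
        · exact absurd h hF'
        · obtain ⟨t', ⟨t, ht, rfl⟩, rfl⟩ := hy
          simp only [cenc] at ht h
          rw [flags_eq] at ht
          have e1 := first_step (k := k) (w := w) (x := x) (t := t)
          rw [e1] at h
          have he := fun j => eff_cmove (z := decide (x.2.2 j = 0)) (o := t.2.2 j) (v := x.2.2 j) rfl
          have hv : ∀ j, (fun j => eff (decide (x.2.2 j = 0)) (t.2.2 j)) j = Dir.L →
              0 < x.2.2 j := fun j => (he j).2.1
          obtain ⟨m1, hm1, h1⟩ := (run_mid (acc := acc) (stp := stp) t.1 (ac t.2.1 x.2.1)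
            (fun j => eff (decide (x.2.2 j = 0)) (t.2.2 j)) x.2.2 hv).accN h
          by_cases hR : ∀ j, t.2.2 j = Dir.R → x.2.2 j + 1 < (k + 2) ^ (w.length + 2)
          · have hN : ∀ j, ((fun j => eff (decide (x.2.2 j = 0)) (t.2.2 j)) j).cmove (x.2.2 j) <
                (k + 2) ^ (w.length + 2) := by
              intro j
              simp only
              rw [(he j).1]
              exact cmove_lt (hx j) (hR j)
            obtain ⟨m2, hm2, h2⟩ := (run_end (acc := acc) (stp := stp) t.1 (ac t.2.1 x.2.1)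
              (fun j => eff (decide (x.2.2 j = 0)) (t.2.2 j)) x.2.2 hv hN).accN h1
            obtain ⟨y, h3, h4⟩ := ih m2 (by omega) _ hN h2
            refine ⟨y, ReflTransGen.head ⟨t, ht, hR, ?_⟩ h3, h4⟩
            simp only [Prod.mk.injEq, true_and]
            funext j
            exact (he j).1
          · push Not at hR
            obtain ⟨j, hj, hlt⟩ := hR
            refine (stuck_end (acc := acc) (stp := stp) t.1 (ac t.2.1 x.2.1)
              (fun j => eff (decide (x.2.2 j = 0)) (t.2.2 j)) x.2.2 hv (j := j)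
              ((he j).2.2.2 hj) ?_ h1).elim
            have := hx j
            omega

theorem acc_iff' {w : List α} {x y : K × Tape w.length B × (J → ℕ)}
    (h : ReflTransGen (cstep (ob w) ac stp ((k + 2) ^ (w.length + 2))) x y)
    (hx : ∀ j, x.2.2 j < (k + 2) ^ (w.length + 2)) :
    (∀ j, y.2.2 j < (k + 2) ^ (w.length + 2)) ∧
    ReflTransGen (pstep (pS k stp) w) (cenc (k := k) x) (cenc (k := k) y) := by
  induction h with
  | refl => exact ⟨hx, .refl⟩
  | @tail y z _ hs ih =>
    obtain ⟨h1, h2⟩ := ih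
    obtain ⟨t, ht, hR, rfl⟩ := hs
    have he := fun j => eff_cmove (z := decide (y.2.2 j = 0)) (o := t.2.2 j) (v := y.2.2 j) rfl
    have hv : ∀ j, (fun j => eff (decide (y.2.2 j = 0)) (t.2.2 j)) j = Dir.L →
        0 < y.2.2 j := fun j => (he j).2.1
    have hN : ∀ j, ((fun j => eff (decide (y.2.2 j = 0)) (t.2.2 j)) j).cmove (y.2.2 j) <
        (k + 2) ^ (w.length + 2) := by
      intro j
      simp only
      rw [(he j).1]
      exact cmove_lt (h1 j) (hR j)
    refine ⟨fun j => cmove_lt (h1 j) (hR j), h2.trans ?_⟩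
    have f1 : pstep (pS k stp) w (cenc (k := k) y) (SQ.mk t.1
        (fun j => eff (decide (y.2.2 j = 0)) (t.2.2 j)), ⟨(ac t.2.1 y.2.1).pos,
          fun i' => ((ac t.2.1 y.2.1).cell i', false,
            fun j => dig k (w.length + 2) (y.2.2 j) i')⟩) := by
      refine ⟨(SQ.mk t.1 (fun j => eff (decide (y.2.2 j = 0)) (t.2.2 j)),
        (t.2.1.1, false, fun j => dig k (w.length + 2) (y.2.2 j) y.2.1.pos), t.2.1.2),
        ⟨t, ?_, rfl⟩, ?_⟩
      · simp only [cenc]
        rw [flags_eq]
        exact ht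
      · rw [← first_step]
        rfl
    have f2 := (run_mid (k := k) (acc := (∅ : Set K)) (stp := stp) t.1 (ac t.2.1 y.2.1)
      (fun j => eff (decide (y.2.2 j = 0)) (t.2.2 j)) y.2.2 hv).reach
    have f3 := (run_end (k := k) (acc := (∅ : Set K)) (stp := stp) t.1 (ac t.2.1 y.2.1)
      (fun j => eff (decide (y.2.2 j = 0)) (t.2.2 j)) y.2.2 hv hN).reach
    have f4 : (fun j => ((fun j => eff (decide (y.2.2 j = 0)) (t.2.2 j)) j).cmove (y.2.2 j)) =
        fun j => (t.2.2 j).cmove (y.2.2 j) := funext fun j => (he j).1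
    rw [f4] at f3
    exact (ReflTransGen.head f1 f2).trans f3

/-- the linear space machine without a store -/
def cntLP [Finite J] (k : ℕ) (hK : Finite K) (hB : Finite B) (blank : B) (init : K)
    (acc : Set K) (stp : K → Sym α × B → (J → Prop) → Set (K × (B × Dir) × (J → Dir))) :
    LP α Empty where
  Q := SQ K J
  finQ := finite_sq
  B := CB B J k
  finB := inferInstance
  blank := (blank, false, fun _ => 0)
  init := .main init (fun _ => true)
  acc := {q | ∃ q' ∈ acc, ∃ z, q = .main q' z}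
  step q s b _ := {t | (t.1, t.2.1, t.2.2.1) ∈ pS k stp q s b ∧ t.2.2.2 = Op.keep}

theorem det_cntLP [Finite J] {hK : Finite K} {hB : Finite B} {blank : B} {init : K}
    (h : ∀ q a z, (stp q a z).Subsingleton) :
    (cntLP k hK hB blank init acc stp).Det := by
  rintro q s b g ⟨x1, x2, x3, x4⟩ ⟨h1, h2⟩ ⟨y1, y2, y3, y4⟩ ⟨h3, h4⟩
  have := det_pS h q s b h1 h3
  simp only [Prod.mk.injEq] at this
  simp only at h2 h4
  obtain ⟨rfl, rfl, rfl⟩ := this
  rw [h2, h4]

theorem lang_cntLP [Finite J] {hK : Finite K} {hB : Finite B} {blank : B} {init : K}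
    (w : List α) : w ∈ (cntLP k hK hB blank init acc stp).lang ↔
      ∃ y, ReflTransGen (cstep (ob w) ac stp ((k + 2) ^ (w.length + 2)))
        (init, (⟨⟨0, by omega⟩, fun _ => blank⟩ : Tape w.length B), fun _ => 0) y ∧ y.1 ∈ acc := by
  have h0 : (cenc (k := k) (init, (⟨⟨0, by omega⟩, fun _ => blank⟩ : Tape w.length B),
      fun _ : J => 0)) = (SQ.main init (fun _ => true),
        ⟨⟨0, by omega⟩, fun _ => (blank, false, fun _ => 0)⟩) := by
    simp only [cenc, decide_true, dig_zero]
  constructor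
  · rintro ⟨c, hc, hacc⟩
    have key : ∀ c, (cntLP k hK hB blank init acc stp).Reach w c →
        ReflTransGen (pstep (pS k stp) w) (cenc (k := k) (init,
          (⟨⟨0, by omega⟩, fun _ => blank⟩ : Tape w.length B), fun _ : J => 0)) (c.q, c.tape) := by
      intro c hc
      induction hc with
      | refl => rw [h0]; exact .refl
      | tail _ hs ih =>
        obtain ⟨t, ⟨ht, _⟩, rfl⟩ := hs
        exact ih.tail ⟨_, ht, rfl⟩
    obtain ⟨n, hn⟩ := accN_of_reach (F := SF acc) (key c hc) hacc
    exact acc_iff n _ (fun j => Nat.pow_pos (by omega)) hn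
  · rintro ⟨y, hy, hacc⟩
    have h1 := (acc_iff' hy (fun j => Nat.pow_pos (by omega))).2
    rw [h0] at h1
    have key : ∀ c, ReflTransGen (pstep (pS k stp) w) ((SQ.main init (fun _ => true),
        ⟨⟨0, by omega⟩, fun _ => (blank, false, fun _ => 0)⟩) :
          SQ K J × Tape w.length (CB B J k)) c →
        (cntLP k hK hB blank init acc stp).Reach w ⟨c.1, c.2, []⟩ := by
      intro c hc
      induction hc with
      | refl => exact .refl
      | tail _ hs ih =>
        obtain ⟨t, ht, rfl⟩ := hs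
        exact ih.tail ⟨(t.1, t.2.1, t.2.2, Op.keep), ⟨ht, rfl⟩, rfl⟩
    exact ⟨_, key _ h1, y.1, hacc, _, rfl⟩

end main

end Pool.Agent.V8H47.LB
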