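import Pool.Agent.V8H47.MH.Defs
import Pool.Agent.V8H47.NLK.RatDefs

/-!
# Nondeterministic linear space machines with output

The input word `w` of length `n` is written between two endmarkers, at the positions `1, …, n`;
the endmarkers are at the positions `0` and `n + 1`. Each of these `n + 2` cells also carries a
letter of a finite work alphabet, which the machine can rewrite. A step depends on the state, the
symbol of the input and the letter of the work alphabet at the position of the head; the letter is
rewritten, the head moves by at most one cell (it stays where it is if it is told to leave the
tape), and at most one letter of an output alphabet is emitted.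
-/

namespace Pool.Agent.V8H47.LB

open Pool.Agent.V8H47.MH

/-- A nondeterministic linear space machine with input alphabet `α` and output alphabet `X`. -/
structure LT (α X : Type) where
  /-- the states -/
  Q : Type
  finQ : Finite Q
  /-- the work alphabet -/
  B : Type
  finB : Finite B
  /-- the letter written in all the cells at the beginning -/
  blank : B
  /-- the initial state -/
  init : Q
  /-- the accepting states -/
  acc : Set Q
  /-- the possible actions -/
  step : Q → Sym α → B → Set (Q × B × Dir × Option X)

/-- The configurations: state, position of the head, content of the cells, output so far. -/
@[ext] structure LCfg (Q B X : Type) where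
  q : Q
  pos : ℕ
  tp : ℕ → B
  out : List X

namespace LT

variable {α X : Type} (M : LT α X)

/-- One step of the machine on the input word `w`. -/
def Step (w : List α) (c c' : LCfg M.Q M.B X) : Prop :=
  ∃ t ∈ M.step c.q (symAt w c.pos) (c.tp c.pos),
    c' = ⟨t.1, t.2.2.1.move w.length c.pos, Function.update c.tp c.pos t.2.1,
      c.out ++ t.2.2.2.toList⟩

/-- The initial configuration. -/
def start : LCfg M.Q M.B X := ⟨M.init, 0, fun _ => M.blank, []⟩

/-- `v` is the output of some accepting computation on the input word `w`. -/
def Out (w : List α) (v : List X) : Prop :=
  ∃ c, Relation.ReflTransGen (M.Step w) M.start c ∧ c.q ∈ M.acc ∧ c.out = v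

end LT

/-- The languages `{w | some output on w belongs to D}`, for linear space machines. -/
def linPre {X : Type} (D : Language X) (α : Type) : Set (Language α) :=
  {L | ∃ M : LT α X, L = {w | ∃ v ∈ D, M.Out w v}}

/-- The languages of nondeterministic linear space machines without output, that is
`NSPACE(n)`. -/
def nspace (α : Type) : Set (Language α) := {L | ∃ M : LT α Empty, L = {w | ∃ v, M.Out w v}}

/-- The languages of nondeterministic linear space machines with an auxiliary pushdown store: the
machines emit brackets, which describe the pushes and pops on the store, and it is required
that these form a sequence of operations which leads from the empty store to the empty store. -/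
def auxPDA (α : Type) : Set (Language α) :=
  {L | ∃ (S : Type) (_ : Finite S) (_ : DecidableEq S), L ∈ linPre (NLK.dyck S) α}

end Pool.Agent.V8H47.LB
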