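import Pool.Agent.V8H47.LB.Defs

/-!
# Relations between tape contents which are computed by flowcharts of sweeps
-/

namespace Pool.Agent.V8H47.LB

open Relation Pool.Agent.V8H47.MH

/-- the contents of the tape, over the alphabet `X` -/
abbrev Tp {α : Type} (w : List α) (X : Type) := Fin (w.length + 2) → X

/-- a relation between tape contents, for each input word -/
abbrev Rel (α X : Type) := ∀ w : List α, Tp w X → Tp w X → Prop

variable {α X : Type}

/-- the previous cell -/
def pv {n : ℕ} (i : Fin (n + 2)) : Fin (n + 2) := ⟨i - 1, by omega⟩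

/-- a condition on adjacent cells -/
def Loc (E : Sym α → X × X → X × X → Prop) : Rel α X := fun w x x' =>
  ∀ i : Fin (w.length + 2), E (symAt w i) (x (pv i), x' (pv i)) (x i, x' i)

/-- the steps along the edges of a graph -/
def TStep {T : Type} (ρ : T → T → Rel α X) (w : List α) (c c' : T × Tp w X) : Prop :=
  ρ c.1 c'.1 w c.2 c'.2

/-- the relations computed by flowcharts of sweeps -/
inductive Impl : Rel α X → Prop
  | loc (E : Sym α → X × X → X × X → Prop) : Impl (Loc E)
  | auto {T : Type} [Finite T] (i f : T) (ρ : T → T → Rel α X) (h : ∀ t t', Impl (ρ t t')) :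
      Impl (fun w p p' => ReflTransGen (TStep ρ w) (i, p) (f, p'))

theorem Impl.congr {r r' : Rel α X} (h : Impl r) (he : ∀ w p p', r w p p' ↔ r' w p p') :
    Impl r' := by
  have : r = r' := by
    funext w p p'
    exact propext (he w p p')
  rwa [← this]

/-- letter by letter -/
theorem Impl.letter (E : Sym α → X → X → Prop) :
    Impl (fun w p p' => ∀ i : Fin (w.length + 2), E (symAt w i) (p i) (p' i)) :=
  Impl.loc (fun s _ x => E s x.1 x.2)

theorem Impl.empty : Impl (fun (w : List α) (_ _ : Tp w X) => False) := by
  refine (Impl.loc (fun _ _ _ => False)).congr (fun w p p' => ?_)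
  exact ⟨fun h => h ⟨0, by omega⟩, fun h => h.elim⟩

theorem Impl.id : Impl (fun (w : List α) (p p' : Tp w X) => p' = p) := by
  refine (Impl.letter (fun _ x x' => x' = x)).congr (fun w p p' => ?_)
  exact ⟨fun h => funext h, fun h i => congrFun h i⟩

/-- composition -/
theorem Impl.seq {r s : Rel α X} (hr : Impl r) (hs : Impl s) :
    Impl (fun w p p' => ∃ q, r w p q ∧ s w q p') := by
  let ρ : Fin 3 → Fin 3 → Rel α X := fun a b =>
    if a = 0 ∧ b = 1 then r else if a = 1 ∧ b = 2 then s else fun _ _ _ => False
  have hρ : ∀ a b, Impl (ρ a b) := by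
    intro a b
    simp only [ρ]
    split_ifs
    · exact hr
    · exact hs
    · exact Impl.empty
  refine (Impl.auto 0 2 ρ hρ).congr (fun w p p' => ?_)
  constructor
  · intro h
    have key : ∀ c, ReflTransGen (TStep ρ w) (0, p) c →
        (c = (0, p)) ∨ (c.1 = 1 ∧ r w p c.2) ∨ (c.1 = 2 ∧ ∃ q, r w p q ∧ s w q c.2) := by
      intro c hc
      induction hc with
      | refl => exact Or.inl rfl
      | @tail c c' _ hs ih =>
        obtain ⟨t', q'⟩ := c'
        rcases ih with rfl | ⟨h1, h2⟩ | ⟨h1, h2⟩
        · fin_cases t' <;> simp [TStep, ρ] at hs ⊢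
          exact hs
        · obtain ⟨t, q⟩ := c
          simp only at h1 h2
          subst h1
          fin_cases t' <;> simp [TStep, ρ] at hs ⊢
          exact ⟨q, h2, hs⟩
        · obtain ⟨t, q⟩ := c
          simp only at h1 h2
          subst h1
          fin_cases t' <;> simp [TStep, ρ] at hs ⊢
    rcases key _ h with h1 | ⟨h1, _⟩ | ⟨_, h1⟩
    · have := congrArg Prod.fst h1
      simp at this
    · simp at h1
    · exact h1
  · rintro ⟨q, h1, h2⟩
    have e1 : TStep ρ w (0, p) (1, q) := by simpa [TStep, ρ] using h1
    have e2 : TStep ρ w (1, q) (2, p') := by simpa [TStep, ρ] using h2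
    exact (ReflTransGen.single e1).tail e2

/-- finite union -/
theorem Impl.iUnion {ι : Type} [Finite ι] {r : ι → Rel α X} (hr : ∀ i, Impl (r i)) :
    Impl (fun w p p' => ∃ i, r i w p p') := by
  let ρ : Option (Option ι) → Option (Option ι) → Rel α X := fun a b =>
    match a, b with
    | none, some (some i) => r i
    | some (some _), some none => fun _ p p' => p' = p
    | _, _ => fun _ _ _ => False
  have hρ : ∀ a b, Impl (ρ a b) := by
    intro a b
    rcases a with _ | _ | a <;> rcases b with _ | _ | b <;> simp only [ρ] <;>
      first | exact Impl.empty | exact Impl.id | exact hr _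
  refine (Impl.auto none (some none) ρ hρ).congr (fun w p p' => ?_)
  constructor
  · intro h
    have key : ∀ c, ReflTransGen (TStep ρ w) (none, p) c →
        (c = (none, p)) ∨ (∃ i, c.1 = some (some i) ∧ r i w p c.2) ∨
          (c.1 = some none ∧ ∃ i, r i w p c.2) := by
      intro c hc
      induction hc with
      | refl => exact Or.inl rfl
      | @tail c c' _ hs ih =>
        obtain ⟨t', q'⟩ := c'
        rcases ih with rfl | ⟨i, h1, h2⟩ | ⟨h1, h2⟩
        · rcases t' with _ | _ | t' <;> simp only [TStep, ρ] at hs
          exact Or.inr (Or.inl ⟨t', rfl, hs⟩)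
        · obtain ⟨t, q⟩ := c
          simp only at h1 h2
          subst h1
          rcases t' with _ | _ | t' <;> simp only [TStep, ρ] at hs
          subst hs
          exact Or.inr (Or.inr ⟨rfl, i, h2⟩)
        · obtain ⟨t, q⟩ := c
          simp only at h1 h2
          subst h1
          rcases t' with _ | _ | t' <;> simp only [TStep, ρ] at hs
    rcases key _ h with h1 | ⟨i, h1, _⟩ | ⟨_, h1⟩
    · exact absurd (congrArg Prod.fst h1) (by simp)
    · exact absurd h1 (by simp)
    · exact h1
  · rintro ⟨i, h⟩
    have e1 : TStep ρ w (none, p) (some (some i), p') := h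
    have e2 : TStep ρ w (some (some i), p') (some none, p') := rfl
    exact (ReflTransGen.single e1).tail e2

/-! ### Working on a part of the tape alphabet -/

/-- a component `A` of an alphabet `B` -/
structure Lens (B A : Type) where
  get : B → A
  put : A → B → B
  get_put : ∀ a b, get (put a b) = a
  put_get : ∀ b, put (get b) b = b
  put_put : ∀ a a' b, put a' (put a b) = put a' b

/-- a relation applied to a component -/
def Lens.lift {A B : Type} (l : Lens B A) (r : Rel α A) : Rel α B := fun w b b' =>
  r w (fun i => l.get (b i)) (fun i => l.get (b' i)) ∧ ∀ i, b' i = l.put (l.get (b' i)) (b i)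

theorem Impl.lift {A B : Type} (l : Lens B A) {r : Rel α A} (hr : Impl r) :
    Impl (l.lift r) := by
  induction hr with
  | loc E =>
    refine (Impl.loc (fun s x y => E s (l.get x.1, l.get x.2) (l.get y.1, l.get y.2) ∧
      y.2 = l.put (l.get y.2) y.1)).congr (fun w b b' => ?_)
    unfold Lens.lift Loc
    exact forall_and
  | @auto T _ i f ρ _ ih =>
    refine (Impl.auto i f (fun t t' => l.lift (ρ t t')) ih).congr (fun w b b' => ?_)
    constructor
    · intro h
      have key : ∀ c, ReflTransGen (TStep (fun t t' => l.lift (ρ t t')) w) (i, b) c →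
          ReflTransGen (TStep ρ w) (i, fun i => l.get (b i)) (c.1, fun i => l.get (c.2 i)) ∧
            ∀ i, c.2 i = l.put (l.get (c.2 i)) (b i) := by
        intro c hc
        induction hc with
        | refl => exact ⟨.refl, fun i => (l.put_get _).symm⟩
        | @tail c c' _ hs ih =>
          refine ⟨ih.1.tail hs.1, fun i => ?_⟩
          have h1 := hs.2 i
          have h2 := ih.2 i
          rw [h2, l.put_put] at h1
          exact h1
      exact key _ h
    · rintro ⟨h1, h2⟩
      have key : ∀ c, ReflTransGen (TStep ρ w) (i, fun i => l.get (b i)) c →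
          ReflTransGen (TStep (fun t t' => l.lift (ρ t t')) w) (i, b)
            (c.1, fun i => l.put (c.2 i) (b i)) := by
        intro c hc
        induction hc with
        | refl =>
          simp only [l.put_get]
          exact .refl
        | @tail c c' _ hs ih =>
          refine ih.tail ⟨?_, fun i => ?_⟩
          · simp only [l.get_put]
            exact hs
          · simp only [l.get_put, l.put_put]
      have h3 := key _ h1
      have h4 : (fun i => l.put ((fun i => l.get (b' i)) i) (b i)) = b' := by
        funext i
        exact (h2 i).symm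
      simp only at h3
      rw [h4] at h3
      exact h3

end Pool.Agent.V8H47.LB
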