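import Pool.Agent.V8H47.LB.Impl

/-!
# Properties of tape contents which are verified in linear space

`IsLS P` says that the property `P` of words over `X` (of the length of the tape) is verified by
a flowchart of sweeps, which uses a further track and does not change the given word. These
properties are closed under conjunction, finite disjunction, existential quantification over
tracks and transitive closure.
-/

namespace Pool.Agent.V8H47.LB

open Relation Pool.Agent.V8H47.MH

variable {α X X' Z : Type}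

/-- properties verified in linear space -/
def IsLS (P : ∀ w : List α, Tp w X → Prop) : Prop :=
  ∃ (Y : Type) (_ : Finite Y) (_ : Nonempty Y) (r : Rel α (X × Y)), Impl r ∧
    (∀ w z z', r w z z' → (∀ i, (z' i).1 = (z i).1) ∧ P w (fun i => (z i).1)) ∧
    (∀ w z, P w (fun i => (z i).1) → ∃ z', r w z z')

theorem IsLS.congr {P P' : ∀ w : List α, Tp w X → Prop} (h : IsLS P)
    (he : ∀ w x, P w x ↔ P' w x) : IsLS P' := by
  have : P = P' := by
    funext w x
    exact propext (he w x)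
  rwa [← this]

/-- conditions on adjacent cells -/
theorem IsLS.loc (E : Sym α → X → X → Prop) :
    IsLS (fun (w : List α) (x : Tp w X) =>
      ∀ i : Fin (w.length + 2), E (symAt w i) (x (pv i)) (x i)) := by
  refine ⟨Unit, inferInstance, inferInstance, _,
    Impl.loc (fun s x y => E s x.1.1 y.1.1 ∧ y.2.1 = y.1.1), ?_, ?_⟩
  · intro w z z' h
    exact ⟨fun i => (h i).2, fun i => (h i).1⟩
  · intro w z h
    exact ⟨z, fun i => ⟨h i, rfl⟩⟩

/-- letter by letter -/
theorem IsLS.letter (E : Sym α → X → Prop) :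
    IsLS (fun (w : List α) (x : Tp w X) => ∀ i : Fin (w.length + 2), E (symAt w i) (x i)) :=
  IsLS.loc (fun s _ y => E s y)

theorem IsLS.const (c : Prop) : IsLS (fun (w : List α) (_ : Tp w X) => c) := by
  refine (IsLS.letter (fun _ _ => c)).congr (fun w x => ?_)
  exact ⟨fun h => h ⟨0, by omega⟩, fun h _ => h⟩

/-- the first of two scratch tracks -/
def lensL (X Y1 Y2 : Type) : Lens (X × (Y1 × Y2)) (X × Y1) where
  get b := (b.1, b.2.1)
  put a b := (a.1, (a.2, b.2.2))
  get_put _ _ := rfl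
  put_get _ := rfl
  put_put _ _ _ := rfl

/-- the second of two scratch tracks -/
def lensR (X Y1 Y2 : Type) : Lens (X × (Y1 × Y2)) (X × Y2) where
  get b := (b.1, b.2.2)
  put a b := (a.1, (b.2.1, a.2))
  get_put _ _ := rfl
  put_get _ := rfl
  put_put _ _ _ := rfl

theorem IsLS.and {P Q : ∀ w : List α, Tp w X → Prop} (hP : IsLS P) (hQ : IsLS Q) :
    IsLS (fun w x => P w x ∧ Q w x) := by
  obtain ⟨Y1, _, _, r, hr, a1, a2⟩ := hP
  obtain ⟨Y2, _, _, s, hs, b1, b2⟩ := hQ
  refine ⟨Y1 × Y2, inferInstance, inferInstance, _,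
    (hr.lift (lensL X Y1 Y2)).seq (hs.lift (lensR X Y1 Y2)), ?_, ?_⟩
  · rintro w z z' ⟨y, ⟨h1, h2⟩, ⟨h3, h4⟩⟩
    obtain ⟨c1, c2⟩ := a1 w _ _ h1
    obtain ⟨d1, d2⟩ := b1 w _ _ h3
    simp only [lensL, lensR] at c1 c2 d1 d2
    refine ⟨fun i => (d1 i).trans (c1 i), c2, ?_⟩
    have : (fun i => (y i).1) = fun i => (z i).1 := funext c1
    rwa [this] at d2
  · intro w z ⟨h1, h2⟩
    obtain ⟨y, hy⟩ := a2 w (fun i => (lensL X Y1 Y2).get (z i)) h1
    obtain ⟨c1, _⟩ := a1 w _ _ hy
    let z1 : Tp w (X × (Y1 × Y2)) := fun i => (lensL X Y1 Y2).put (y i) (z i)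
    have e1 : (fun i => (z1 i).1) = fun i => (z i).1 := funext c1
    obtain ⟨y', hy'⟩ := b2 w (fun i => (lensR X Y1 Y2).get (z1 i)) (by
      change Q w (fun i => (z1 i).1)
      rw [e1]; exact h2)
    refine ⟨fun i => (lensR X Y1 Y2).put (y' i) (z1 i), z1, ⟨?_, fun i => rfl⟩,
      ⟨?_, fun i => rfl⟩⟩
    · exact hy
    · exact hy'

open Classical in
/-- one of finitely many scratch tracks -/
noncomputable def lensP (X : Type) {T : Type} (Y : T → Type) (t : T) :
    Lens (X × (∀ t, Y t)) (X × Y t) where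
  get b := (b.1, b.2 t)
  put a b := (a.1, Function.update b.2 t a.2)
  get_put a b := by simp
  put_get b := by simp
  put_put a a' b := by simp

theorem IsLS.iExists {T : Type} [Finite T] {P : T → ∀ w : List α, Tp w X → Prop}
    (hP : ∀ t, IsLS (P t)) : IsLS (fun w x => ∃ t, P t w x) := by
  choose Y hY1 hY2 r hr a1 a2 using hP
  refine ⟨∀ t, Y t, inferInstance, inferInstance, _,
    Impl.iUnion (fun t => (hr t).lift (lensP X Y t)), ?_, ?_⟩
  · rintro w z z' ⟨t, h1, h2⟩
    obtain ⟨c1, c2⟩ := a1 t w _ _ h1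
    exact ⟨c1, t, c2⟩
  · rintro w z ⟨t, ht⟩
    obtain ⟨y, hy⟩ := a2 t w (fun i => (lensP X Y t).get (z i)) ht
    refine ⟨fun i => (lensP X Y t).put (y i) (z i), t, ?_, fun i => ?_⟩
    · simp only [(lensP X Y t).get_put]
      exact hy
    · simp only [(lensP X Y t).get_put]

theorem IsLS.or {P Q : ∀ w : List α, Tp w X → Prop} (hP : IsLS P) (hQ : IsLS Q) :
    IsLS (fun w x => P w x ∨ Q w x) := by
  have h : ∀ b : Bool, IsLS (fun w x => (if b then P w x else Q w x : Prop)) := by
    intro b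
    cases b
    · exact hQ.congr (fun w v => by simp)
    · exact hP.congr (fun w v => by simp)
  refine (IsLS.iExists h).congr (fun w v => ?_)
  constructor
  · rintro ⟨b, hb⟩
    cases b
    · exact Or.inr (by simpa using hb)
    · exact Or.inl (by simpa using hb)
  · rintro (h | h)
    · exact ⟨true, by simpa using h⟩
    · exact ⟨false, by simpa using h⟩

/-- regrouping the tracks -/
def lensA (X Z Y : Type) : Lens (X × (Z × Y)) ((X × Z) × Y) where
  get b := ((b.1, b.2.1), b.2.2)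
  put a _ := (a.1.1, (a.1.2, a.2))
  get_put _ _ := rfl
  put_get _ := rfl
  put_put _ _ _ := rfl

/-- existential quantification over a track -/
theorem IsLS.ex [Finite Z] [Nonempty Z] {P : ∀ w : List α, Tp w (X × Z) → Prop} (hP : IsLS P) :
    IsLS (fun w (x : Tp w X) => ∃ z : Tp w Z, P w (fun i => (x i, z i))) := by
  obtain ⟨Y, _, _, r, hr, a1, a2⟩ := hP
  refine ⟨Z × Y, inferInstance, inferInstance, _,
    (Impl.letter (fun _ (a b : X × (Z × Y)) => b.1 = a.1 ∧ b.2.2 = a.2.2)).seq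
      (hr.lift (lensA X Z Y)), ?_, ?_⟩
  · rintro w z z' ⟨y, h1, ⟨h2, h3⟩⟩
    obtain ⟨c1, c2⟩ := a1 w _ _ h2
    simp only [lensA] at c1 c2
    have e1 : ∀ i, (y i).1 = (z i).1 := fun i => (h1 i).1
    refine ⟨fun i => ?_, fun i => (y i).2.1, ?_⟩
    · have := c1 i
      simp only [Prod.mk.injEq] at this
      exact this.1.trans (e1 i)
    · simp only [e1] at c2
      exact c2
  · rintro w z ⟨u, hu⟩
    let y : Tp w (X × (Z × Y)) := fun i => ((z i).1, (u i, (z i).2.2))
    obtain ⟨v, hv⟩ := a2 w (fun i => (lensA X Z Y).get (y i)) hu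
    exact ⟨fun i => (lensA X Z Y).put (v i) (y i), y, fun i => ⟨rfl, rfl⟩, hv, fun i => rfl⟩

/-- a copy track -/
def lensC (X' X Y : Type) : Lens (X' × (X × Y)) (X × Y) where
  get b := b.2
  put a b := (b.1, a)
  get_put _ _ := rfl
  put_get _ := rfl
  put_put _ _ _ := rfl

/-- substitution -/
theorem IsLS.reindex [Finite X] [Nonempty X] {P : ∀ w : List α, Tp w X → Prop} (hP : IsLS P)
    (f : X' → X) : IsLS (fun w (x : Tp w X') => P w (fun i => f (x i))) := by
  obtain ⟨Y, _, _, r, hr, a1, a2⟩ := hP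
  refine ⟨X × Y, inferInstance, inferInstance, _,
    (Impl.letter (fun _ (a b : X' × (X × Y)) => b.1 = a.1 ∧ b.2 = (f a.1, a.2.2))).seq
      (hr.lift (lensC X' X Y)), ?_, ?_⟩
  · rintro w z z' ⟨y, h1, ⟨h2, h3⟩⟩
    obtain ⟨c1, c2⟩ := a1 w _ _ h2
    simp only [lensC] at c1 c2 h3
    refine ⟨fun i => ?_, ?_⟩
    · have := congrArg Prod.fst (h3 i)
      exact this.trans (h1 i).1
    · have : ∀ i, (y i).2.1 = f (z i).1 := fun i => by rw [(h1 i).2]
      simp only [this] at c2
      exact c2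
  · rintro w z hz
    let y : Tp w (X' × (X × Y)) := fun i => ((z i).1, (f (z i).1, (z i).2.2))
    obtain ⟨v, hv⟩ := a2 w (fun i => (lensC X' X Y).get (y i)) hz
    exact ⟨fun i => (lensC X' X Y).put (v i) (y i), y, fun i => ⟨rfl, rfl⟩, hv, fun i => rfl⟩

theorem IsLS.listForall {T : Type} {P : T → ∀ w : List α, Tp w X → Prop}
    (hP : ∀ t, IsLS (P t)) : ∀ L : List T, IsLS (fun w v => ∀ t ∈ L, P t w v) := by
  intro L
  induction L with
  | nil => exact (IsLS.const True).congr (fun w v => by simp)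
  | cons a L ih =>
    exact ((hP a).and ih).congr (fun w v => by simp)

theorem IsLS.iForall {T : Type} [Finite T] {P : T → ∀ w : List α, Tp w X → Prop}
    (hP : ∀ t, IsLS (P t)) : IsLS (fun w v => ∀ t, P t w v) := by
  have := Fintype.ofFinite T
  exact (IsLS.listForall hP (Finset.univ : Finset T).toList).congr (fun w v => by simp)

/-! ### Transitive closure -/

section tc

variable {A K T : Type}

/-- the steps given by a property of a parameter and the contents of two tracks -/
def GStep (P : T → T → ∀ w : List α, Tp w (A × (K × K)) → Prop) (w : List α) (v : Tp w A)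
    (c c' : T × Tp w K) : Prop :=
  P c.1 c'.1 w (fun i => (v i, (c.2 i, c'.2 i)))

open Classical in
/-- the tracks for one step -/
noncomputable def lensT (A K : Type) {I : Type} (Y : I → Type) (t : I) :
    Lens ((A × (K × K)) × ((K × K) × (∀ t, Y t))) ((A × (K × K)) × Y t) where
  get b := ((b.1.1, b.2.1), b.2.2 t)
  put a b := ((a.1.1, b.1.2), (a.1.2, Function.update b.2.2 t a.2))
  get_put a b := by simp
  put_get b := by simp
  put_put a a' b := by simp

/-- **Transitive closure.** -/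
theorem IsLS.tc [Finite T] [Finite K] [Nonempty K]
    {P : T → T → ∀ w : List α, Tp w (A × (K × K)) → Prop}
    (hP : ∀ t t', IsLS (P t t')) (a b : T) :
    IsLS (fun w (x : Tp w (A × (K × K))) => ReflTransGen (GStep P w (fun i => (x i).1))
      (a, fun i => (x i).2.1) (b, fun i => (x i).2.2)) := by
  have hP' : ∀ tt : T × T, IsLS (P tt.1 tt.2) := fun tt => hP _ _
  choose Y hY1 hY2 r hr a1 a2 using hP'
  let W := (A × (K × K)) × ((K × K) × (∀ t, Y t))
  -- guess the next value
  let g : Rel α W := fun w p p' => ∀ i : Fin (w.length + 2), (p' i).1 = (p i).1 ∧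
    (p' i).2.1.1 = (p i).2.1.1 ∧ (p' i).2.2 = (p i).2.2
  have hg : Impl g := Impl.letter (fun _ (p p' : W) => p'.1 = p.1 ∧ p'.2.1.1 = p.2.1.1 ∧
    p'.2.2 = p.2.2)
  -- replace the current value
  let c : Rel α W := fun w p p' => ∀ i : Fin (w.length + 2), p' i = ((p i).1,
    (((p i).2.1.2, (p i).2.1.2), (p i).2.2))
  have hc : Impl c := Impl.letter (fun _ (p p' : W) => p' = (p.1, ((p.2.1.2, p.2.1.2), p.2.2)))
  -- initialize
  let c0 : Rel α W := fun w p p' => ∀ i : Fin (w.length + 2), p' i = ((p i).1,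
    (((p i).1.2.1, (p i).1.2.1), (p i).2.2))
  have hc0 : Impl c0 := Impl.letter (fun _ (p p' : W) => p' = (p.1, ((p.1.2.1, p.1.2.1), p.2.2)))
  -- compare
  let q : Rel α W := fun w p p' => ∀ i : Fin (w.length + 2), p' i = p i ∧
    (p i).2.1.1 = (p i).1.2.2
  have hq : Impl q := Impl.letter (fun _ (p p' : W) => p' = p ∧ p.2.1.1 = p.1.2.2)
  let ρ : T → T → Rel α W := fun t t' w p p' =>
    ∃ u, g w p u ∧ ∃ v, (lensT A K Y (t, t')).lift (r (t, t')) w u v ∧ c w v p'
  have hρ : ∀ t t', Impl (ρ t t') := fun t t' => hg.seq (((hr (t, t')).lift _).seq hc)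
  have key1 : ∀ w t t' (p p' : Tp w W), ρ t t' w p p' → (∀ i, (p' i).1 = (p i).1) ∧
      GStep P w (fun i => (p i).1.1) (t, fun i => (p i).2.1.1) (t', fun i => (p' i).2.1.1) := by
    rintro w t t' p p' ⟨u, h1, v, ⟨h2, h3⟩, h4⟩
    obtain ⟨d1, d2⟩ := a1 (t, t') w _ _ h2
    simp only [lensT, Prod.mk.injEq] at d1 d2 h3
    have e1 : ∀ i, (v i).1.1 = (p i).1.1 := fun i => (d1 i).1.trans (by rw [(h1 i).1])
    have e2 : ∀ i, (v i).1.2 = (p i).1.2 := fun i => by
      have := congrArg (fun x => x.1.2) (h3 i)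
      simp only at this
      rw [this, (h1 i).1]
    refine ⟨fun i => ?_, ?_⟩
    · rw [h4 i]
      exact Prod.ext (e1 i) (e2 i)
    · unfold GStep
      simp only
      have e3 : ∀ i, (p' i).2.1.1 = (u i).2.1.2 := fun i => by
        rw [h4 i]
        simp only
        rw [(d1 i).2]
      have e4 : (fun i => ((u i).1.1, (u i).2.1)) =
          fun i => ((p i).1.1, ((p i).2.1.1, (p' i).2.1.1)) := by
        funext i
        rw [e3, (h1 i).1, ← (h1 i).2.1]
      rw [e4] at d2
      exact d2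
  have key2 : ∀ w t t' (p : Tp w W) (y : Tp w K),
      GStep P w (fun i => (p i).1.1) (t, fun i => (p i).2.1.1) (t', y) →
      ∃ p', ρ t t' w p p' ∧ ∀ i, (p' i).2.1.1 = y i := by
    intro w t t' p y hy
    let u : Tp w W := fun i => ((p i).1, (((p i).2.1.1, y i), (p i).2.2))
    obtain ⟨v, hv⟩ := a2 (t, t') w (fun i => (lensT A K Y (t, t')).get (u i)) hy
    have d1 := (a1 (t, t') w _ _ hv).1
    simp only [lensT] at d1
    let v' : Tp w W := fun i => (lensT A K Y (t, t')).put (v i) (u i)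
    refine ⟨fun i => ((v' i).1, (((v' i).2.1.2, (v' i).2.1.2), (v' i).2.2)),
      ⟨u, fun i => ⟨rfl, rfl, rfl⟩, v', ⟨?_, fun i => ?_⟩, fun i => rfl⟩, fun i => ?_⟩
    · simp only [v', (lensT A K Y (t, t')).get_put]
      exact hv
    · simp only [v', (lensT A K Y (t, t')).get_put]
    · simp only [v', lensT]
      rw [d1 i]
  have key3 : ∀ w t (p : Tp w W) c', ReflTransGen (TStep ρ w) (t, p) c' →
      (∀ i, (c'.2 i).1 = (p i).1) ∧ ReflTransGen (GStep P w (fun i => (p i).1.1))
        (t, fun i => (p i).2.1.1) (c'.1, fun i => (c'.2 i).2.1.1) := by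
    intro w t p c' h
    induction h with
    | refl => exact ⟨fun _ => rfl, .refl⟩
    | @tail c1 c2 _ hs ih =>
      obtain ⟨e1, e2⟩ := ih
      obtain ⟨f1, f2⟩ := key1 w c1.1 c2.1 c1.2 c2.2 hs
      refine ⟨fun i => (f1 i).trans (e1 i), e2.tail ?_⟩
      simp only [e1] at f2
      exact f2
  have key4 : ∀ w t (p : Tp w W) c', ReflTransGen (GStep P w (fun i => (p i).1.1))
      (t, fun i => (p i).2.1.1) c' →
      ∃ p', ReflTransGen (TStep ρ w) (t, p) (c'.1, p') ∧ (fun i => (p' i).2.1.1) = c'.2 := by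
    intro w t p c' h
    induction h with
    | refl => exact ⟨p, .refl, rfl⟩
    | @tail c1 c2 _ hs ih =>
      obtain ⟨p1, h1, h2⟩ := ih
      obtain ⟨e1, _⟩ := key3 w t p _ h1
      have e5 : (fun i => (p1 i).1.1) = fun i => (p i).1.1 := by
        funext i
        exact congrArg Prod.fst (e1 i)
      obtain ⟨p', h3, h4⟩ := key2 w c1.1 c2.1 p1 c2.2 (by
        rw [e5, h2]
        exact hs)
      exact ⟨p', h1.tail h3, funext h4⟩
  refine ⟨(K × K) × (∀ t, Y t), inferInstance, inferInstance, _,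
    hc0.seq ((Impl.auto a b ρ hρ).seq hq), ?_, ?_⟩
  · rintro w p p' ⟨p1, h1, p2, h2, h3⟩
    obtain ⟨e1, e2⟩ := key3 w a p1 _ h2
    have f1 : ∀ i, (p1 i).1 = (p i).1 := fun i => by rw [h1 i]
    refine ⟨fun i => ?_, ?_⟩
    · rw [(h3 i).1, e1 i, f1 i]
    · have f2 : (fun i => (p1 i).2.1.1) = fun i => (p i).1.2.1 := by
        funext i; rw [h1 i]
      have f3 : (fun i => (p2 i).2.1.1) = fun i => (p i).1.2.2 := by
        funext i
        rw [(h3 i).2, e1 i, f1 i]
      simp only [f1] at e2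
      rw [f2, f3] at e2
      exact e2
  · intro w p hp
    let p1 : Tp w W := fun i => ((p i).1, (((p i).1.2.1, (p i).1.2.1), (p i).2.2))
    obtain ⟨p2, h1, h2⟩ := key4 w a p1 (b, fun i => (p i).1.2.2) hp
    obtain ⟨e1, _⟩ := key3 w a p1 _ h1
    refine ⟨p2, p1, fun i => rfl, p2, h1, fun i => ⟨rfl, ?_⟩⟩
    have := congrFun h2 i
    simp only at this
    rw [this, e1 i]

end tc

end Pool.Agent.V8H47.LB
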