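import Pool.Agent.V8H47.LB.Defs
import Pool.Agent.V8H47.NLK.CFSide

/-!
# Linear space machines and rational transductions; the semi-Dyck languages are context-free
-/

namespace Pool.Agent.V8H47.LB

open Relation Pool.Agent.V8H47.MH Pool.Agent.V8H47.NLK

section rat

variable {α X Y Z σ : Type} (M : LT α Y) (A : DFA Z σ) (φ : Z → List X) (ψ : Z → List Y)

/-- the suffixes of the words `f z` -/
def Suf {Z X : Type} (f : Z → List X) : Type := {l : List X // l = [] ∨ ∃ z, l <:+ f z}

theorem finite_suf {Z X : Type} [Finite Z] (f : Z → List X) : Finite (Suf f) := by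
  have : {l : List X | l = [] ∨ ∃ z, l <:+ f z} ⊆
      insert [] (⋃ z, {l | l ∈ (f z).tails}) := by
    rintro l (rfl | ⟨z, hz⟩)
    · exact Set.mem_insert _ _
    · exact Set.mem_insert_of_mem _ (Set.mem_iUnion.2 ⟨z, (List.mem_tails _ _).2 hz⟩)
  have h2 : (insert [] (⋃ z, {l | l ∈ (f z).tails}) : Set (List X)).Finite := by
    refine Set.Finite.insert _ (Set.finite_iUnion (fun z => ?_))
    exact List.finite_toSet _
  exact (h2.subset this).to_subtype

def sufNil {Z X : Type} (f : Z → List X) : Suf f := ⟨[], Or.inl rfl⟩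

def sufAll {Z X : Type} (f : Z → List X) (z : Z) : Suf f := ⟨f z, Or.inr ⟨z, List.suffix_rfl⟩⟩

/-- the states: state, state of the automaton, pending letters to be compared, pending output -/
abbrev RQ : Type := M.Q × σ × Suf ψ × Suf φ

/-- the steps of the product -/
def rS (q : RQ (σ := σ) M φ ψ) (s : Sym α) (b : M.B) : Set (RQ (σ := σ) M φ ψ × M.B × Dir × Option X) :=
  {t | (q.2.2.2.1 = [] ∧ q.2.2.1.1 = [] ∧ ∃ z, t = ((q.1, A.step q.2.1 z, sufAll ψ z, sufAll φ z),
      b, Dir.S, none)) ∨
    (∃ x l, q.2.2.2.1 = x :: l.1 ∧ t = ((q.1, q.2.1, q.2.2.1, l), b, Dir.S, some x)) ∨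
    (q.2.2.2.1 = [] ∧ ∃ u ∈ M.step q.1 s b, ∃ l : Suf ψ, q.2.2.1.1 = u.2.2.2.toList ++ l.1 ∧
      t = ((u.1, q.2.1, l, q.2.2.2), u.2.1, u.2.2.1, none))}

/-- the product of a machine and a rational transduction -/
def ratM [Finite Z] [Finite σ] : LT α X where
  Q := RQ (σ := σ) M φ ψ
  finQ := by
    have := M.finQ
    have := finite_suf φ
    have := finite_suf ψ
    infer_instance
  B := M.B
  finB := M.finB
  blank := M.blank
  init := (M.init, A.start, sufNil ψ, sufNil φ)
  acc := {q | q.1 ∈ M.acc ∧ q.2.1 ∈ A.accept ∧ q.2.2.1.1 = [] ∧ q.2.2.2.1 = []}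
  step := rS M A φ ψ

variable {M A φ ψ}

theorem rat_inv [Finite Z] [Finite σ] {w : List α} {c : LCfg (RQ (σ := σ) M φ ψ) M.B X}
    (h : ReflTransGen ((ratM M A φ ψ).Step w) (ratM M A φ ψ).start c) :
    ∃ (d : LCfg M.Q M.B Y) (g : List Z), ReflTransGen (M.Step w) M.start d ∧ c.q.1 = d.q ∧
      c.pos = d.pos ∧ c.tp = d.tp ∧ c.q.2.1 = A.eval g ∧ c.out ++ c.q.2.2.2.1 = g.flatMap φ ∧
      d.out ++ c.q.2.2.1.1 = g.flatMap ψ := by
  induction h with
  | refl => exact ⟨M.start, [], .refl, rfl, rfl, rfl, rfl, rfl, rfl⟩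
  | @tail c c' _ hs ih =>
    obtain ⟨d, g, h1, h2, h3, h4, h5, h6, h7⟩ := ih
    obtain ⟨t, ht, rfl⟩ := hs
    rcases ht with ⟨k1, k2, z, rfl⟩ | ⟨x, l, k1, rfl⟩ | ⟨k1, u, hu, l, k2, rfl⟩
    · refine ⟨d, g ++ [z], h1, h2, h3, ?_, ?_, ?_, ?_⟩
      · simp only [Function.update_eq_self]; exact h4
      · simp only [DFA.eval, DFA.evalFrom_of_append]
        rw [h5]; rfl
      · rw [k1] at h6
        simp only [List.append_nil] at h6
        simp [sufAll, h6]
      · rw [k2] at h7
        simp only [List.append_nil] at h7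
        simp [sufAll, h7]
    · refine ⟨d, g, h1, h2, h3, ?_, h5, ?_, h7⟩
      · simp only [Function.update_eq_self]; exact h4
      · rw [k1] at h6
        simpa using h6
    · have hs : M.Step w d ⟨u.1, u.2.2.1.move w.length d.pos, Function.update d.tp d.pos u.2.1,
          d.out ++ u.2.2.2.toList⟩ := by
        refine ⟨u, ?_, rfl⟩
        rw [← h2, ← h3, ← h4]; exact hu
      refine ⟨_, g, h1.tail hs, rfl, ?_, ?_, h5, ?_, ?_⟩
      · simp only; rw [h3]
      · simp only; rw [h3, h4]; rfl
      · simpa using h6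
      · simp only
        rw [← h7, k2, List.append_assoc]

/-- emitting the pending output -/
theorem run_emit [Finite Z] [Finite σ] {w : List α} (q : M.Q) (κ : σ) (l2 : Suf ψ) (p : ℕ)
    (y : ℕ → M.B) : ∀ (l : List X) (hl : l = [] ∨ ∃ z, l <:+ φ z) (o : List X),
    ReflTransGen ((ratM M A φ ψ).Step w) ⟨(q, κ, l2, ⟨l, hl⟩), p, y, o⟩
      ⟨(q, κ, l2, sufNil φ), p, y, o ++ l⟩ := by
  intro l
  induction l with
  | nil => intro hl o; rw [List.append_nil]; exact .refl
  | cons x l ih =>
    intro hl o
    have hl' : l = [] ∨ ∃ z, l <:+ φ z := by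
      rcases hl with h | ⟨z, hz⟩
      · simp at h
      · exact Or.inr ⟨z, (List.suffix_cons x l).trans hz⟩
    refine ReflTransGen.head (b := ⟨(q, κ, l2, ⟨l, hl'⟩), p, y, o ++ [x]⟩) ?_ ?_
    · refine ⟨((q, κ, l2, ⟨l, hl'⟩), y p, Dir.S, some x),
        Or.inr (Or.inl ⟨x, ⟨l, hl'⟩, rfl, rfl⟩), ?_⟩
      simp [Dir.move]
    · have := ih hl' (o ++ [x])
      rw [List.append_assoc] at this
      exact this

/-- the next letter of the word `h` -/
theorem run_letter [Finite Z] [Finite σ] {w : List α} (q : M.Q) (κ : σ) (p : ℕ)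
    (y : ℕ → M.B) (z : Z) (o : List X) :
    ReflTransGen ((ratM M A φ ψ).Step w) ⟨(q, κ, sufNil ψ, sufNil φ), p, y, o⟩
      ⟨(q, A.step κ z, sufAll ψ z, sufNil φ), p, y, o ++ φ z⟩ := by
  refine ReflTransGen.head (b := ⟨(q, A.step κ z, sufAll ψ z, sufAll φ z), p, y, o⟩) ?_
    (run_emit q _ _ p y (φ z) _ o)
  refine ⟨((q, A.step κ z, sufAll ψ z, sufAll φ z), y p, Dir.S, none),
    Or.inl ⟨rfl, rfl, z, rfl⟩, ?_⟩
  simp [Dir.move]

/-- letters with empty image -/
theorem run_erase [Finite Z] [Finite σ] {w : List α} (q : M.Q) (p : ℕ)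
    (y : ℕ → M.B) : ∀ (g : List Z) (κ : σ) (o : List X), g.flatMap ψ = [] →
    ReflTransGen ((ratM M A φ ψ).Step w) ⟨(q, κ, sufNil ψ, sufNil φ), p, y, o⟩
      ⟨(q, A.evalFrom κ g, sufNil ψ, sufNil φ), p, y, o ++ g.flatMap φ⟩ := by
  intro g
  induction g with
  | nil => intro κ o _; rw [List.flatMap_nil, List.append_nil]; exact .refl
  | cons z g ih =>
    intro κ o h
    rw [List.flatMap_cons, List.append_eq_nil_iff] at h
    have h1 := run_letter (A := A) (φ := φ) (ψ := ψ) (w := w) q κ p y z o
    have e : sufAll ψ z = sufNil ψ := Subtype.ext h.1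
    rw [e] at h1
    have h2 := ih (A.step κ z) (o ++ φ z) h.2
    rw [List.append_assoc] at h2
    exact h1.trans h2

theorem exists_first {y : Y} : ∀ (g : List Z) (r : List Y), g.flatMap ψ = y :: r →
    ∃ g1 z g2 r1, g = g1 ++ z :: g2 ∧ g1.flatMap ψ = [] ∧ ψ z = y :: r1 := by
  intro g
  induction g with
  | nil => intro r h; simp at h
  | cons z g ih =>
    intro r h
    rw [List.flatMap_cons] at h
    cases hz : ψ z with
    | nil =>
      rw [hz, List.nil_append] at h
      obtain ⟨g1, z', g2, r1, rfl, h2, h3⟩ := ih r h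
      exact ⟨z :: g1, z', g2, r1, rfl, by simp [hz, h2], h3⟩
    | cons a l =>
      rw [hz, List.cons_append, List.cons.injEq] at h
      exact ⟨[], z, g, l, rfl, rfl, by rw [hz, h.1]⟩

theorem rat_complete [Finite Z] [Finite σ] {w : List α} (h : List Z)
    {d : LCfg M.Q M.B Y} (hd : ReflTransGen (M.Step w) M.start d)
    (hp : d.out <+: h.flatMap ψ) :
    ∃ (h1 h2 : List Z) (l : Suf ψ), h = h1 ++ h2 ∧ d.out ++ l.1 = h1.flatMap ψ ∧
      ReflTransGen ((ratM M A φ ψ).Step w) (ratM M A φ ψ).start
        ⟨(d.q, A.eval h1, l, sufNil φ), d.pos, d.tp, h1.flatMap φ⟩ := by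
  induction hd with
  | refl => exact ⟨[], h, sufNil ψ, rfl, rfl, .refl⟩
  | @tail d d' _ hs ih =>
    obtain ⟨t, ht, rfl⟩ := hs
    simp only at hp
    obtain ⟨h1, h2, l, e1, e2, e3⟩ := ih ((List.prefix_append _ _).trans hp)
    -- a main step
    have step : ∀ (h1 : List Z) (l l' : Suf ψ), l.1 = t.2.2.2.toList ++ l'.1 →
        (ratM M A φ ψ).Step w ⟨(d.q, A.eval h1, l, sufNil φ), d.pos, d.tp, h1.flatMap φ⟩
          ⟨(t.1, A.eval h1, l', sufNil φ), t.2.2.1.move w.length d.pos,
            Function.update d.tp d.pos t.2.1, h1.flatMap φ⟩ := by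
      intro h1 l l' hl
      refine ⟨((t.1, A.eval h1, l', sufNil φ), t.2.1, t.2.2.1, none),
        Or.inr (Or.inr ⟨rfl, t, ht, l', hl, rfl⟩), ?_⟩
      simp
    cases ho : t.2.2.2 with
    | none =>
      refine ⟨h1, h2, l, e1, ?_, e3.tail (step h1 l l (by simp [ho]))⟩
      simp only [Option.toList_none, List.append_nil]
      exact e2
    | some y =>
      rw [ho] at hp
      simp only [Option.toList_some] at hp
      obtain ⟨l, hl⟩ := l
      cases l with
      | cons a r =>
        have ha : a = y := by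
          obtain ⟨r', hr'⟩ := hp
          rw [e1, List.flatMap_append, ← e2, List.append_assoc, List.append_assoc] at hr'
          have := List.append_cancel_left hr'
          simp only [List.cons_append, List.cons.injEq] at this
          exact this.1.symm
        subst ha
        have hr : r = [] ∨ ∃ z, r <:+ ψ z := by
          rcases hl with h | ⟨z, hz⟩
          · simp at h
          · exact Or.inr ⟨z, (List.suffix_cons a r).trans hz⟩
        refine ⟨h1, h2, ⟨r, hr⟩, e1, ?_, e3.tail (step h1 _ ⟨r, hr⟩ (by simp [ho]))⟩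
        simp only at e2 ⊢
        rw [← e2]
        simp
      | nil =>
        simp only [List.append_nil] at e2
        obtain ⟨r', hr'⟩ := hp
        rw [e1, List.flatMap_append, ← e2, List.append_assoc] at hr'
        have h3 := (List.append_cancel_left hr').symm
        simp only [List.singleton_append] at h3
        obtain ⟨g1, z, g2, r1, rfl, h4, h5⟩ := exists_first h2 _ h3
        have f1 := run_erase (A := A) (φ := φ) (ψ := ψ) (w := w) d.q d.pos d.tp g1
          (A.eval h1) (h1.flatMap φ) h4
        have f2 := run_letter (A := A) (φ := φ) (ψ := ψ) (w := w) d.q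
          (A.evalFrom (A.eval h1) g1) d.pos d.tp z (h1.flatMap φ ++ g1.flatMap φ)
        have e4 : A.step (A.evalFrom (A.eval h1) g1) z = A.eval (h1 ++ g1 ++ [z]) := by
          simp only [DFA.eval, DFA.evalFrom_of_append]
          rfl
        have e5 : h1.flatMap φ ++ g1.flatMap φ ++ φ z = (h1 ++ g1 ++ [z]).flatMap φ := by
          simp
        rw [e4, e5] at f2
        have hr : r1 = [] ∨ ∃ z, r1 <:+ ψ z :=
          Or.inr ⟨z, by rw [h5]; exact List.suffix_cons y r1⟩
        refine ⟨h1 ++ g1 ++ [z], g2, ⟨r1, hr⟩, by rw [e1]; simp, ?_,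
          ((e3.trans f1).trans f2).tail (step _ _ ⟨r1, hr⟩ (by simp [ho, sufAll, h5]))⟩
        simp only [Option.toList_some, List.flatMap_append, List.flatMap_cons, List.flatMap_nil,
          List.append_nil, h4, h5, e2]
        simp

end rat

/-- **Rational transductions of the output language.** -/
theorem linPre_rat {α X Y : Type} {L : Language X} {L' : Language Y} (h : RatImage L L') :
    linPre L' α ⊆ linPre L α := by
  rintro _ ⟨M, rfl⟩
  obtain ⟨Z, _, K, φ, ψ, ⟨σ, _, A, rfl⟩, rfl⟩ := h
  refine ⟨ratM M A φ ψ, ?_⟩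
  refine Set.ext fun w => ?_
  constructor
  · rintro ⟨v, ⟨h, hA, hφ, rfl⟩, d, hd, hacc, hout⟩
    obtain ⟨h1, h2, l, e1, e2, e3⟩ := rat_complete (A := A) (φ := φ) (ψ := ψ) h hd
      (by rw [hout])
    rw [hout, e1, List.flatMap_append] at e2
    have e4 : h2.flatMap ψ = [] ∧ l.1 = [] := by
      have := congrArg List.length e2
      simp only [List.length_append] at this
      constructor
      · exact List.eq_nil_of_length_eq_zero (by omega)
      · exact List.eq_nil_of_length_eq_zero (by omega)
    have e5 : l = sufNil ψ := Subtype.ext e4.2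
    subst e5
    have f1 := run_erase (A := A) (φ := φ) (ψ := ψ) (w := w) d.q d.pos d.tp h2
          (A.eval h1) (h1.flatMap φ) e4.1
    refine ⟨h.flatMap φ, hφ, _, e3.trans f1, ⟨hacc, ?_, rfl, rfl⟩, ?_⟩
    · simp only
      rw [DFA.eval, ← DFA.evalFrom_of_append, ← e1]
      exact hA
    · simp only
      rw [e1, List.flatMap_append]
  · rintro ⟨v, hv, c, hc, ⟨h1, h2, h3, h4⟩, rfl⟩
    obtain ⟨d, g, k1, k2, k3, k4, k5, k6, k7⟩ := rat_inv hc
    rw [h4, List.append_nil] at k6
    rw [h3, List.append_nil] at k7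
    refine ⟨d.out, ⟨g, ?_, ?_, k7.symm⟩, d, k1, ?_, rfl⟩
    · change A.eval g ∈ A.accept
      rw [← k5]; exact h2
    · rw [← k6]; exact hv
    · rw [← k2]; exact h1

/-! ### The semi-Dyck languages are context-free -/

section dyck

variable (S : Type) [Finite S] [DecidableEq S]

/-- the rules `N → ε`, `N → (s,true) N (s,false) N` -/
def dRule : Option S → ContextFreeRule (S × Bool) Unit
  | none => ⟨(), []⟩
  | some s => ⟨(), [Symbol.terminal (s, true), Symbol.nonterminal (),
      Symbol.terminal (s, false), Symbol.nonterminal ()]⟩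

/-- a grammar for the semi-Dyck language -/
noncomputable def dGram : ContextFreeGrammar (S × Bool) where
  NT := Unit
  initial := ()
  rules := (Set.finite_range (dRule S)).toFinset

variable {S}

/-- the terminals of a list of symbols -/
def tms {N : Type} (l : List (Symbol (S × Bool) N)) : List (S × Bool) :=
  l.filterMap (fun x => match x with
    | Symbol.terminal a => some a
    | Symbol.nonterminal _ => none)

theorem gnr_run {l : List (Symbol (S × Bool) (dGram S).NT)} {w : List (S × Bool)}
    (h : Gnr (dGram S) l w) : ∀ st, runS w st = runS (tms l) st := by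
  induction h with
  | nil => intro st; rfl
  | @term a l w _ ih =>
    intro st
    have e1 : runS (a :: w) st = (runS [a] st).bind (runS w) := by
      rw [← runS_append]; rfl
    have e2 : tms (Symbol.terminal a :: l) = [a] ++ tms l := rfl
    rw [e1, e2, runS_append]
    have : runS w = runS (tms l) := funext ih
    rw [this]
  | @nt r hr l w v _ _ ih1 ih2 =>
    intro st
    have e2 : tms (Symbol.nonterminal r.input :: l) = tms l := rfl
    rw [e2, runS_append, ih1]
    have hr' : r ∈ Set.range (dRule S) := (Set.finite_range (dRule S)).mem_toFinset.1 hr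
    obtain ⟨o, rfl⟩ := hr'
    have e3 : runS (tms (dRule S o).output) st = some st := by
      cases o with
      | none => rfl
      | some s => simp [dRule, tms, runS]
    have e4 : (runS (tms (dRule S o).output) st).bind (runS v) = runS v st := by
      rw [e3]; rfl
    exact e4.trans (ih2 st)

/-- decompositions of words which pop a store -/
def Dec : List S → List (S × Bool) → Prop
  | [], w => Gnr (dGram S) [Symbol.nonterminal ()] w
  | s :: st, w => ∃ u v, w = u ++ (s, false) :: v ∧
      Gnr (dGram S) [Symbol.nonterminal ()] u ∧ Dec st v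

theorem gnr_nil : Gnr (dGram S) [Symbol.nonterminal ()] [] := by
  have h : dRule S none ∈ (dGram S).rules :=
    (Set.finite_range (dRule S)).mem_toFinset.2 ⟨none, rfl⟩
  exact Gnr.nt h Gnr.nil Gnr.nil

theorem gnr_cons {s : S} {u v : List (S × Bool)} (hu : Gnr (dGram S) [Symbol.nonterminal ()] u)
    (hv : Gnr (dGram S) [Symbol.nonterminal ()] v) :
    Gnr (dGram S) [Symbol.nonterminal ()] ((s, true) :: u ++ (s, false) :: v) := by
  have h : dRule S (some s) ∈ (dGram S).rules :=
    (Set.finite_range (dRule S)).mem_toFinset.2 ⟨some s, rfl⟩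
  have h1 : Gnr (dGram S) (dRule S (some s)).output ((s, true) :: (u ++ (s, false) :: v)) := by
    refine Gnr.term _ ?_
    exact gl_append (l := [Symbol.nonterminal ()]) hu (Gnr.term _ hv)
  have := Gnr.nt h h1 Gnr.nil
  rw [List.append_nil] at this
  exact this

theorem dec_cons {s : S} {u : List (S × Bool)} (hu : Gnr (dGram S) [Symbol.nonterminal ()] u) :
    ∀ (st : List S) (v : List (S × Bool)), Dec st v →
      Dec st ((s, true) :: u ++ (s, false) :: v) := by
  intro st v h
  cases st with
  | nil => exact gnr_cons hu h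
  | cons s' st =>
    obtain ⟨u', v', rfl, h1, h2⟩ := h
    exact ⟨(s, true) :: u ++ (s, false) :: u', v', by simp, gnr_cons hu h1, h2⟩

theorem dec_of_run : ∀ (w : List (S × Bool)) (st : List S), runS w st = some [] → Dec st w := by
  intro w
  induction w with
  | nil =>
    intro st h
    simp only [runS, Option.some.injEq] at h
    subst h
    exact gnr_nil
  | cons a w ih =>
    intro st h
    obtain ⟨s, b⟩ := a
    cases b with
    | true =>
      simp only [runS] at h
      obtain ⟨u, v, rfl, h1, h2⟩ := ih _ h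
      exact dec_cons h1 st v h2
    | false =>
      cases st with
      | nil => simp [runS] at h
      | cons t st =>
        simp only [runS] at h
        split_ifs at h with hs
        subst hs
        exact ⟨[], w, rfl, gnr_nil, ih _ h⟩

theorem dyck_cf : (dyck S).IsContextFree := by
  refine ⟨dGram S, ?_⟩
  ext w
  rw [mem_language_gl]
  constructor
  · intro h
    have := gnr_run h []
    exact this
  · intro h
    exact dec_of_run w [] h

end dyck

end Pool.Agent.V8H47.LB
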