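import Pool.Agent.V8H47.LB.Sys
import Pool.Agent.V8H47.LB.RatLT

/-!
# The dichotomy for linear space machines with output in `D ∩ R`
-/

namespace Pool.Agent.V8H47.LB

open Relation Pool.Agent.V8H47.MH Pool.Agent.V8H47.NLK

/-- the rational transduction which restricts to a regular language -/
theorem ratImage_inf {X : Type} [Finite X] (L R : Language X) (hR : R.IsRegular) :
    RatImage L (L ⊓ R) := by
  refine ⟨X, inferInstance, R, fun x => [x], fun x => [x], hR, ?_⟩
  refine Set.ext fun v => ?_
  constructor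
  · rintro ⟨h1, h2⟩
    have e : v.flatMap (fun x => [x]) = v := List.flatMap_singleton' v
    exact ⟨v, h2, by rw [e]; exact h1, e⟩
  · rintro ⟨h, h1, h2, rfl⟩
    simp only [List.flatMap_singleton'] at h2 ⊢
    exact ⟨h2, h1⟩

/-- the automaton for the words of length one over a set with one element -/
def oneDFA : DFA Unit (Fin 3) where
  step q _ := if q = 0 then 1 else 2
  start := 0
  accept := {1}

/-- the transduction from a nonempty language to the empty word -/
theorem ratImage_one {X : Type} {L : Language X} {v0 : List X} (h0 : v0 ∈ L) :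
    RatImage L (⊤ : Language Empty) := by
  refine ⟨Unit, inferInstance, oneDFA.accepts, fun _ => v0, fun _ => [],
    ⟨Fin 3, inferInstance, oneDFA, rfl⟩, ?_⟩
  refine Set.ext fun v => ?_
  constructor
  · intro _
    refine ⟨[()], rfl, by simpa using h0, ?_⟩
    cases v with
    | nil => rfl
    | cons a _ => exact a.elim
  · intro _
    trivial

theorem nspace_eq (α : Type) : nspace α = linPre (⊤ : Language Empty) α := by
  ext L
  constructor
  · rintro ⟨M, rfl⟩
    refine ⟨M, Set.ext fun w => ?_⟩
    constructor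
    · rintro ⟨v, hv⟩
      exact ⟨v, trivial, hv⟩
    · rintro ⟨v, _, hv⟩
      exact ⟨v, hv⟩
  · rintro ⟨M, rfl⟩
    refine ⟨M, Set.ext fun w => ?_⟩
    constructor
    · rintro ⟨v, _, hv⟩
      exact ⟨v, hv⟩
    · rintro ⟨v, hv⟩
      exact ⟨v, trivial, hv⟩

variable {S : Type} [Finite S] [DecidableEq S] {R : Language (S × Bool)}

theorem rich_case (hR : R.IsRegular) (h : Rich R) (α : Type) :
    linPre (dyck S ⊓ R) α = auxPDA α := by
  refine Set.Subset.antisymm ?_ ?_
  · intro L hL
    exact ⟨S, inferInstance, inferInstance, linPre_rat (ratImage_inf _ R hR) hL⟩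
  · rintro L ⟨S', _, _, hL⟩
    exact linPre_rat (cf_side h dyck_cf) hL

theorem poor_case (hR : R.IsRegular) (h : ¬ Rich R) (α : Type) :
    linPre (dyck S ⊓ R) α ⊆ nspace α ∧
      ((∃ v, v ∈ dyck S ⊓ R) → linPre (dyck S ⊓ R) α = nspace α) := by
  refine ⟨nspace_side hR h, ?_⟩
  rintro ⟨v, hv⟩
  refine Set.Subset.antisymm (nspace_side hR h) ?_
  rw [nspace_eq]
  exact linPre_rat (ratImage_one hv)

end Pool.Agent.V8H47.LB
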