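import Pool.Agent.V8H47.LB.Counter

/-!
# Flowcharts of sweeps are simulated by linear space machines
-/

namespace Pool.Agent.V8H47.LB

open Relation Pool.Agent.V8H47.MH

variable {α X : Type}

/-- machines without output -/
structure RM (α X : Type) where
  Q : Type
  finQ : Finite Q
  step : Q → Sym α → X → Set (Q × X × Dir)

/-- configurations with a tape of the right length -/
@[ext] structure RCfg {α : Type} (Q : Type) (w : List α) (X : Type) where
  q : Q
  pos : Fin (w.length + 2)
  tp : Tp w X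

/-- moving the head -/
def mv {n : ℕ} (d : Dir) (p : Fin (n + 2)) : Fin (n + 2) :=
  ⟨d.move n p, by have := p.2; cases d <;> simp only [Dir.move] <;> omega⟩

/-- a step -/
def RStep {Q : Type} (step : Q → Sym α → X → Set (Q × X × Dir)) (w : List α)
    (c c' : RCfg Q w X) : Prop :=
  ∃ t ∈ step c.q (symAt w c.pos) (c.tp c.pos),
    c' = ⟨t.1, mv t.2.2 c.pos, Function.update c.tp c.pos t.2.1⟩

/-- a step -/
def RM.Step (M : RM α X) (w : List α) (c c' : RCfg M.Q w X) : Prop := RStep M.step w c c'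

/-- `r` is the relation between the tape contents at the entry and the exit of a machine -/
def Real (r : Rel α X) : Prop :=
  ∃ (M : RM α X) (a b : M.Q), ∀ (w : List α) (x x' : Tp w X),
    ReflTransGen (M.Step w) ⟨a, ⟨0, by omega⟩, x⟩ ⟨b, ⟨0, by omega⟩, x'⟩ ↔ r w x x'

section loc

variable (E : Sym α → X × X → X × X → Prop)

/-- the states of a machine for a sweep -/
inductive LQ (X : Type)
  | st : LQ X
  | sw : X × X → LQ X
  | ret : LQ X
  | fin : LQ X

theorem finite_lq [Finite X] : Finite (LQ X) := by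
  let f : LQ X → Fin 3 ⊕ (X × X) := fun q => match q with
    | .st => .inl 0
    | .sw p => .inr p
    | .ret => .inl 1
    | .fin => .inl 2
  refine Finite.of_injective f ?_
  intro a b h
  cases a <;> cases b <;> simp_all [f]

/-- the steps of the machine for a sweep -/
def locS : LQ X → Sym α → X → Set (LQ X × X × Dir)
  | .st, s, x => {t | s = Sym.left ∧ ∃ x', E s (x, x') (x, x') ∧
      t = (LQ.sw (x, x'), x', Dir.R)}
  | .sw p, s, x => {t | s ≠ Sym.left ∧ ((s ≠ Sym.right ∧ ∃ x', E s p (x, x') ∧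
        t = (LQ.sw (x, x'), x', Dir.R)) ∨
        (s = Sym.right ∧ ∃ x', E s p (x, x') ∧ t = (LQ.ret, x', Dir.L)))}
  | .ret, s, x => {t | (s ≠ Sym.left ∧ t = (LQ.ret, x, Dir.L)) ∨
      (s = Sym.left ∧ t = (LQ.fin, x, Dir.S))}
  | .fin, _, _ => ∅

/-- the machine for a sweep -/
def locM [Finite X] : RM α X where
  Q := LQ X
  finQ := finite_lq
  step := locS E

/-- the invariant of a sweep -/
def LInv {w : List α} (x : Tp w X) (c : RCfg (LQ X) w X) : Prop :=
  match c.q with
  | .st => (c.pos : ℕ) = 0 ∧ c.tp = x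
  | .sw p => 0 < (c.pos : ℕ) ∧ p = (x (pv c.pos), c.tp (pv c.pos)) ∧
      (∀ i : Fin (w.length + 2), (c.pos : ℕ) ≤ i → c.tp i = x i) ∧
      ∀ i : Fin (w.length + 2), (i : ℕ) < c.pos → E (symAt w i) (x (pv i), c.tp (pv i)) (x i, c.tp i)
  | .ret => Loc E w x c.tp
  | .fin => Loc E w x c.tp

variable {E}

theorem symAt_eq_left {w : List α} {p : ℕ} : symAt w p = Sym.left ↔ p = 0 := symAt_left

theorem lInv_step {w : List α} {x : Tp w X} {c c' : RCfg (LQ X) w X}
    (h : LInv E x c) (hs : RStep (locS E) w c c') : LInv E x c' := by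
  obtain ⟨q, i, y⟩ := c
  obtain ⟨t, ht, rfl⟩ := hs
  cases q with
  | st =>
    obtain ⟨h1, h2⟩ := h
    simp only at h1 h2
    subst h2
    obtain ⟨_, x', h3, rfl⟩ := ht
    have hi : i = ⟨0, Nat.succ_pos _⟩ := Fin.ext h1
    subst hi
    simp only [LInv, mv, Dir.move]
    have e0 : (⟨min (0 + 1) (w.length + 1), by omega⟩ : Fin (w.length + 2)) = ⟨1, by omega⟩ := by
      apply Fin.ext; simp
    rw [e0]
    refine ⟨Nat.one_pos, ?_, ?_, ?_⟩
    · have : (pv (⟨1, by omega⟩ : Fin (w.length + 2))) = ⟨0, by omega⟩ := rfl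
      rw [this, Function.update_self]
    · intro j hj
      rw [Function.update_of_ne]
      rintro rfl
      simp at hj
    · intro j hj
      have hj1 : (j : ℕ) = 0 := by omega
      have hj0 : j = ⟨0, Nat.succ_pos _⟩ := Fin.ext hj1
      subst hj0
      have e : pv (⟨0, Nat.succ_pos _⟩ : Fin (w.length + 2)) = ⟨0, Nat.succ_pos _⟩ := rfl
      rw [e, Function.update_self]
      exact h3
  | sw p =>
    obtain ⟨h1, h2, h3, h4⟩ := h
    simp only at h1 h2 h3 h4
    obtain ⟨_, ⟨h5, x', h6, rfl⟩ | ⟨h5, x', h6, rfl⟩⟩ := ht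
    · simp only at h5 h6
      rw [Ne, symAt_right] at h5
      have hpi : pv i ≠ i := by
        intro hc
        have := congrArg Fin.val hc
        simp only [pv] at this
        omega
      have e0 : mv Dir.R i = ⟨i + 1, by omega⟩ := by
        apply Fin.ext
        simp only [mv, Dir.move]
        omega
      simp only [LInv]
      rw [e0]
      have e1 : pv (⟨i + 1, by omega⟩ : Fin (w.length + 2)) = i := by
        apply Fin.ext; simp [pv]
      refine ⟨Nat.succ_pos _, ?_, ?_, ?_⟩
      · rw [e1, Function.update_self, h3 i le_rfl]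
      · intro j hj
        rw [Function.update_of_ne]
        · exact h3 j (by simp only at hj; omega)
        · rintro rfl
          simp only at hj
          omega
      · intro j hj
        simp only at hj
        by_cases hji : j = i
        · subst hji
          rw [Function.update_self, Function.update_of_ne hpi, ← h2, ← h3 j le_rfl]
          exact h6
        · have hlt : (j : ℕ) < i := by
            have : (j : ℕ) ≠ i := fun h => hji (Fin.ext h)
            omega
          have hpj : pv j ≠ i := by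
            intro hc
            have := congrArg Fin.val hc
            simp only [pv] at this
            omega
          rw [Function.update_of_ne hji, Function.update_of_ne hpj]
          exact h4 j hlt
    · simp only at h5 h6
      rw [symAt_right] at h5
      have hpi : pv i ≠ i := by
        intro hc
        have := congrArg Fin.val hc
        simp only [pv] at this
        omega
      simp only [LInv]
      intro j
      by_cases hji : j = i
      · subst hji
        rw [Function.update_self, Function.update_of_ne hpi, ← h2, ← h3 j le_rfl]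
        exact h6
      · have hlt : (j : ℕ) < i := by
          have h7 : (j : ℕ) ≠ i := fun h => hji (Fin.ext h)
          have := j.2
          omega
        have hpj : pv j ≠ i := by
          intro hc
          have := congrArg Fin.val hc
          simp only [pv] at this
          omega
        rw [Function.update_of_ne hji, Function.update_of_ne hpj]
        exact h4 j hlt
  | ret =>
    have h' : Loc E w x y := h
    rcases ht with ⟨_, rfl⟩ | ⟨_, rfl⟩
    · simp only [LInv, Function.update_eq_self]; exact h'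
    · simp only [LInv, Function.update_eq_self]; exact h'
  | fin => exact ht.elim

theorem run_ret {w : List α} (y : Tp w X) : ∀ (j : ℕ) (hj : j < w.length + 2),
    ReflTransGen (RStep (locS E) w) ⟨.ret, ⟨j, hj⟩, y⟩ ⟨.fin, ⟨0, by omega⟩, y⟩ := by
  intro j
  induction j with
  | zero =>
    intro hj
    refine ReflTransGen.single ⟨(.fin, y ⟨0, hj⟩, Dir.S), Or.inr ⟨symAt_left.2 rfl, rfl⟩, ?_⟩
    simp [mv, Dir.move]
  | succ j ih =>
    intro hj
    refine ReflTransGen.head ⟨(.ret, y ⟨j + 1, hj⟩, Dir.L), Or.inl ⟨?_, rfl⟩, ?_⟩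
      (ih (by omega))
    · rw [Ne, symAt_left]; simp
    · simp [mv, Dir.move]

theorem run_sw {w : List α} {x y : Tp w X} (h : Loc E w x y) :
    ∀ (m j : ℕ) (hj : j + 1 + m = w.length + 1),
    ReflTransGen (RStep (locS E) w)
      ⟨.sw (x ⟨j, by omega⟩, y ⟨j, by omega⟩), ⟨j + 1, by omega⟩,
        fun i => if (i : ℕ) < j + 1 then y i else x i⟩
      ⟨.ret, ⟨w.length, by omega⟩, y⟩ := by
  intro m
  induction m with
  | zero =>
    intro j hj
    have e1 : j + 1 = w.length + 1 := by omega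
    refine ReflTransGen.single ⟨(.ret, y ⟨j + 1, by omega⟩, Dir.L), ⟨?_, Or.inr ⟨?_,
      y ⟨j + 1, by omega⟩, ?_, rfl⟩⟩, ?_⟩
    · rw [Ne, symAt_left]; simp
    · rw [symAt_right]; simp only; omega
    · have := h ⟨j + 1, by omega⟩
      simpa [pv] using this
    · have e3 : Function.update (fun i : Fin (w.length + 2) => if (i : ℕ) < j + 1 then y i else x i)
          ⟨j + 1, by omega⟩ (y ⟨j + 1, by omega⟩) = y := by
        funext i
        by_cases hi : i = ⟨j + 1, by omega⟩
        · subst hi; rw [Function.update_self]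
        · rw [Function.update_of_ne hi, if_pos]
          have h7 : (i : ℕ) ≠ j + 1 := fun h => hi (Fin.ext h)
          have := i.2
          omega
      simp only [e3, RCfg.mk.injEq, mv, Dir.move, true_and, and_true]
      apply Fin.ext
      simp only
      omega
  | succ m ih =>
    intro j hj
    refine ReflTransGen.head ⟨(.sw (x ⟨j + 1, by omega⟩, y ⟨j + 1, by omega⟩),
      y ⟨j + 1, by omega⟩, Dir.R), ⟨?_, Or.inl ⟨?_, y ⟨j + 1, by omega⟩, ?_, ?_⟩⟩, rfl⟩ ?_
    · rw [Ne, symAt_left]; simp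
    · rw [Ne, symAt_right]; simp only; omega
    · have := h ⟨j + 1, by omega⟩
      simpa [pv] using this
    · simp
    · have := ih (j + 1) (by omega)
      convert this using 2
      · apply Fin.ext
        simp only [mv, Dir.move]
        omega
      · funext i
        by_cases hi : i = ⟨j + 1, by omega⟩
        · subst hi
          simp
        · rw [Function.update_of_ne hi]
          have h7 : (i : ℕ) ≠ j + 1 := fun h => hi (Fin.ext h)
          simp only
          by_cases h8 : (i : ℕ) < j + 1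
          · rw [if_pos h8, if_pos (by omega)]
          · rw [if_neg h8, if_neg (by omega)]

theorem real_loc [Finite X] : Real (Loc (α := α) E) := by
  refine ⟨locM E, .st, .fin, fun w x x' => ⟨fun h => ?_, fun h => ?_⟩⟩
  · have key : ∀ c, ReflTransGen (RStep (locS E) w) ⟨.st, ⟨0, by omega⟩, x⟩ c →
        LInv E x c := by
      intro c hc
      induction hc with
      | refl => exact ⟨rfl, rfl⟩
      | tail _ hs ih => exact lInv_step ih hs
    exact key _ h
  · have h1 : RStep (locS E) w ⟨.st, ⟨0, by omega⟩, x⟩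
        ⟨.sw (x ⟨0, by omega⟩, x' ⟨0, by omega⟩), ⟨0 + 1, by omega⟩,
          fun i => if (i : ℕ) < 0 + 1 then x' i else x i⟩ := by
      refine ⟨(.sw (x ⟨0, by omega⟩, x' ⟨0, by omega⟩), x' ⟨0, by omega⟩, Dir.R),
        ⟨symAt_left.2 rfl, x' ⟨0, by omega⟩, ?_, rfl⟩, ?_⟩
      · have := h ⟨0, by omega⟩
        exact this
      · simp only [RCfg.mk.injEq, true_and, mv, Dir.move]
        refine ⟨by apply Fin.ext; simp, ?_⟩
        funext i
        by_cases hi : i = ⟨0, by omega⟩
        · subst hi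
          simp
        · rw [Function.update_of_ne hi, if_neg]
          have h7 : (i : ℕ) ≠ 0 := fun h => hi (Fin.ext h)
          omega
    have h2 := run_sw (E := E) h w.length 0 (by omega)
    have h3 := run_ret (E := E) x' w.length (by omega)
    exact (ReflTransGen.head h1 h2).trans h3

end loc

section auto

variable {T : Type} [Finite T]

/-- gluing machines along the edges of a finite graph -/
def glue (M : T × T → RM α X) (a b : ∀ x, (M x).Q) : RM α X where
  Q := T ⊕ (Σ x : T × T, (M x).Q)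
  finQ := by
    have := fun x => (M x).finQ
    infer_instance
  step q s y := {t | match q with
    | Sum.inl i => s = Sym.left ∧ ∃ j, t = (Sum.inr ⟨(i, j), a (i, j)⟩, y, Dir.S)
    | Sum.inr ⟨x, q⟩ => (s = Sym.left ∧ q = b x ∧ t = (Sum.inl x.2, y, Dir.S)) ∨
        ∃ u ∈ (M x).step q s y, t = (Sum.inr ⟨x, u.1⟩, u.2.1, u.2.2)}

theorem glue_sound (M : T × T → RM α X) (a b : ∀ x, (M x).Q) (i : T) (ρ : T → T → Rel α X)
    (hM : ∀ x (w : List α) (p p' : Tp w X), ReflTransGen ((M x).Step w)
      ⟨a x, ⟨0, by omega⟩, p⟩ ⟨b x, ⟨0, by omega⟩, p'⟩ ↔ ρ x.1 x.2 w p p')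
    (w : List α) (p : Tp w X) (c : RCfg (glue M a b).Q w X)
    (h : ReflTransGen ((glue M a b).Step w) ⟨Sum.inl i, ⟨0, by omega⟩, p⟩ c) :
    (∃ t, c.q = Sum.inl t ∧ ReflTransGen (TStep ρ w) (i, p) (t, c.tp)) ∨
    (∃ x q, c.q = Sum.inr ⟨x, q⟩ ∧ ∃ p0, ReflTransGen (TStep ρ w) (i, p) (x.1, p0) ∧
      ReflTransGen ((M x).Step w) ⟨a x, ⟨0, by omega⟩, p0⟩ ⟨q, c.pos, c.tp⟩) := by
  induction h with
  | refl => exact Or.inl ⟨i, rfl, .refl⟩
  | @tail c c' _ hs ih =>
    obtain ⟨t, ht, rfl⟩ := hs
    obtain ⟨q, k, y⟩ := c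
    rcases q with u | ⟨x, q⟩
    · obtain ⟨hs, j, rfl⟩ := ht
      simp only at hs
      have hk : k = ⟨0, by omega⟩ := Fin.ext (symAt_left.1 hs)
      subst hk
      rcases ih with ⟨t, h4, h5⟩ | ⟨y', q', h4, _⟩
      · have h6 : u = t := Sum.inl.inj h4
        subst h6
        refine Or.inr ⟨(u, j), _, rfl, y, h5, ?_⟩
        simp only [Function.update_eq_self, mv, Dir.move]
        exact .refl
      · exact absurd h4 (by simp)
    · rcases ih with ⟨t, h4, _⟩ | ⟨y', q', h4, p0, h5, h6⟩
      · exact absurd h4 (by simp)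
      · have h7 : (⟨x, q⟩ : Σ x : T × T, (M x).Q) = ⟨y', q'⟩ := Sum.inr.inj h4
        obtain rfl : x = y' := congrArg Sigma.fst h7
        have h8 : q = q' := eq_of_heq (Sigma.mk.inj h7).2
        subst h8
        rcases ht with ⟨hs, hq, rfl⟩ | ⟨u, hu, rfl⟩
        · simp only at hs
          have hk : k = ⟨0, by omega⟩ := Fin.ext (symAt_left.1 hs)
          subst hk
          subst hq
          refine Or.inl ⟨x.2, rfl, h5.tail ?_⟩
          simp only [Function.update_eq_self]
          exact (hM x w p0 y).1 h6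
        · exact Or.inr ⟨x, u.1, rfl, p0, h5, h6.tail ⟨u, hu, rfl⟩⟩

theorem real_auto (i f : T) (ρ : T → T → Rel α X) (h : ∀ t t', Real (ρ t t')) :
    Real (fun (w : List α) p p' => ReflTransGen (TStep ρ w) (i, p) (f, p')) := by
  have h' : ∀ x : T × T, Real (ρ x.1 x.2) := fun x => h x.1 x.2
  choose M a b hM using h'
  refine ⟨glue M a b, Sum.inl i, Sum.inl f, fun w p p' => ⟨fun hr => ?_, fun hr => ?_⟩⟩
  · rcases glue_sound M a b i ρ hM w p _ hr with ⟨t, h1, h2⟩ | ⟨x, q, h1, _⟩
    · have := Sum.inl.inj h1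
      subst this
      exact h2
    · exact absurd h1 (by simp)
  · have key : ∀ c c' : T × Tp w X, TStep ρ w c c' →
        ReflTransGen ((glue M a b).Step w) ⟨Sum.inl c.1, ⟨0, by omega⟩, c.2⟩
          ⟨Sum.inl c'.1, ⟨0, by omega⟩, c'.2⟩ := by
      rintro ⟨t, p⟩ ⟨t', p'⟩ hs
      have h1 := (hM (t, t') w p p').2 hs
      have h2 : ∀ d d' : RCfg (M (t, t')).Q w X, (M (t, t')).Step w d d' →
          (glue M a b).Step w ⟨Sum.inr ⟨(t, t'), d.q⟩, d.pos, d.tp⟩
            ⟨Sum.inr ⟨(t, t'), d'.q⟩, d'.pos, d'.tp⟩ := by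
        rintro d d' ⟨u, hu, rfl⟩
        exact ⟨(Sum.inr ⟨(t, t'), u.1⟩, u.2.1, u.2.2), Or.inr ⟨u, hu, rfl⟩, rfl⟩
      have h3 := ReflTransGen.lift (fun d : RCfg (M (t, t')).Q w X =>
          (⟨Sum.inr ⟨(t, t'), d.q⟩, d.pos, d.tp⟩ : RCfg (glue M a b).Q w X)) h2 _ _ h1
      have e1 : (glue M a b).Step w ⟨Sum.inl t, ⟨0, by omega⟩, p⟩
          ⟨Sum.inr ⟨(t, t'), a (t, t')⟩, ⟨0, by omega⟩, p⟩ := by
        refine ⟨(Sum.inr ⟨(t, t'), a (t, t')⟩, p ⟨0, by omega⟩, Dir.S),
          ⟨symAt_left.2 rfl, t', rfl⟩, ?_⟩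
        simp [mv, Dir.move]
      have e2 : (glue M a b).Step w ⟨Sum.inr ⟨(t, t'), b (t, t')⟩, ⟨0, by omega⟩, p'⟩
          ⟨Sum.inl t', ⟨0, by omega⟩, p'⟩ := by
        refine ⟨(Sum.inl t', p' ⟨0, by omega⟩, Dir.S),
          Or.inl ⟨symAt_left.2 rfl, rfl, rfl⟩, ?_⟩
        simp [mv, Dir.move]
      exact (ReflTransGen.head e1 h3).tail e2
    have h2 : ∀ c c' : T × Tp w X, ReflTransGen (TStep ρ w) c c' →
        ReflTransGen ((glue M a b).Step w) ⟨Sum.inl c.1, ⟨0, by omega⟩, c.2⟩
          ⟨Sum.inl c'.1, ⟨0, by omega⟩, c'.2⟩ := by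
      intro c c' hc
      induction hc with
      | refl => exact .refl
      | tail _ hs ih => exact ih.trans (key _ _ hs)
    exact h2 _ _ hr

end auto

/-- all these relations are computed by machines -/
theorem Impl.real [Finite X] {r : Rel α X} (h : Impl r) : Real r := by
  induction h with
  | loc E => exact real_loc
  | auto i f ρ _ ih => exact real_auto i f ρ ih

/-! ### The languages -/

section lang

variable (M : RM α X) (a b : M.Q) (y0 : X)

/-- the linear space machine -/
def toLT [Finite X] : LT α Empty where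
  Q := Option M.Q
  finQ := by have := M.finQ; infer_instance
  B := X
  finB := inferInstance
  blank := y0
  init := some a
  acc := {none}
  step q s y := {t | ∃ q', q = some q' ∧
    ((s = Sym.left ∧ q' = b ∧ t = (none, y, Dir.S, none)) ∨
      ∃ u ∈ M.step q' s y, t = (some u.1, u.2.1, u.2.2, none))}

/-- corresponding configurations -/
def LRel {w : List α} (c : LCfg (Option M.Q) X Empty) (d : RCfg M.Q w X) : Prop :=
  c.q = some d.q ∧ c.pos = d.pos ∧ ∀ i : Fin (w.length + 2), c.tp i = d.tp i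

variable {M a b y0}

theorem lrel_step [Finite X] {w : List α} {c c' : LCfg (Option M.Q) X Empty}
    {d : RCfg M.Q w X} (h : LRel M c d) (hs : (toLT M a b y0).Step w c c') :
    (∃ d', M.Step w d d' ∧ LRel M c' d') ∨ (c'.q = none ∧ (d.pos : ℕ) = 0 ∧ d.q = b) := by
  obtain ⟨q, i, y⟩ := d
  obtain ⟨q', i', y', o⟩ := c
  obtain ⟨h1, h2, h3⟩ := h
  simp only at h1 h2 h3
  subst h1 h2
  obtain ⟨t, ⟨q', hq, ht⟩, rfl⟩ := hs
  simp only [Option.some.injEq] at hq
  subst hq
  rcases ht with ⟨h4, h5, rfl⟩ | ⟨u, hu, rfl⟩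
  · exact Or.inr ⟨rfl, symAt_left.1 h4, h5⟩
  · left
    simp only at hu
    rw [h3] at hu
    refine ⟨_, ⟨u, hu, rfl⟩, rfl, rfl, fun j => ?_⟩
    simp only
    by_cases hj : j = i
    · subst hj; rw [Function.update_self, Function.update_self]
    · rw [Function.update_of_ne hj, Function.update_of_ne (fun h => hj (Fin.ext h))]
      exact h3 j

theorem lrel_step' [Finite X] {w : List α} {c : LCfg (Option M.Q) X Empty}
    {d d' : RCfg M.Q w X} (h : LRel M c d) (hs : M.Step w d d') :
    ∃ c', (toLT M a b y0).Step w c c' ∧ LRel M c' d' := by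
  obtain ⟨q, i, y⟩ := d
  obtain ⟨q', i', y', o⟩ := c
  obtain ⟨h1, h2, h3⟩ := h
  simp only at h1 h2 h3
  subst h1 h2
  obtain ⟨u, hu, rfl⟩ := hs
  simp only at hu
  rw [← h3] at hu
  refine ⟨_, ⟨(some u.1, u.2.1, u.2.2, none), ⟨q, rfl, Or.inr ⟨u, hu, rfl⟩⟩, rfl⟩, rfl, rfl,
    fun j => ?_⟩
  simp only
  by_cases hj : j = i
  · subst hj; rw [Function.update_self, Function.update_self]
  · rw [Function.update_of_ne hj, Function.update_of_ne (fun h => hj (Fin.ext h))]
    exact h3 j

theorem out_toLT [Finite X] (w : List α) : (∃ v, (toLT M a b y0).Out w v) ↔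
    ∃ x' : Tp w X, ReflTransGen (M.Step w) ⟨a, ⟨0, by omega⟩, fun _ => y0⟩
      ⟨b, ⟨0, by omega⟩, x'⟩ := by
  constructor
  · rintro ⟨v, c, hc, hacc, _⟩
    have key : ∀ c, ReflTransGen ((toLT M a b y0).Step w) (toLT M a b y0).start c →
        (∃ d, ReflTransGen (M.Step w) ⟨a, ⟨0, by omega⟩, fun _ => y0⟩ d ∧ LRel M c d) ∨
        (c.q = none ∧ ∃ x' : Tp w X, ReflTransGen (M.Step w) ⟨a, ⟨0, by omega⟩, fun _ => y0⟩
      ⟨b, ⟨0, by omega⟩, x'⟩) := by
      intro c hc
      induction hc with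
      | refl => exact Or.inl ⟨_, .refl, rfl, rfl, fun _ => rfl⟩
      | @tail c c' _ hs ih =>
        rcases ih with ⟨d, h1, h2⟩ | ⟨h1, h2⟩
        · rcases lrel_step h2 hs with ⟨d', h3, h4⟩ | ⟨h3, h4, h5⟩
          · exact Or.inl ⟨d', h1.tail h3, h4⟩
          · refine Or.inr ⟨h3, d.tp, ?_⟩
            have : d = ⟨b, ⟨0, by omega⟩, d.tp⟩ := by
              ext1
              · exact h5
              · exact Fin.ext h4
              · rfl
            rw [← this]
            exact h1
        · obtain ⟨t, ⟨q', hq, _⟩, _⟩ := hs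
          rw [h1] at hq
          exact absurd hq (by simp)
    have hq : c.q = none := hacc
    rcases key c hc with ⟨d, _, h1, _⟩ | ⟨_, h1⟩
    · rw [hq] at h1
      exact absurd h1 (by simp)
    · exact h1
  · rintro ⟨x', hx⟩
    obtain ⟨c, hc, hP⟩ : ∃ c, ReflTransGen ((toLT M a b y0).Step w) (toLT M a b y0).start c ∧
        LRel M c (⟨b, ⟨0, by omega⟩, x'⟩ : RCfg M.Q w X) := by
      have key : ∀ d, ReflTransGen (M.Step w) ⟨a, ⟨0, by omega⟩, fun _ => y0⟩ d →
          ∃ c, ReflTransGen ((toLT M a b y0).Step w) (toLT M a b y0).start c ∧ LRel M c d := by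
        intro d hd
        induction hd with
        | refl => exact ⟨_, .refl, rfl, rfl, fun _ => rfl⟩
        | tail _ hs ih =>
          obtain ⟨c, h1, h2⟩ := ih
          obtain ⟨c', h3, h4⟩ := lrel_step' h2 hs
          exact ⟨c', h1.tail h3, h4⟩
      exact key _ hx
    obtain ⟨q, i, y, o⟩ := c
    obtain ⟨h1, h2, h3⟩ := hP
    simp only at h1 h2 h3
    subst h1 h2
    refine ⟨o, ⟨none, 0, Function.update y 0 (y 0), o⟩, hc.tail ?_, rfl, rfl⟩
    refine ⟨(none, y 0, Dir.S, none), ⟨b, rfl, Or.inl ⟨symAt_left.2 rfl, rfl, rfl⟩⟩, ?_⟩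
    simp [Dir.move]

end lang

/-- **The languages defined by such properties.** -/
theorem IsLS.nspace {P : ∀ w : List α, Tp w Unit → Prop} (hP : IsLS P) :
    {w | P w fun _ => ()} ∈ nspace α := by
  obtain ⟨Y, _, ⟨y0⟩, r, hr, h1, h2⟩ := hP
  obtain ⟨M, a, b, hM⟩ := hr.real
  refine ⟨toLT M a b ((), y0), ?_⟩
  ext w
  change P w (fun _ => ()) ↔ ∃ v, (toLT M a b ((), y0)).Out w v
  rw [out_toLT]
  constructor
  · intro h
    obtain ⟨z', hz⟩ := h2 w (fun _ => ((), y0)) h
    exact ⟨z', (hM w _ _).2 hz⟩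
  · rintro ⟨x', hx⟩
    exact (h1 w _ _ ((hM w _ _).1 hx)).2

end Pool.Agent.V8H47.LB
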