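import Pool.Agent.V8H47.LB.Counter
import Pool.Agent.V8H47.NLK.Types

/-!
# The relations `Vk` are verified in linear space
-/

namespace Pool.Agent.V8H47.LB

open Relation Pool.Agent.V8H47.MH Pool.Agent.V8H47.NLK

variable {α C G S : Type}

/-- binary relations between configurations (state, content of the tape) -/
def LS2 (J : ∀ w : List α, C × Tp w G → C × Tp w G → Prop) : Prop :=
  ∀ c c', IsLS (fun (w : List α) (x : Tp w (G × G)) =>
    J w (c, fun i => (x i).1) (c', fun i => (x i).2))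

theorem LS2.at [Finite G] [Nonempty G] {X : Type}
    {J : ∀ w : List α, C × Tp w G → C × Tp w G → Prop} (h : LS2 J) (c c' : C) (f g : X → G) :
    IsLS (fun (w : List α) (x : Tp w X) =>
      J w (c, fun i => f (x i)) (c', fun i => g (x i))) :=
  (h c c').reindex (fun b => (f b, g b))

/-- a family of pushdown systems, one for each input word, whose steps are verified -/
structure LSSys (P : ∀ w : List α, TPS (C × Tp w G) S) : Prop where
  N : LS2 (fun w => (P w).N)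
  U : ∀ s, LS2 (fun w => (P w).U s)
  O : ∀ s, LS2 (fun w => (P w).O s)

variable {P : ∀ w : List α, TPS (C × Tp w G) S}

section cstep

variable (P) (J : ∀ w : List α, C × Tp w G → C × Tp w G → Prop) (k p : ℕ) (f : ℕ → Option S)

/-- the steps of a counter machine, with the counter written on a track -/
def PC (t t' : C × Fin p) (w : List α)
    (x : Tp w (Unit × ((G × Fin (k + 2)) × (G × Fin (k + 2))))) : Prop :=
  ((P w).N (t.1, fun i => (x i).2.1.1) (t'.1, fun i => (x i).2.2.1) ∧ t'.2 = t.2 ∧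
    (fun i => (x i).2.2.2) = fun i => (x i).2.1.2) ∨
  (∃ s, ((f t.2 = some s ∧ (t'.2 : ℕ) = (t.2 + 1) % p) ∧
    (P w).U s (t.1, fun i => (x i).2.1.1) (t'.1, fun i => (x i).2.2.1) ∧
    val (fun i => (x i).2.2.2) = val (fun i => (x i).2.1.2) + 1)) ∨
  (∃ s, ((f t'.2 = some s ∧ (t.2 : ℕ) = (t'.2 + 1) % p) ∧
    (P w).O s (t.1, fun i => (x i).2.1.1) (t'.1, fun i => (x i).2.2.1) ∧
    val (fun i => (x i).2.1.2) = val (fun i => (x i).2.2.2) + 1)) ∨
  (J w (t.1, fun i => (x i).2.1.1) (t'.1, fun i => (x i).2.2.1) ∧ t'.2 = t.2 ∧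
    (fun i => (x i).2.2.2) = fun i => (x i).2.1.2) ∨
  (∃ s, ∃ cc : C × C, ∃ a : Tp w (G × G),
    ((P w).U s (t.1, fun i => (x i).2.1.1) (cc.1, fun i => (a i).1) ∧
      J w (cc.1, fun i => (a i).1) (cc.2, fun i => (a i).2) ∧
      (P w).O s (cc.2, fun i => (a i).2) (t'.1, fun i => (x i).2.2.1) ∧ t'.2 = t.2 ∧
      (fun i => (x i).2.2.2) = fun i => (x i).2.1.2))

variable {P J}

theorem PC_isLS [Finite C] [Finite S] [Finite G] [Nonempty G] (hP : LSSys P) (hJ : LS2 J)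
    (t t' : C × Fin p) : IsLS (PC P J k p f t t') := by
  have hsame : IsLS (fun (w : List α)
      (x : Tp w (Unit × ((G × Fin (k + 2)) × (G × Fin (k + 2))))) =>
      t'.2 = t.2 ∧ (fun i => (x i).2.2.2) = fun i => (x i).2.1.2) :=
    (IsLS.const _).and (IsLS.eq (fun a : Unit × ((G × Fin (k + 2)) × (G × Fin (k + 2))) =>
      a.2.2.2) (fun a => a.2.1.2))
  refine IsLS.or ?_ (IsLS.or ?_ (IsLS.or ?_ (IsLS.or ?_ ?_)))
  · exact (hP.N.at _ _ (fun a : Unit × ((G × Fin (k + 2)) × (G × Fin (k + 2))) => a.2.1.1)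
      (fun a => a.2.2.1)).and hsame
  · exact IsLS.iExists (fun s => (IsLS.const _).and (((hP.U s).at _ _
      (fun a : Unit × ((G × Fin (k + 2)) × (G × Fin (k + 2))) => a.2.1.1)
      (fun a => a.2.2.1)).and ((IsLS.succ k).reindex
        (fun a : Unit × ((G × Fin (k + 2)) × (G × Fin (k + 2))) => (a.2.1.2, a.2.2.2)))))
  · exact IsLS.iExists (fun s => (IsLS.const _).and (((hP.O s).at _ _
      (fun a : Unit × ((G × Fin (k + 2)) × (G × Fin (k + 2))) => a.2.1.1)
      (fun a => a.2.2.1)).and ((IsLS.succ k).reindex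
        (fun a : Unit × ((G × Fin (k + 2)) × (G × Fin (k + 2))) => (a.2.2.2, a.2.1.2)))))
  · exact (hJ.at _ _ (fun a : Unit × ((G × Fin (k + 2)) × (G × Fin (k + 2))) => a.2.1.1)
      (fun a => a.2.2.1)).and hsame
  · refine IsLS.iExists (fun s => IsLS.iExists (fun cc => ?_))
    refine IsLS.ex (Z := G × G) (P := fun (w : List α)
      (x : Tp w ((Unit × ((G × Fin (k + 2)) × (G × Fin (k + 2)))) × (G × G))) =>
      (P w).U s (t.1, fun i => (x i).1.2.1.1) (cc.1, fun i => (x i).2.1) ∧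
      J w (cc.1, fun i => (x i).2.1) (cc.2, fun i => (x i).2.2) ∧
      (P w).O s (cc.2, fun i => (x i).2.2) (t'.1, fun i => (x i).1.2.2.1) ∧ t'.2 = t.2 ∧
      (fun i => (x i).1.2.2.2) = fun i => (x i).1.2.1.2) ?_
    exact ((hP.U s).at _ _ (fun a : (Unit × ((G × Fin (k + 2)) × (G × Fin (k + 2)))) × (G × G) =>
        a.1.2.1.1) (fun a => a.2.1)).and
      ((hJ.at _ _ (fun a : (Unit × ((G × Fin (k + 2)) × (G × Fin (k + 2)))) × (G × G) =>
        a.2.1) (fun a => a.2.2)).and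
      (((hP.O s).at _ _ (fun a : (Unit × ((G × Fin (k + 2)) × (G × Fin (k + 2)))) × (G × G) =>
        a.2.2) (fun a => a.1.2.2.1)).and
      ((IsLS.const _).and (IsLS.eq
        (fun a : (Unit × ((G × Fin (k + 2)) × (G × Fin (k + 2)))) × (G × G) => a.1.2.2.2)
        (fun a => a.1.2.1.2)))))

/-- the configuration with a counter -/
def cfgC {w : List α} (c : (C × Fin p) × Tp w (G × Fin (k + 2))) : (C × Tp w G) × ℕ :=
  ((c.1.1, fun i => (c.2 i).1), val (fun i => (c.2 i).2))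

theorem PC_sound (hf : ∀ m, f m = f (m % p)) {w : List α} {ve : Tp w Unit}
    {c c' : (C × Fin p) × Tp w (G × Fin (k + 2))}
    (h : ReflTransGen (GStep (PC P J k p f) w ve) c c')
    (hr : (c.1.2 : ℕ) = val (fun i => (c.2 i).2) % p) :
    (c'.1.2 : ℕ) = val (fun i => (c'.2 i).2) % p ∧
    ReflTransGen ((P w).CStep (J w) ((k + 2) ^ (w.length + 2)) f) (cfgC k p c)
      (cfgC k p c') := by
  induction h with
  | refl => exact ⟨hr, .refl⟩
  | @tail b c' _ hs ih =>
    obtain ⟨i2, i3⟩ := ih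
    obtain ⟨⟨t, r⟩, u⟩ := b
    obtain ⟨⟨t', r'⟩, u'⟩ := c'
    simp only [GStep, PC] at hs i2
    have hlt : val (fun i => (u i).2) < (k + 2) ^ (w.length + 2) := val_lt _
    have hlt' : val (fun i => (u' i).2) < (k + 2) ^ (w.length + 2) := val_lt _
    simp only
    rcases hs with ⟨g1, g2, g3⟩ | ⟨s, ⟨g1, g2⟩, g3, g4⟩ | ⟨s, ⟨g1, g2⟩, g3, g4⟩ | ⟨g1, g2, g3⟩ |
      ⟨s, cc, a, g1, g2, g3, g4, g5⟩
    · refine ⟨by rw [g3, g2]; exact i2, i3.tail (Or.inl ⟨g1, ?_⟩)⟩
      simp only [cfgC, g3]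
    · have er : (r' : ℕ) = val (fun i => (u' i).2) % p := by
        rw [g4, g2, i2, Nat.mod_add_mod]
      refine ⟨er, i3.tail (Or.inr (Or.inl ⟨s, ?_, g3, ?_, ?_⟩))⟩
      · simp only [cfgC]; rw [hf, ← i2]; exact g1
      · simp only [cfgC]; exact g4
      · simp only [cfgC]; exact hlt'
    · have hr' : (r' : ℕ) = val (fun i => (u' i).2) % p := by
        have h5 : ((r' : ℕ) + 1) % p = (val (fun i => (u' i).2) + 1) % p := by
          rw [← g2, i2, g4]
        have h6 : (r' : ℕ) % p = val (fun i => (u' i).2) % p :=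
          Nat.ModEq.add_right_cancel' 1 h5
        rwa [Nat.mod_eq_of_lt r'.2] at h6
      refine ⟨hr', i3.tail (Or.inr (Or.inr (Or.inl ⟨s, ?_, g3, ?_, ?_⟩)))⟩
      · simp only [cfgC]; rw [hf, ← hr']; exact g1
      · simp only [cfgC]; exact g4
      · simp only [cfgC]; exact hlt
    · refine ⟨by rw [g3, g2]; exact i2,
        i3.tail (Or.inr (Or.inr (Or.inr (Or.inl ⟨g1, ?_⟩))))⟩
      simp only [cfgC, g3]
    · refine ⟨by rw [g5, g4]; exact i2,
        i3.tail (Or.inr (Or.inr (Or.inr (Or.inr ⟨s, _, _, g1, g2, g3, ?_⟩))))⟩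
      simp only [cfgC, g5]

/-- the configuration of the machine -/
def cfgG {w : List α} (hp : 0 < p) (c : (C × Tp w G) × ℕ) :
    (C × Fin p) × Tp w (G × Fin (k + 2)) :=
  ((c.1.1, ⟨c.2 % p, Nat.mod_lt _ hp⟩), fun i => (c.1.2 i, dig k (w.length + 2) c.2 i))

theorem PC_complete (hp : 0 < p) (hf : ∀ m, f m = f (m % p)) {w : List α} {ve : Tp w Unit}
    {c c' : (C × Tp w G) × ℕ}
    (h : ReflTransGen ((P w).CStep (J w) ((k + 2) ^ (w.length + 2)) f) c c') :
    ReflTransGen (GStep (PC P J k p f) w ve) (cfgG k p hp c) (cfgG k p hp c') := by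
  induction h with
  | refl => exact .refl
  | @tail b c' _ hs ih =>
    refine ih.tail ?_
    obtain ⟨⟨t, i⟩, m⟩ := b
    obtain ⟨⟨t', i'⟩, m'⟩ := c'
    simp only [GStep, PC, cfgG]
    rcases hs with ⟨h1, h2⟩ | ⟨s, h0, h1, h2, h3⟩ | ⟨s, h0, h1, h2, h3⟩ | ⟨h1, h2⟩ |
      ⟨s, u, v, h1, h2, h3, h4⟩
    · simp only at h2
      subst h2
      exact Or.inl ⟨h1, rfl, rfl⟩
    · simp only at h0 h1 h2 h3
      subst h2
      refine Or.inr (Or.inl ⟨s, ⟨?_, ?_⟩, h1, ?_⟩)
      · rw [← hf]; exact h0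
      · rw [Nat.mod_add_mod]
      · rw [val_dig h3, val_dig (by omega)]
    · simp only at h0 h1 h2 h3
      subst h2
      refine Or.inr (Or.inr (Or.inl ⟨s, ⟨?_, ?_⟩, h1, ?_⟩))
      · rw [← hf]; exact h0
      · rw [Nat.mod_add_mod]
      · rw [val_dig h3, val_dig (by omega)]
    · simp only at h2
      subst h2
      exact Or.inr (Or.inr (Or.inr (Or.inl ⟨h1, rfl, rfl⟩)))
    · simp only at h4
      subst h4
      exact Or.inr (Or.inr (Or.inr (Or.inr ⟨s, (u.1, v.1), fun i => (u.2 i, v.2 i),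
        h1, h2, h3, rfl, rfl⟩)))

theorem CStep_LS2 [Finite C] [Finite S] [Finite G] [Nonempty G] (hP : LSSys P) (hJ : LS2 J)
    (hp : 0 < p) (hf : ∀ m, f m = f (m % p)) :
    LS2 (fun w x y =>
      ReflTransGen ((P w).CStep (J w) ((k + 2) ^ (w.length + 2)) f) (x, 0) (y, 0)) := by
  intro c c'
  have h1 := IsLS.tc (A := Unit) (K := G × Fin (k + 2)) (fun t t' => PC_isLS k p f hP hJ t t')
    (c, (⟨0, hp⟩ : Fin p)) (c', (⟨0, hp⟩ : Fin p))
  have h2 := h1.reindex (fun x : G × G => ((), ((x.1, (0 : Fin (k + 2))), (x.2, 0))))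
  refine h2.congr (fun w x => ?_)
  constructor
  · intro h3
    have e1 := (PC_sound k p f hf h3 (by
      simp only
      rw [val_zero]
      simp)).2
    simp only [cfgC] at e1
    rw [val_zero] at e1
    exact e1
  · intro h3
    have e1 := PC_complete k p f (ve := fun _ => ()) hp hf h3
    simp only [cfgG, Nat.zero_mod, dig_zero] at e1
    exact e1

end cstep

section sstep

variable (P) (J : ∀ w : List α, C × Tp w G → C × Tp w G → Prop)

/-- the steps along a spine -/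
def PS (t t' : C × C) (w : List α) (x : Tp w (Unit × ((G × G) × (G × G)))) : Prop :=
  ((P w).N (t.1, fun i => (x i).2.1.1) (t'.1, fun i => (x i).2.2.1) ∧
    t'.2 = t.2 ∧ (fun i => (x i).2.2.2) = fun i => (x i).2.1.2) ∨
  (J w (t.1, fun i => (x i).2.1.1) (t'.1, fun i => (x i).2.2.1) ∧
    t'.2 = t.2 ∧ (fun i => (x i).2.2.2) = fun i => (x i).2.1.2) ∨
  (∃ s, ∃ cc : C × C, ∃ a : Tp w (G × G),
    ((P w).U s (t.1, fun i => (x i).2.1.1) (cc.1, fun i => (a i).1) ∧
      J w (cc.1, fun i => (a i).1) (cc.2, fun i => (a i).2) ∧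
      (P w).O s (cc.2, fun i => (a i).2) (t'.1, fun i => (x i).2.2.1) ∧
      t'.2 = t.2 ∧ (fun i => (x i).2.2.2) = fun i => (x i).2.1.2)) ∨
  (∃ s, ∃ cy : C, ∃ a : Tp w G,
    ((P w).U s (t.1, fun i => (x i).2.1.1) (t'.1, fun i => (x i).2.2.1) ∧
      (P w).O s (t'.2, fun i => (x i).2.2.2) (cy, a) ∧
      J w (cy, a) (t.2, fun i => (x i).2.1.2)))

variable {P J}

theorem PS_isLS [Finite C] [Finite S] [Finite G] [Nonempty G] (hP : LSSys P) (hJ : LS2 J)
    (t t' : C × C) : IsLS (PS P J t t') := by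
  have hsame : IsLS (fun (w : List α) (x : Tp w (Unit × ((G × G) × (G × G)))) =>
      t'.2 = t.2 ∧ (fun i => (x i).2.2.2) = fun i => (x i).2.1.2) :=
    (IsLS.const _).and (IsLS.eq (fun a : Unit × ((G × G) × (G × G)) =>
      a.2.2.2) (fun a => a.2.1.2))
  refine IsLS.or ?_ (IsLS.or ?_ (IsLS.or ?_ ?_))
  · exact (hP.N.at _ _ (fun a : Unit × ((G × G) × (G × G)) => a.2.1.1)
      (fun a => a.2.2.1)).and hsame
  · exact (hJ.at _ _ (fun a : Unit × ((G × G) × (G × G)) => a.2.1.1)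
      (fun a => a.2.2.1)).and hsame
  · refine IsLS.iExists (fun s => IsLS.iExists (fun cc => ?_))
    refine IsLS.ex (Z := G × G) (P := fun (w : List α)
      (x : Tp w ((Unit × ((G × G) × (G × G))) × (G × G))) =>
      (P w).U s (t.1, fun i => (x i).1.2.1.1) (cc.1, fun i => (x i).2.1) ∧
      J w (cc.1, fun i => (x i).2.1) (cc.2, fun i => (x i).2.2) ∧
      (P w).O s (cc.2, fun i => (x i).2.2) (t'.1, fun i => (x i).1.2.2.1) ∧ t'.2 = t.2 ∧
      (fun i => (x i).1.2.2.2) = fun i => (x i).1.2.1.2) ?_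
    exact ((hP.U s).at _ _ (fun a : (Unit × ((G × G) × (G × G))) × (G × G) =>
        a.1.2.1.1) (fun a => a.2.1)).and
      ((hJ.at _ _ (fun a : (Unit × ((G × G) × (G × G))) × (G × G) =>
        a.2.1) (fun a => a.2.2)).and
      (((hP.O s).at _ _ (fun a : (Unit × ((G × G) × (G × G))) × (G × G) =>
        a.2.2) (fun a => a.1.2.2.1)).and
      ((IsLS.const _).and (IsLS.eq
        (fun a : (Unit × ((G × G) × (G × G))) × (G × G) => a.1.2.2.2)
        (fun a => a.1.2.1.2)))))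
  · refine IsLS.iExists (fun s => IsLS.iExists (fun cy => ?_))
    refine IsLS.ex (Z := G) (P := fun (w : List α)
      (x : Tp w ((Unit × ((G × G) × (G × G))) × G)) =>
      (P w).U s (t.1, fun i => (x i).1.2.1.1) (t'.1, fun i => (x i).1.2.2.1) ∧
      (P w).O s (t'.2, fun i => (x i).1.2.2.2) (cy, fun i => (x i).2) ∧
      J w (cy, fun i => (x i).2) (t.2, fun i => (x i).1.2.1.2)) ?_
    exact ((hP.U s).at _ _ (fun a : (Unit × ((G × G) × (G × G))) × G =>
        a.1.2.1.1) (fun a => a.1.2.2.1)).and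
      (((hP.O s).at _ _ (fun a : (Unit × ((G × G) × (G × G))) × G =>
        a.1.2.2.2) (fun a => a.2)).and
      (hJ.at _ _ (fun a : (Unit × ((G × G) × (G × G))) × G =>
        a.2) (fun a => a.1.2.1.2)))

/-- the pair of configurations -/
def cfgS {w : List α} (c : (C × C) × Tp w (G × G)) : (C × Tp w G) × (C × Tp w G) :=
  ((c.1.1, fun i => (c.2 i).1), (c.1.2, fun i => (c.2 i).2))

/-- the configuration of the machine -/
def cfgT {w : List α} (c : (C × Tp w G) × (C × Tp w G)) : (C × C) × Tp w (G × G) :=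
  ((c.1.1, c.2.1), fun i => (c.1.2 i, c.2.2 i))

theorem PS_sound {w : List α} {ve : Tp w Unit} {c c' : (C × C) × Tp w (G × G)}
    (h : ReflTransGen (GStep (PS P J) w ve) c c') :
    ReflTransGen ((P w).SStep (J w)) (cfgS c) (cfgS c') := by
  induction h with
  | refl => exact .refl
  | @tail b c' _ hs ih =>
    obtain ⟨⟨t, r⟩, u⟩ := b
    obtain ⟨⟨t', r'⟩, u'⟩ := c'
    simp only [GStep, PS] at hs
    refine ih.tail ?_
    rcases hs with ⟨g1, g2, g3⟩ | ⟨g1, g2, g3⟩ | ⟨s, cc, a, g1, g2, g3, g4, g5⟩ |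
      ⟨s, cy, a, g1, g2, g3⟩
    · exact Or.inl ⟨g1, by simp only [cfgS, g2, g3]⟩
    · exact Or.inr (Or.inl ⟨g1, by simp only [cfgS, g2, g3]⟩)
    · exact Or.inr (Or.inr (Or.inl ⟨s, _, _, g1, g2, g3, by simp only [cfgS, g4, g5]⟩))
    · exact Or.inr (Or.inr (Or.inr ⟨s, _, g1, g2, g3⟩))

theorem PS_complete {w : List α} {ve : Tp w Unit} {c c' : (C × Tp w G) × (C × Tp w G)}
    (h : ReflTransGen ((P w).SStep (J w)) c c') :
    ReflTransGen (GStep (PS P J) w ve) (cfgT c) (cfgT c') := by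
  induction h with
  | refl => exact .refl
  | @tail b c' hr hs ih =>
    refine ih.tail ?_
    obtain ⟨⟨t, i⟩, ⟨r, j⟩⟩ := b
    obtain ⟨⟨t', i'⟩, ⟨r', j'⟩⟩ := c'
    simp only [GStep, PS, cfgT]
    rcases hs with ⟨h1, h2⟩ | ⟨h1, h2⟩ | ⟨s, u, v, h1, h2, h3, h4⟩ | ⟨s, y, h1, h2, h3⟩
    · simp only [Prod.mk.injEq] at h2
      exact Or.inl ⟨h1, h2.1, h2.2⟩
    · simp only [Prod.mk.injEq] at h2
      exact Or.inr (Or.inl ⟨h1, h2.1, h2.2⟩)
    · simp only [Prod.mk.injEq] at h4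
      exact Or.inr (Or.inr (Or.inl ⟨s, (u.1, v.1), fun i => (u.2 i, v.2 i),
        h1, h2, h3, h4.1, h4.2⟩))
    · exact Or.inr (Or.inr (Or.inr ⟨s, y.1, y.2, h1, h2, h3⟩))

theorem SStep_LS2 [Finite C] [Finite S] [Finite G] [Nonempty G] (hP : LSSys P) (hJ : LS2 J) :
    LS2 (fun w x y => ∃ z, ReflTransGen ((P w).SStep (J w)) (x, y) (z, z)) := by
  intro c c'
  have h1 := fun cz : C => IsLS.tc (A := Unit) (K := G × G)
    (fun t t' => PS_isLS (P := P) (J := J) hP hJ t t') (c, c') (cz, cz)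
  have h2 := fun cz => (h1 cz).reindex
    (fun x : (G × G) × G => ((), ((x.1.1, x.1.2), (x.2, x.2))))
  have h3 := fun cz => IsLS.ex (h2 cz)
  refine (IsLS.iExists h3).congr (fun w x => ?_)
  constructor
  · rintro ⟨cz, a, h4⟩
    have e1 := PS_sound h4
    exact ⟨(cz, a), e1⟩
  · rintro ⟨z, h4⟩
    exact ⟨z.1, z.2, PS_complete (ve := fun _ => ()) h4⟩

end sstep

/-- **The relations `Vk` are verified in linear space.** -/
theorem Vk_LS2 [Finite C] [Finite S] [Finite G] [Nonempty G] {I : Type} [Finite I]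
    (hP : LSSys P) (k : ℕ) (g : I → ℕ → Option S)
    (hg : ∀ i, ∃ p, 0 < p ∧ ∀ m, g i m = g i (m % p)) : ∀ n,
    LS2 (fun w => (P w).Vk ((k + 2) ^ (w.length + 2)) g n) := by
  intro n
  induction n with
  | zero =>
    intro c c'
    by_cases h : c = c'
    · refine (IsLS.eq (fun a : G × G => a.1) (fun a => a.2)).congr (fun w x => ?_)
      simp [TPS.Vk, h]
    · refine (IsLS.const False).congr (fun w x => ?_)
      simp [TPS.Vk, h]
  | succ n ih =>
    intro c c'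
    refine IsLS.or ?_ ?_
    · refine IsLS.iExists (fun i => ?_)
      obtain ⟨p, hp, hf⟩ := hg i
      exact CStep_LS2 k p (g i) hP ih hp hf c c'
    · exact SStep_LS2 hP ih c c'

end Pool.Agent.V8H47.LB
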