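import Pool.Agent.V8H47.LB.Real
import Pool.Agent.V8H47.LB.VkLS
import Pool.Agent.V8H47.NLK.RichOf
import Pool.Agent.V8H47.MH.Block

/-!
# Linear space machines whose output is in `D ∩ R`, for languages `R` that are not rich
-/

namespace Pool.Agent.V8H47.LB

open Relation Pool.Agent.V8H47.MH Pool.Agent.V8H47.NLK

variable {α : Type}

/-! ### Positions on tracks -/

/-- a position as a track -/
def hot {n : ℕ} (p : Fin (n + 2)) : Fin (n + 2) → Bool := fun i => decide (i = p)

theorem hot_inj {n : ℕ} {p q : Fin (n + 2)} (h : hot p = hot q) : p = q := by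
  have := congrFun h p
  simpa [hot] using this

/-- the local condition for tracks which mark one position -/
def HE (s : Sym α) (p q : Bool × Bool) : Prop :=
  (s = Sym.left → q.2 = false) ∧ (s ≠ Sym.left → q.2 = (p.2 || p.1)) ∧
    (q.1 = true → q.2 = false) ∧ (s = Sym.right → (q.2 || q.1) = true)

theorem IsLS.hot : IsLS (fun (w : List α) (x : Tp w Bool) => ∃ p : Fin (w.length + 2),
    x = hot p) := by
  refine (IsLS.ex (Z := Bool) (IsLS.loc (α := α) HE)).congr (fun w x => ?_)
  constructor
  · rintro ⟨c, hc⟩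
    simp only at hc
    have h1 : ∀ (j : ℕ) (hj : j < w.length + 2), c ⟨j, hj⟩ = true ↔
        ∃ i : Fin (w.length + 2), (i : ℕ) < j ∧ x i = true := by
      intro j
      induction j with
      | zero =>
        intro hj
        have := (hc ⟨0, hj⟩).1 (symAt_left.2 rfl)
        simp only at this
        rw [this]
        simp
      | succ j ih =>
        intro hj
        have h2 := (hc ⟨j + 1, hj⟩).2.1 (by rw [Ne, symAt_left]; simp)
        simp only [pv, Nat.add_sub_cancel] at h2
        rw [h2, Bool.or_eq_true, ih (by omega)]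
        constructor
        · rintro (⟨i, h3, h4⟩ | h3)
          · exact ⟨i, by omega, h4⟩
          · exact ⟨⟨j, by omega⟩, by simp, h3⟩
        · rintro ⟨i, h3, h4⟩
          by_cases h5 : (i : ℕ) < j
          · exact Or.inl ⟨i, h5, h4⟩
          · right
            have : i = ⟨j, by omega⟩ := Fin.ext (by simp only; omega)
            rw [← this]
            exact h4
    have h2 : ∃ i : Fin (w.length + 2), x i = true := by
      have h3 := (hc ⟨w.length + 1, by omega⟩).2.2.2 (symAt_right.2 le_rfl)
      rw [Bool.or_eq_true, h1] at h3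
      rcases h3 with ⟨i, _, h3⟩ | h3
      · exact ⟨i, h3⟩
      · exact ⟨_, h3⟩
    obtain ⟨p, hp⟩ := h2
    have h3 : ∀ i j : Fin (w.length + 2), x i = true → x j = true → ¬ (i : ℕ) < j := by
      intro i j hi hj hij
      have h4 := (hc j).2.2.1 hj
      have h5 := (h1 j j.2).2 ⟨i, hij, hi⟩
      simp only [Fin.eta] at h5
      simp only at h4
      rw [h5] at h4
      exact Bool.noConfusion h4
    refine ⟨p, funext fun i => ?_⟩
    by_cases hi : i = p
    · subst hi; simp [LB.hot, hp]
    · have : x i ≠ true := by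
        intro hx
        have h4 := h3 i p hx hp
        have h5 := h3 p i hp hx
        exact hi (Fin.ext (by omega))
      simp [LB.hot, hi, this]
  · rintro ⟨p, rfl⟩
    refine ⟨fun i => decide ((p : ℕ) < i), fun i => ⟨?_, ?_, ?_, ?_⟩⟩
    · intro hs
      have := symAt_left.1 hs
      simp [this]
    · intro hs
      rw [Ne, symAt_left] at hs
      simp only [LB.hot, pv]
      rw [Bool.eq_iff_iff]
      simp only [decide_eq_true_eq, Bool.or_eq_true]
      constructor
      · intro h
        by_cases h2 : (p : ℕ) < i - 1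
        · exact Or.inl h2
        · right; apply Fin.ext; simp only; omega
      · rintro (h | h)
        · omega
        · have := congrArg Fin.val h
          simp only at this
          omega
    · intro h
      simp only [LB.hot, decide_eq_true_eq] at h
      simp [h]
    · intro hs
      have := symAt_right.1 hs
      simp only [LB.hot, Bool.or_eq_true, decide_eq_true_eq]
      by_cases h2 : (p : ℕ) < i
      · exact Or.inl h2
      · right
        apply Fin.ext
        have := p.2
        omega

/-- the local condition for the successor of a position -/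
theorem IsLS.hsucc : IsLS (fun (w : List α) (x : Tp w (Bool × Bool)) =>
    ∃ p q : Fin (w.length + 2), (fun i => (x i).1) = LB.hot p ∧ (fun i => (x i).2) = LB.hot q ∧
      (q : ℕ) = p + 1) := by
  refine (((IsLS.hot (α := α)).reindex (fun x : Bool × Bool => x.1)).and
    (((IsLS.hot (α := α)).reindex (fun x : Bool × Bool => x.2)).and
      (IsLS.loc (fun s (a b : Bool × Bool) => (s = Sym.left → b.2 = false) ∧
        (s ≠ Sym.left → b.2 = a.1))))).congr (fun w x => ?_)
  constructor
  · rintro ⟨⟨p, hp⟩, ⟨q, hq⟩, h⟩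
    refine ⟨p, q, hp, hq, ?_⟩
    have h1 := h q
    have e1 : ∀ i, (x i).1 = decide (i = p) := fun i => congrFun hp i
    have e2 : ∀ i, (x i).2 = decide (i = q) := fun i => congrFun hq i
    have h0 : symAt w q ≠ Sym.left := by
      intro hc
      have := h1.1 hc
      rw [e2] at this
      simp at this
    have h2 := h1.2 h0
    rw [e1, e2] at h2
    simp only [decide_true] at h2
    have h3 := of_decide_eq_true h2.symm
    have h4 := congrArg Fin.val h3
    rw [Ne, symAt_left] at h0
    simp only [pv] at h4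
    omega
  · rintro ⟨p, q, hp, hq, h⟩
    refine ⟨⟨p, hp⟩, ⟨q, hq⟩, fun i => ?_⟩
    have e1 : ∀ i, (x i).1 = decide (i = p) := fun i => congrFun hp i
    have e2 : ∀ i, (x i).2 = decide (i = q) := fun i => congrFun hq i
    rw [e1, e2]
    constructor
    · intro hs
      have := symAt_left.1 hs
      simp only [decide_eq_false_iff_not]
      rintro rfl
      omega
    · intro hs
      rw [Ne, symAt_left] at hs
      rw [decide_eq_decide]
      constructor
      · rintro rfl
        apply Fin.ext
        simp only [pv]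
        omega
      · intro hc
        have := congrArg Fin.val hc
        simp only [pv] at this
        apply Fin.ext
        omega

/-- moves of a head -/
theorem IsLS.hmove (d : Dir) : IsLS (fun (w : List α) (x : Tp w (Bool × Bool)) =>
    ∃ p : Fin (w.length + 2), (fun i => (x i).1) = LB.hot p ∧
      (fun i => (x i).2) = LB.hot (mv d p)) := by
  have hend : ∀ e : Sym α, IsLS (fun (w : List α) (x : Tp w (Bool × Bool)) =>
      (∃ p : Fin (w.length + 2), (fun i => (x i).1) = LB.hot p) ∧
      ((fun i => (x i).2) = fun i => (x i).1) ∧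
      ∀ i : Fin (w.length + 2), symAt w i = e → (x i).1 = true) := fun e =>
    ((IsLS.hot (α := α)).reindex (fun x : Bool × Bool => x.1)).and
    ((IsLS.eq (fun a : Bool × Bool => a.2) (fun a => a.1)).and
      (IsLS.letter (fun s (a : Bool × Bool) => s = e → a.1 = true)))
  cases d with
  | S =>
    refine (((IsLS.hot (α := α)).reindex (fun x : Bool × Bool => x.1)).and
      (IsLS.eq (fun a : Bool × Bool => a.2) (fun a => a.1))).congr (fun w x => ?_)
    have e : ∀ p : Fin (w.length + 2), mv Dir.S p = p := fun p => rfl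
    constructor
    · rintro ⟨⟨p, hp⟩, h⟩
      exact ⟨p, hp, by rw [e, ← hp]; exact h⟩
    · rintro ⟨p, hp, h⟩
      rw [e] at h
      exact ⟨⟨p, hp⟩, h.trans hp.symm⟩
  | R =>
    refine (IsLS.or (IsLS.hsucc (α := α)) (hend Sym.right)).congr (fun w x => ?_)
    constructor
    · rintro (⟨p, q, hp, hq, h⟩ | ⟨⟨p, hp⟩, h1, h2⟩)
      · refine ⟨p, hp, ?_⟩
        have : mv Dir.R p = q := by
          apply Fin.ext
          simp only [mv, Dir.move]
          have := q.2
          omega
        rw [this]; exact hq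
      · refine ⟨p, hp, ?_⟩
        have h3 := h2 ⟨w.length + 1, by omega⟩ (symAt_right.2 le_rfl)
        have e1 : ∀ i, (x i).1 = decide (i = p) := fun i => congrFun hp i
        rw [e1] at h3
        have h4 := congrArg Fin.val (of_decide_eq_true h3)
        have : mv Dir.R p = p := by
          apply Fin.ext
          simp only [mv, Dir.move]
          simp only at h4
          omega
        rw [this, ← hp]
        exact h1
    · rintro ⟨p, hp, hq⟩
      by_cases h : (p : ℕ) = w.length + 1
      · right
        have : mv Dir.R p = p := by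
          apply Fin.ext
          simp only [mv, Dir.move]
          omega
        rw [this] at hq
        refine ⟨⟨p, hp⟩, hq.trans hp.symm, fun i hi => ?_⟩
        have e1 : ∀ i, (x i).1 = decide (i = p) := fun i => congrFun hp i
        rw [e1, decide_eq_true_eq]
        have := symAt_right.1 hi
        apply Fin.ext
        have := i.2
        omega
      · left
        refine ⟨p, _, hp, hq, ?_⟩
        simp only [mv, Dir.move]
        have := p.2
        omega
  | L =>
    refine (IsLS.or ((IsLS.hsucc (α := α)).reindex (fun x : Bool × Bool => (x.2, x.1)))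
      (hend Sym.left)).congr (fun w x => ?_)
    constructor
    · rintro (⟨p, q, hp, hq, h⟩ | ⟨⟨p, hp⟩, h1, h2⟩)
      · refine ⟨q, hq, ?_⟩
        have : mv Dir.L q = p := by
          apply Fin.ext
          simp only [mv, Dir.move]
          omega
        rw [this]; exact hp
      · refine ⟨p, hp, ?_⟩
        have h3 := h2 ⟨0, by omega⟩ (symAt_left.2 rfl)
        have e1 : ∀ i, (x i).1 = decide (i = p) := fun i => congrFun hp i
        rw [e1] at h3
        have h4 := congrArg Fin.val (of_decide_eq_true h3)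
        have : mv Dir.L p = p := by
          apply Fin.ext
          simp only [mv, Dir.move]
          simp only at h4
          omega
        rw [this, ← hp]
        exact h1
    · rintro ⟨p, hp, hq⟩
      by_cases h : (p : ℕ) = 0
      · right
        have : mv Dir.L p = p := by
          apply Fin.ext
          simp only [mv, Dir.move]
          omega
        rw [this] at hq
        refine ⟨⟨p, hp⟩, hq.trans hp.symm, fun i hi => ?_⟩
        have e1 : ∀ i, (x i).1 = decide (i = p) := fun i => congrFun hp i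
        rw [e1, decide_eq_true_eq]
        have := symAt_left.1 hi
        apply Fin.ext
        omega
      · left
        refine ⟨_, p, hq, hp, ?_⟩
        simp only [mv, Dir.move]
        omega

/-! ### The steps of a machine -/

/-- a tape with a head -/
def enc {n : ℕ} {B : Type} (p : Fin (n + 2)) (y : Fin (n + 2) → B) : Fin (n + 2) → B × Bool :=
  fun i => (y i, decide (i = p))

theorem enc_inj {n : ℕ} {B : Type} {p q : Fin (n + 2)} {y z : Fin (n + 2) → B}
    (h : enc p y = enc q z) : p = q ∧ y = z := by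
  constructor
  · refine hot_inj ?_
    exact congrArg (fun f i => (f i).2) h
  · exact congrArg (fun f i => (f i).1) h

/-- one step, on tapes with a head -/
theorem IsLS.step {B : Type} [Finite B] (F : Sym α → B → Set (B × Dir)) :
    IsLS (fun (w : List α) (x : Tp w ((B × Bool) × (B × Bool))) =>
      ∃ (p : Fin (w.length + 2)) (y : Tp w B), ∃ t ∈ F (symAt w p) (y p),
        (fun i => (x i).1) = enc p y ∧
        (fun i => (x i).2) = enc (mv t.2 p) (Function.update y p t.1)) := by
  refine (IsLS.iExists (T := B × Dir) (fun t => ((IsLS.hmove t.2).reindex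
    (fun a : (B × Bool) × (B × Bool) => (a.1.2, a.2.2))).and
    (IsLS.letter (fun s (a : (B × Bool) × (B × Bool)) =>
      (a.1.2 = true → t ∈ F s a.1.1 ∧ a.2.1 = t.1) ∧
      (a.1.2 = false → a.2.1 = a.1.1))))).congr (fun w x => ?_)
  constructor
  · rintro ⟨t, ⟨p, h1, h2⟩, h3⟩
    simp only at h1 h2
    have e1 : ∀ i, (x i).1.2 = decide (i = p) := fun i => congrFun h1 i
    have e2 : ∀ i, (x i).2.2 = decide (i = mv t.2 p) := fun i => congrFun h2 i
    refine ⟨p, fun i => (x i).1.1, t, ((h3 p).1 (by rw [e1]; simp)).1, ?_, ?_⟩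
    · funext i
      exact Prod.ext rfl (e1 i)
    · funext i
      refine Prod.ext ?_ (e2 i)
      simp only [enc]
      by_cases hi : i = p
      · subst hi
        rw [Function.update_self]
        exact ((h3 i).1 (by rw [e1]; simp)).2
      · rw [Function.update_of_ne hi]
        exact (h3 i).2 (by rw [e1]; simp [hi])
  · rintro ⟨p, y, t, ht, h1, h2⟩
    have e1 : ∀ i, (x i).1 = (y i, decide (i = p)) := fun i => congrFun h1 i
    have e2 : ∀ i, (x i).2 = (Function.update y p t.1 i, decide (i = mv t.2 p)) :=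
      fun i => congrFun h2 i
    refine ⟨t, ⟨p, ?_, ?_⟩, fun i => ⟨?_, ?_⟩⟩
    · funext i
      simp only [e1, LB.hot]
    · funext i
      simp only [e2, LB.hot]
    · intro h
      rw [e1] at h
      simp only [decide_eq_true_eq] at h
      subst h
      rw [e1, e2]
      simp only [Function.update_self, and_true]
      exact ht
    · intro h
      rw [e1] at h
      simp only [decide_eq_false_iff_not] at h
      rw [e1, e2]
      simp only [Function.update_of_ne h]

section sys

variable {S Q' : Type} (M : LT α (S × Bool)) (A : DFA (S × Bool) Q')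

/-- the steps with a given output -/
def SO (o : Option (S × Bool)) (w : List α) (x y : (M.Q × Q') × Tp w (M.B × Bool)) : Prop :=
  ∃ (p : Fin (w.length + 2)) (u : Tp w M.B) (t : M.Q × M.B × Dir × Option (S × Bool)),
    t ∈ M.step x.1.1 (symAt w p) (u p) ∧ t.2.2.2 = o ∧ x.2 = enc p u ∧
    y = ((t.1, A.evalFrom x.1.2 o.toList), enc (mv t.2.2.1 p) (Function.update u p t.2.1))

/-- the pushdown system of a machine, combined with the automaton `A` -/
def sys (w : List α) : TPS ((M.Q × Q') × Tp w (M.B × Bool)) S where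
  N := SO M A none w
  U s := SO M A (some (s, true)) w
  O s := SO M A (some (s, false)) w

theorem sys_follows (w : List α) : Follows (sys M A w) (fun x => x.1.2) A.step where
  N := by rintro x y ⟨p, u, t, _, _, _, rfl⟩; rfl
  U := by rintro s x y ⟨p, u, t, _, _, _, rfl⟩; rfl
  O := by rintro s x y ⟨p, u, t, _, _, _, rfl⟩; rfl

theorem so_ls (o : Option (S × Bool)) : LS2 (fun w => SO M A o w) := by
  intro c c'
  have := M.finB
  by_cases hq : c'.2 = A.evalFrom c.2 o.toList
  · refine (IsLS.step (fun s b => {t : M.B × Dir |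
      ((c'.1, t.1, t.2, o) : M.Q × M.B × Dir × Option (S × Bool)) ∈ M.step c.1 s b})).congr
      (fun w x => ?_)
    constructor
    · rintro ⟨p, y, t, ht, h1, h2⟩
      refine ⟨p, y, (c'.1, t.1, t.2, o), ht, rfl, h1, ?_⟩
      simp only
      rw [← h2, ← hq]
    · rintro ⟨p, y, t, ht, h0, h1, h2⟩
      simp only [Prod.mk.injEq] at h2
      obtain ⟨h3, h4⟩ := h2
      refine ⟨p, y, (t.2.1, t.2.2.1), ?_, h1, h4⟩
      change ((c'.1, t.2.1, t.2.2.1, o) : M.Q × M.B × Dir × Option (S × Bool)) ∈
        M.step c.1 (symAt w p) (y p)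
      rw [h3, ← h0]
      exact ht
  · refine (IsLS.const False).congr (fun w x => ?_)
    simp only [false_iff]
    rintro ⟨p, y, t, ht, h0, h1, h2⟩
    simp only [Prod.mk.injEq] at h2
    apply hq
    rw [h2.1]

theorem sys_ls : LSSys (sys M A) where
  N := so_ls M A none
  U s := so_ls M A (some (s, true))
  O s := so_ls M A (some (s, false))

variable {M A}

/-- the tape with the head of a configuration -/
def Enc {w : List α} (c : LCfg M.Q M.B (S × Bool)) (z : Tp w (M.B × Bool)) : Prop :=
  ∃ h : c.pos < w.length + 2, z = enc ⟨c.pos, h⟩ (fun i => c.tp i)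

theorem update_fin {n : ℕ} {B : Type} (y : ℕ → B) (p : ℕ) (h : p < n + 2) (b : B) :
    (fun i : Fin (n + 2) => Function.update y p b (i : ℕ)) =
      Function.update (fun i : Fin (n + 2) => y i) ⟨p, h⟩ b := by
  funext i
  by_cases hi : i = ⟨p, h⟩
  · subst hi; rw [Function.update_self, Function.update_self]
  · rw [Function.update_of_ne hi, Function.update_of_ne (fun h => hi (Fin.ext h))]

theorem enc_step {w : List α} {c c' : LCfg M.Q M.B (S × Bool)} {z : Tp w (M.B × Bool)}
    (q : Q') (h : Enc c z) (hs : M.Step w c c') : ∃ o : Option (S × Bool),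
      c'.out = c.out ++ o.toList ∧
      ∃ z', Enc c' z' ∧ SO M A o w ((c.q, q), z) ((c'.q, A.evalFrom q o.toList), z') := by
  obtain ⟨h, rfl⟩ := h
  obtain ⟨t, ht, rfl⟩ := hs
  refine ⟨t.2.2.2, rfl, enc (mv t.2.2.1 ⟨c.pos, h⟩)
    (Function.update (fun i => c.tp i) ⟨c.pos, h⟩ t.2.1), ⟨?_, ?_⟩, ?_⟩
  · exact (mv t.2.2.1 (⟨c.pos, h⟩ : Fin (w.length + 2))).2
  · simp only
    rw [update_fin _ _ h]
    rfl
  · exact ⟨⟨c.pos, h⟩, fun i => c.tp i, t, ht, rfl, rfl, rfl⟩

theorem enc_step' {w : List α} {c : LCfg M.Q M.B (S × Bool)} {z : Tp w (M.B × Bool)}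
    {q : Q'} {o : Option (S × Bool)} {y : (M.Q × Q') × Tp w (M.B × Bool)} (h : Enc c z)
    (hs : SO M A o w ((c.q, q), z) y) :
    ∃ c', M.Step w c c' ∧ c'.out = c.out ++ o.toList ∧ Enc c' y.2 ∧ y.1.1 = c'.q ∧
      y.1.2 = A.evalFrom q o.toList := by
  obtain ⟨h, rfl⟩ := h
  obtain ⟨p, u, t, ht, rfl, h1, rfl⟩ := hs
  obtain ⟨rfl, rfl⟩ := enc_inj h1
  refine ⟨_, ⟨t, ht, rfl⟩, rfl, ⟨?_, ?_⟩, rfl, rfl⟩
  · exact (mv t.2.2.1 (⟨c.pos, h⟩ : Fin (w.length + 2))).2
  · simp only
    rw [update_fin _ _ h]
    rfl

variable (M A) in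
/-- the initial tape -/
def z0 (w : List α) : Tp w (M.B × Bool) := enc ⟨0, by omega⟩ (fun _ => M.blank)

variable [DecidableEq S]

theorem runS_opt {o : Option (S × Bool)} {st st' : List S} (h : runS o.toList st = some st')
    {w : List α} {x y : (M.Q × Q') × Tp w (M.B × Bool)} (hs : SO M A o w x y) :
    (sys M A w).Step (x, st) (y, st') := by
  rcases o with _ | ⟨s, b⟩
  · simp only [Option.toList, runS, Option.some.injEq] at h
    subst h
    exact Or.inl ⟨hs, rfl⟩
  · cases b with
    | true =>
      simp only [Option.toList, runS, Option.some.injEq] at h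
      subst h
      exact Or.inr (Or.inl ⟨s, hs, rfl⟩)
    | false =>
      cases st with
      | nil => simp [Option.toList, runS] at h
      | cons a st =>
        simp only [Option.toList, runS] at h
        split_ifs at h with ha
        simp only [Option.some.injEq] at h
        subst ha h
        exact Or.inr (Or.inr ⟨s, hs, rfl⟩)

theorem opt_step {w : List α} {c c' : ((M.Q × Q') × Tp w (M.B × Bool)) × List S}
    (hs : (sys M A w).Step c c') :
    ∃ o : Option (S × Bool), SO M A o w c.1 c'.1 ∧ runS o.toList c.2 = some c'.2 := by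
  rcases hs with ⟨h1, h2⟩ | ⟨s, h1, h2⟩ | ⟨s, h1, h2⟩
  · exact ⟨none, h1, by rw [h2]; rfl⟩
  · exact ⟨some (s, true), h1, by rw [h2]; rfl⟩
  · exact ⟨some (s, false), h1, by rw [h2]; simp [Option.toList, runS]⟩

theorem lang_sys (w : List α) : (∃ v ∈ dyck S ⊓ A.accepts, M.Out w v) ↔
    ∃ q ∈ M.acc, ∃ r ∈ A.accept, ∃ z, ReflTransGen (sys M A w).Step
      (((M.init, A.start), z0 M w), []) (((q, r), z), []) := by
  constructor
  · rintro ⟨v, ⟨hv1, hv2⟩, c, hc, hacc, rfl⟩
    have key : ∀ c, ReflTransGen (M.Step w) M.start c → ∀ st, runS c.out [] = some st →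
        ∃ z, Enc c z ∧ ReflTransGen (sys M A w).Step (((M.init, A.start), z0 M w), [])
          (((c.q, A.eval c.out), z), st) := by
      intro c hc
      induction hc with
      | refl =>
        intro st hst
        have : st = [] := by
          simp only [LT.start, runS, Option.some.injEq] at hst
          exact hst.symm
        subst this
        exact ⟨_, ⟨Nat.succ_pos _, rfl⟩, .refl⟩
      | @tail b c _ hs ih =>
        intro st hst
        have hs' := hs
        obtain ⟨t, ht, hc'⟩ := hs
        have e1 : c.out = b.out ++ t.2.2.2.toList := by rw [hc']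
        rw [e1, runS_append] at hst
        cases h1 : runS b.out [] with
        | none => rw [h1] at hst; simp at hst
        | some st1 =>
          rw [h1] at hst
          simp only [Option.bind_some] at hst
          obtain ⟨z, h2, h3⟩ := ih st1 h1
          obtain ⟨o, ho, z', h4, h5⟩ := enc_step (A := A) (A.eval b.out) h2 hs'
          have e2 : o.toList = t.2.2.2.toList := List.append_cancel_left (ho.symm.trans e1)
          refine ⟨z', h4, h3.tail ?_⟩
          have e3 : A.eval c.out = A.evalFrom (A.eval b.out) o.toList := by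
            rw [ho, DFA.eval, DFA.evalFrom_of_append]
          rw [e3]
          exact runS_opt (by rw [e2]; exact hst) h5
    obtain ⟨z, _, h⟩ := key c hc [] hv1
    exact ⟨_, hacc, _, hv2, z, h⟩
  · rintro ⟨q, hq, r, hr, z, h⟩
    have key : ∀ d, ReflTransGen (sys M A w).Step (((M.init, A.start), z0 M w), []) d →
        ∃ c, ReflTransGen (M.Step w) M.start c ∧ Enc c d.1.2 ∧ d.1.1.1 = c.q ∧
          d.1.1.2 = A.eval c.out ∧ runS c.out [] = some d.2 := by
      intro d hd
      induction hd with
      | refl => exact ⟨_, .refl, ⟨Nat.succ_pos _, rfl⟩, rfl, rfl, rfl⟩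
      | @tail d d' _ hs ih =>
        obtain ⟨c, h1, h2, h3, h4, h5⟩ := ih
        obtain ⟨o, h6, h7⟩ := opt_step hs
        obtain ⟨⟨⟨q1, r1⟩, z1⟩, st1⟩ := d
        simp only at h2 h3 h4 h5 h6 h7
        subst h3
        obtain ⟨c', g1, g2, g3, g4, g5⟩ := enc_step' h2 h6
        refine ⟨c', h1.tail g1, g3, g4, ?_, ?_⟩
        · rw [g5, h4, g2, DFA.eval, DFA.evalFrom_of_append]
        · rw [g2]; exact runS_trans h5 h7
    obtain ⟨c, h1, _, h3, h4, h5⟩ := key _ h
    simp only at h3 h4 h5
    have h6 : A.eval c.out ∈ A.accept := by rw [← h4]; exact hr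
    exact ⟨c.out, ⟨h5, h6⟩, c, h1, by rw [← h3]; exact hq, rfl⟩

end sys

theorem exists_k (a b : ℕ) : ∃ k : ℕ, ∀ n : ℕ,
    (a * b ^ (n + 2)) * (a * b ^ (n + 2)) < (k + 2) ^ (n + 2) := by
  refine ⟨a * a * (b * b), fun n => ?_⟩
  have e : (a * b ^ (n + 2)) * (a * b ^ (n + 2)) = a * a * (b * b) ^ (n + 2) := by
    rw [mul_pow]; ring
  rw [e]
  have h1 : a * a * (b * b) ^ (n + 2) ≤ (a * a * (b * b)) ^ (n + 2) := by
    rw [mul_pow (a * a)]
    refine Nat.mul_le_mul_right _ ?_
    exact Nat.le_self_pow (by omega) _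
  refine lt_of_le_of_lt h1 ?_
  exact Nat.pow_lt_pow_left (by omega) (by omega)

/-- **Linear space machines with output in `D ∩ R`, for `R` not rich, can be simulated by
linear space machines without output.** -/
theorem nspace_side {S : Type} [Finite S] [DecidableEq S] {R : Language (S × Bool)}
    (hR : R.IsRegular) (hn : ¬ Rich R) : linPre (dyck S ⊓ R) α ⊆ nspace α := by
  rintro L ⟨M, rfl⟩
  obtain ⟨Q', _, A, rfl⟩ := hR
  have := M.finQ
  have := M.finB
  have : Nonempty M.B := ⟨M.blank⟩
  have hP := sys_ls M A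
  -- the labels
  have hf : ∀ τ : Q' × Q', ∃ f : ℕ → Option S, (∃ p, 0 < p ∧ ∀ m, f m = f (m % p)) ∧
      ((∃ qf ∈ A.accept, τ ∈ below A.step (A.start, qf)) → Brn A.step τ →
        ∀ τ', Mut A.step τ τ' → ∀ u, Pth A.step τ u τ' → ∀ (i : ℕ) (hi : i < u.length),
        f i = some u[i]) := by
    intro τ
    by_cases h : (∃ qf ∈ A.accept, τ ∈ below A.step (A.start, qf)) ∧ Brn A.step τ
    · obtain ⟨⟨qf, h1, h2⟩, h3⟩ := h
      obtain ⟨f, h4, h5⟩ := exists_f (δ := A.step) (τ := τ) (by
        intro u v hu hv hl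
        by_contra hne
        exact hn (rich_of A rfl h1 h2 h3 hu hv hl hne))
      exact ⟨f, h4, fun _ _ => h5⟩
    · exact ⟨fun _ => none, ⟨1, one_pos, fun _ => rfl⟩, fun h1 h2 => absurd ⟨h1, h2⟩ h⟩
  choose g hg1 hg2 using hf
  obtain ⟨k, hk⟩ := exists_k (Nat.card (M.Q × Q')) (Nat.card (M.B × Bool))
  obtain ⟨K, hK⟩ : ∃ K, ∀ τ : Q' × Q', rk A.step τ ≤ K := by
    have := Set.finite_range (rk A.step)
    obtain ⟨K, hK⟩ := this.bddAbove
    exact ⟨K, fun t => hK ⟨t, rfl⟩⟩
  have hV := Vk_LS2 hP k g hg1 K
  have key : IsLS (fun (w : List α) (_ : Tp w Unit) => ∃ qr : M.Q × Q',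
      ∃ a : Tp w ((M.B × Bool) × (M.B × Bool)), (qr.1 ∈ M.acc ∧ qr.2 ∈ A.accept) ∧
        (∀ i : Fin (w.length + 2), (symAt w i = Sym.left ∧ (a i).1 = (M.blank, true)) ∨
          (symAt w i ≠ Sym.left ∧ (a i).1 = (M.blank, false))) ∧
        (sys M A w).Vk ((k + 2) ^ (w.length + 2)) g K ((M.init, A.start), fun i => (a i).1)
          (qr, fun i => (a i).2)) := by
    refine IsLS.iExists (fun qr => ?_)
    refine IsLS.ex (Z := (M.B × Bool) × (M.B × Bool)) (P := fun (w : List α)
      (x : Tp w (Unit × ((M.B × Bool) × (M.B × Bool)))) => (qr.1 ∈ M.acc ∧ qr.2 ∈ A.accept) ∧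
        (∀ i : Fin (w.length + 2), (symAt w i = Sym.left ∧ (x i).2.1 = (M.blank, true)) ∨
          (symAt w i ≠ Sym.left ∧ (x i).2.1 = (M.blank, false))) ∧
        (sys M A w).Vk ((k + 2) ^ (w.length + 2)) g K ((M.init, A.start), fun i => (x i).2.1)
          (qr, fun i => (x i).2.2)) ?_
    exact (IsLS.const _).and ((IsLS.letter (fun s (a : Unit × ((M.B × Bool) × (M.B × Bool))) =>
      (s = Sym.left ∧ a.2.1 = (M.blank, true)) ∨
          (s ≠ Sym.left ∧ a.2.1 = (M.blank, false)))).and
      (hV.at _ _ (fun a : Unit × ((M.B × Bool) × (M.B × Bool)) => a.2.1) (fun a => a.2.2)))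
  refine (congrArg (fun L : Language α => L ∈ nspace α) (?_ : _ = _)).mpr key.nspace
  refine Set.ext fun w => ?_
  change (∃ v ∈ dyck S ⊓ A.accepts, M.Out w v) ↔ _
  rw [lang_sys]
  have hz : ∀ a : Tp w (M.B × Bool), (∀ i : Fin (w.length + 2),
      (symAt w i = Sym.left ∧ a i = (M.blank, true)) ∨
          (symAt w i ≠ Sym.left ∧ a i = (M.blank, false))) ↔ a = z0 M w := by
    intro a
    constructor
    · intro h
      funext i
      rcases h i with ⟨h1, h2⟩ | ⟨h1, h2⟩
      · rw [h2, z0, enc]
        have : i = ⟨0, by omega⟩ := Fin.ext (symAt_left.1 h1)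
        simp [this]
      · rw [h2, z0, enc]
        rw [Ne, symAt_left] at h1
        have : ¬ i = ⟨0, by omega⟩ := fun h => h1 (congrArg Fin.val h)
        simp only [this, decide_false]
    · rintro rfl i
      by_cases h : (i : ℕ) = 0
      · left
        refine ⟨symAt_left.2 h, ?_⟩
        rw [z0, enc]
        have : i = ⟨0, by omega⟩ := Fin.ext h
        simp [this]
      · right
        refine ⟨by rw [Ne, symAt_left]; exact h, ?_⟩
        rw [z0, enc]
        have : ¬ i = ⟨0, by omega⟩ := fun h' => h (congrArg Fin.val h')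
        simp only [this, decide_false]
  constructor
  · rintro ⟨q, hq, r, hr, z, h⟩
    obtain ⟨h', h1⟩ := (sys M A w).exists_bal h
    have h2 := (sys M A w).bal_stable h1
    refine ⟨(q, r), fun i => (z0 M w i, z i), ⟨hq, hr⟩, (hz _).2 rfl, ?_⟩
    refine vk_complete (sys_follows M A w) (A.start, r) ((k + 2) ^ (w.length + 2)) g
        (fun τ hτ hb => hg2 τ ⟨r, hr, hτ⟩ hb) K (A.start, r) (mem_below_self _) (hK _) _ _ _ h2
        rfl ?_
    rw [Nat.card_prod (_ × Tp w (M.B × Bool)), Nat.card_prod (M.Q × Q') (Tp w (M.B × Bool)),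
      Nat.card_fun, Nat.card_fin]
    exact hk w.length
  · rintro ⟨⟨q, r⟩, a, ⟨hq, hr⟩, h0, hV⟩
    rw [(hz _).1 h0] at hV
    exact ⟨q, hq, r, hr, _, (sys M A w).vk_sound K _ _ hV []⟩

end Pool.Agent.V8H47.LB
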